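import Mathlib

-- part Pool.Agent.P.MP_ac4bd0_al.Units
section

set_option autoImplicit false

open Polynomial Module

namespace Pool.Agent.P.MP_ac4bd0_al

theorem trace_pow_formula {V : Type} [AddCommGroup V] [Module ℂ V] [FiniteDimensional ℂ V]
    (A : End ℂ V) (N : ℕ) [NeZero N] (hA : A ^ N = 1) (ζ : ℂ) (hζ : IsPrimitiveRoot ζ N) :
    ∃ P : ℤ[X], ∀ k : ℕ, LinearMap.trace ℂ V (A ^ k) = aeval (ζ ^ k) P := by
  classical
  have hss : A.IsSemisimple := by
    apply End.isSemisimple_of_squarefree_aeval_eq_zero (p := X ^ N - 1)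
    · exact (X_pow_sub_one_separable_iff.mpr (NeZero.natCast_ne N ℂ)).squarefree
    · simp [hA]
  have hint : DirectSum.IsInternal A.eigenspace :=
    DirectSum.isInternal_submodule_of_iSupIndep_of_iSup_eq_top A.eigenspaces_iSupIndep
      hss.iSup_eigenspace_eq_top
  have hfin : {μ | A.eigenspace μ ≠ ⊥}.Finite := A.finite_hasEigenvalue
  have hpow : ∀ (μ : ℂ) (k : ℕ), ∀ v ∈ A.eigenspace μ, (A ^ k) v = μ ^ k • v := by
    intro μ k v hv
    have := End.aeval_apply_of_mem_apply_eq_smul (p := X ^ k) (End.mem_eigenspace_iff.mp hv)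
    simpa using this
  have hroot : ∀ μ : ℂ, ∃ j : ℕ, A.eigenspace μ ≠ ⊥ → ζ ^ j = μ := by
    intro μ
    by_cases h : A.eigenspace μ = ⊥
    · exact ⟨0, fun h' => absurd h h'⟩
    · obtain ⟨v, hv, hv0⟩ := (Submodule.ne_bot_iff _).mp h
      have h1 := hpow μ N v hv
      rw [hA, End.one_apply] at h1
      have h2 : μ ^ N = 1 := by
        have : (μ ^ N - 1) • v = 0 := by rw [sub_smul, one_smul, ← h1, sub_self]
        exact sub_eq_zero.mp ((smul_eq_zero.mp this).resolve_right hv0)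
      obtain ⟨j, -, hj⟩ := hζ.eq_pow_of_pow_eq_one h2
      exact ⟨j, fun _ => hj⟩
  choose j hj using hroot
  refine ⟨∑ μ ∈ hfin.toFinset, C (finrank ℂ (A.eigenspace μ) : ℤ) * X ^ j μ, fun k => ?_⟩
  have hmaps : ∀ μ, Set.MapsTo (A ^ k) (A.eigenspace μ) (A.eigenspace μ) := by
    intro μ v hv
    rw [SetLike.mem_coe, hpow μ k v hv]
    exact Submodule.smul_mem _ _ hv
  rw [LinearMap.trace_eq_sum_trace_restrict' hint hfin hmaps, map_sum]
  refine Finset.sum_congr rfl (fun μ hμ => ?_)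
  have hμ' : A.eigenspace μ ≠ ⊥ := by simpa using hμ
  have : (A ^ k).restrict (hmaps μ) = μ ^ k • LinearMap.id := by
    ext v
    exact hpow μ k v v.2
  rw [this, map_smul, LinearMap.trace_id]
  simp only [map_mul, map_pow, aeval_X, smul_eq_mul, map_natCast]
  rw [← pow_mul, mul_comm k, pow_mul, hj μ hμ', mul_comm]

theorem rat_unit_norm (q : ℚ) (hq : IsIntegral ℤ q) (r : ℚ) (hr : IsIntegral ℤ r)
    (h : q * r = 1) : ‖(q : ℂ)‖ = 1 := by
  obtain ⟨a, rfl⟩ := IsIntegrallyClosed.isIntegral_iff.mp hq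
  obtain ⟨b, rfl⟩ := IsIntegrallyClosed.isIntegral_iff.mp hr
  have : a * b = 1 := by
    have h2 : ((a * b : ℤ) : ℚ) = 1 := by simpa using h
    exact_mod_cast h2
  rcases Int.eq_one_or_neg_one_of_mul_eq_one this with rfl | rfl <;> simp

theorem norm_eq_one_of_scalar {G : Type} [Group G] [Fintype G] (N : ℕ) [NeZero N]
    (hN : ∀ g : G, g ^ N = 1)
    (hG : ∀ k : ℕ, k.Coprime N → (∀ g : G, IsConj g (g ^ k)) ∨ (∀ g : G, IsConj g⁻¹ (g ^ k)))
    {V : Type} [AddCommGroup V] [Module ℂ V] [FiniteDimensional ℂ V] [Nontrivial V]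
    (ρ : G →* End ℂ V) (c : G → ℤ) (μ : ℂ) (hμ : ∑ g, c g • ρ g = μ • LinearMap.id)
    (h0 : μ ≠ 0) (hi : IsIntegral ℤ μ) (hi' : IsIntegral ℤ μ⁻¹) : ‖μ‖ = 1 := by
  classical
  obtain ⟨ζ, hζ⟩ : ∃ ζ : ℂ, IsPrimitiveRoot ζ N :=
    ⟨_, Complex.isPrimitiveRoot_exp N (NeZero.ne N)⟩
  choose P hP using fun g : G =>
    trace_pow_formula (ρ g) N (by rw [← map_pow, hN, map_one]) ζ hζ
  have hconj : ∀ g h : G, IsConj g h →
      LinearMap.trace ℂ V (ρ g) = LinearMap.trace ℂ V (ρ h) := by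
    intro g h hgh
    obtain ⟨d, rfl⟩ := isConj_iff.mp hgh
    rw [map_mul, LinearMap.trace_mul_comm, ← map_mul]
    simp
  have hd : (finrank ℂ V : ℂ) ≠ 0 := Nat.cast_ne_zero.mpr finrank_pos.ne'
  have htr : ∑ g, (c g : ℂ) * LinearMap.trace ℂ V (ρ g) = μ * finrank ℂ V := by
    have := congrArg (LinearMap.trace ℂ V) hμ
    rw [map_sum] at this
    simp only [map_zsmul] at this
    simpa using this
  have hζconj : ζ ^ (N - 1) = (starRingEnd ℂ) ζ := by
    have h1 : ‖ζ‖ = 1 := hζ.norm'_eq_one (NeZero.ne N)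
    have h2 : ζ ≠ 0 := hζ.ne_zero (NeZero.ne N)
    apply mul_left_cancel₀ h2
    rw [← pow_succ', Nat.sub_add_cancel NeZero.one_le, hζ.pow_eq_one, Complex.mul_conj,
      Complex.normSq_eq_norm_sq, h1]
    simp
  have hinv : ∀ g : G, LinearMap.trace ℂ V (ρ g⁻¹) =
      (starRingEnd ℂ) (LinearMap.trace ℂ V (ρ g)) := by
    intro g
    have h1 : g⁻¹ = g ^ (N - 1) := by
      rw [inv_eq_iff_mul_eq_one, ← pow_succ', Nat.sub_add_cancel NeZero.one_le, hN]
    have h2 := hP g 1
    rw [pow_one, pow_one] at h2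
    rw [h1, map_pow, hP, hζconj, h2]
    exact aeval_algHom_apply ((starRingEnd ℂ).toIntAlgHom) ζ (P g)
  let L := IntermediateField.adjoin ℚ ({ζ} : Set ℂ)
  have hζint : IsIntegral ℚ ζ := (hζ.isIntegral (NeZero.pos N)).tower_top
  have : FiniteDimensional ℚ L := IntermediateField.adjoin.finiteDimensional hζint
  let z : L := IntermediateField.AdjoinSimple.gen ℚ ζ
  have hz : IsPrimitiveRoot z N :=
    IsPrimitiveRoot.of_map_of_injective (f := L.val) hζ L.val.injective
  let x : L := (∑ g, (c g : L) * aeval z (P g)) / (finrank ℂ V : L)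
  have hσ : ∀ (σ : L →ₐ[ℚ] ℂ) (k : ℕ), σ z = ζ ^ k →
      σ x = (∑ g, (c g : ℂ) * LinearMap.trace ℂ V (ρ (g ^ k))) / (finrank ℂ V : ℂ) := by
    intro σ k hk
    simp only [x, map_div₀, map_sum, map_mul, map_intCast, map_natCast]
    congr 1
    refine Finset.sum_congr rfl (fun g _ => ?_)
    rw [map_pow, hP, ← hk]
    congr 1
    exact (aeval_algHom_apply (σ.restrictScalars ℤ) z (P g)).symm
  have hx : L.val x = μ := by
    have := hσ L.val 1 (by rw [pow_one]; rfl)
    simp only [pow_one] at this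
    rw [htr, mul_div_cancel_right₀ _ hd] at this
    exact this
  have hnorm : ∀ σ : L →ₐ[ℚ] ℂ, ‖σ x‖ = ‖μ‖ := by
    intro σ
    obtain ⟨k, -, hk, hk'⟩ := hζ.isPrimitiveRoot_iff.mp (hz.map_of_injective σ.injective)
    rw [hσ σ k hk'.symm]
    rcases hG k hk with h | h
    · simp_rw [← fun g => hconj _ _ (h g)]
      rw [htr, mul_div_cancel_right₀ _ hd]
    · simp_rw [← fun g => hconj _ _ (h g), hinv]
      have : ∑ g, (c g : ℂ) * (starRingEnd ℂ) (LinearMap.trace ℂ V (ρ g)) =
          (starRingEnd ℂ) μ * finrank ℂ V := by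
        have := congrArg (starRingEnd ℂ) htr
        simpa [map_sum] using this
      rw [this, mul_div_cancel_right₀ _ hd, Complex.norm_conj]
  have hx0 : x ≠ 0 := by
    intro h
    rw [h, map_zero] at hx
    exact h0 hx.symm
  have hxi : IsIntegral ℤ x := by
    rw [← isIntegral_algHom_iff (L.val.restrictScalars ℤ) L.val.injective]
    show IsIntegral ℤ (L.val x)
    rwa [hx]
  have hxi' : IsIntegral ℤ x⁻¹ := by
    rw [← isIntegral_algHom_iff (L.val.restrictScalars ℤ) L.val.injective]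
    show IsIntegral ℤ (L.val x⁻¹)
    rwa [map_inv₀, hx]
  have h1 := rat_unit_norm _ (Algebra.isIntegral_norm ℚ hxi) _ (Algebra.isIntegral_norm ℚ hxi')
    (by rw [← map_mul, mul_inv_cancel₀ hx0, map_one])
  have h2 := Algebra.norm_eq_prod_embeddings ℚ ℂ x
  rw [eq_ratCast] at h2
  rw [h2, norm_prod] at h1
  simp only [hnorm, Finset.prod_const] at h1
  have hcard : (Finset.univ : Finset (L →ₐ[ℚ] ℂ)).card ≠ 0 :=
    (Finset.card_pos.mpr ⟨L.val, Finset.mem_univ _⟩).ne'
  exact (pow_eq_one_iff_of_nonneg (norm_nonneg _) hcard).mp h1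

/-- The left regular representation on functions. -/
noncomputable def reg (G : Type) [Group G] : G →* End ℂ (G → ℂ) where
  toFun g := LinearMap.funLeft ℂ ℂ (fun x => g⁻¹ * x)
  map_one' := by ext f x; simp [LinearMap.funLeft]
  map_mul' g h := by ext f x; simp [LinearMap.funLeft, mul_assoc]

theorem trace_reg {G : Type} [Group G] [Fintype G] [DecidableEq G] (g : G) :
    LinearMap.trace ℂ (G → ℂ) (reg G g) = if g = 1 then (Fintype.card G : ℂ) else 0 := by
  rw [LinearMap.trace_eq_matrix_trace ℂ (Pi.basisFun ℂ G), Matrix.trace]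
  simp only [Matrix.diag, LinearMap.toMatrix_apply, reg, MonoidHom.coe_mk, OneHom.coe_mk,
    Pi.basisFun_apply, Pi.basisFun_repr, LinearMap.funLeft_apply, Pi.single_apply]
  by_cases hg : g = 1
  · simp [hg]
  · simp [hg]

theorem isIntegral_eigen {G : Type} [Group G] [Finite G] {V : Type} [AddCommGroup V] [Module ℂ V]
    (Λ : MonoidAlgebra ℤ G →ₐ[ℤ] End ℂ V) (w : MonoidAlgebra ℤ G) (μ : ℂ) (v : V) (hv : v ≠ 0)
    (h : Λ w v = μ • v) : IsIntegral ℤ μ := by
  obtain ⟨p, hp, hp0⟩ : IsIntegral ℤ (Λ w) :=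
    (Algebra.IsIntegral.isIntegral (R := ℤ) w).map_of_comp_eq (RingHom.id ℤ) Λ.toRingHom
      (by ext; simp)
  refine ⟨p, hp, ?_⟩
  have h1 := End.aeval_apply_of_mem_apply_eq_smul (p := p.map (algebraMap ℤ ℂ)) h
  rw [aeval_map_algebraMap, aeval_def, hp0, eval_map] at h1
  exact (smul_eq_zero.mp h1.symm).resolve_right hv

theorem coeff_one_le {G : Type} [Group G] [Finite G] (N : ℕ) [NeZero N]
    (hN : ∀ g : G, g ^ N = 1)
    (hG : ∀ k : ℕ, k.Coprime N → (∀ g : G, IsConj g (g ^ k)) ∨ (∀ g : G, IsConj g⁻¹ (g ^ k)))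
    (w w' : MonoidAlgebra ℤ G) (hw : w' * w = 1)
    (hc : ∀ g : G, w * MonoidAlgebra.of ℤ G g = MonoidAlgebra.of ℤ G g * w) :
    w.coeff 1 ≤ 1 := by
  classical
  have := Fintype.ofFinite G
  let Λ := MonoidAlgebra.lift ℤ (End ℂ (G → ℂ)) G (reg G)
  have hΛ : Λ w = ∑ g, w.coeff g • reg G g := by
    rw [MonoidAlgebra.lift_apply, Finsupp.sum_fintype _ _ (by simp)]
  have hcomm : ∀ g, Λ w * reg G g = reg G g * Λ w := by
    intro g
    have := congrArg Λ (hc g)
    rwa [map_mul, map_mul, MonoidAlgebra.lift_of] at this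
  have hroots : ∀ μ ∈ (Λ w).charpoly.roots, ‖μ‖ = 1 := by
    intro μ hμ
    have hev : (Λ w).HasEigenvalue μ :=
      (End.hasEigenvalue_iff_isRoot_charpoly _ _).mpr (isRoot_of_mem_roots hμ)
    obtain ⟨v, hv, hv0⟩ := hev.exists_hasEigenvector
    have hv' : Λ w v = μ • v := End.mem_eigenspace_iff.mp hv
    have h1 : μ • Λ w' v = v := by
      rw [← map_smul, ← hv', ← End.mul_apply, ← map_mul, hw, map_one, End.one_apply]
    have h0 : μ ≠ 0 := by
      rintro rfl
      rw [zero_smul] at h1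
      exact hv0 h1.symm
    have h2 : Λ w' v = μ⁻¹ • v := by
      rw [eq_inv_smul_iff₀ h0]
      exact h1
    let E := (Λ w).eigenspace μ
    have hE : ∀ g, ∀ x ∈ E, reg G g x ∈ E := by
      intro g x hx
      rw [End.mem_eigenspace_iff] at hx ⊢
      rw [← End.mul_apply, hcomm, End.mul_apply, hx, map_smul]
    let ρ : G →* End ℂ E :=
      { toFun := fun g => (reg G g).restrict (hE g)
        map_one' := by ext x; simp
        map_mul' := fun g h => by ext x; simp }
    have : Nontrivial E := Submodule.nontrivial_iff_ne_bot.mpr hev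
    refine norm_eq_one_of_scalar N hN hG ρ w.coeff μ ?_ h0 (isIntegral_eigen Λ w μ v hv0 hv')
      (isIntegral_eigen Λ w' _ v hv0 h2)
    refine LinearMap.ext (fun x => Subtype.ext ?_)
    have hx : Λ w x = μ • (x : G → ℂ) := End.mem_eigenspace_iff.mp x.2
    rw [hΛ] at hx
    simpa [ρ, LinearMap.sum_apply] using hx
  have htr : LinearMap.trace ℂ (G → ℂ) (Λ w) = (w.coeff 1 : ℂ) * Fintype.card G := by
    rw [hΛ, map_sum]
    simp only [map_zsmul, trace_reg]
    simp
  have hsplit := IsAlgClosed.splits (Λ w).charpoly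
  rw [End.trace_eq_sum_roots_charpoly_of_splits hsplit] at htr
  have hcard : (Λ w).charpoly.roots.card = Fintype.card G := by
    rw [← hsplit.natDegree_eq_card_roots, LinearMap.charpoly_natDegree, finrank_fintype_fun_eq_card]
  have hle : ‖(Λ w).charpoly.roots.sum‖ ≤ Fintype.card G := by
    refine (norm_multiset_sum_le _).trans ?_
    rw [Multiset.map_congr rfl hroots]
    simp [hcard]
  rw [htr, norm_mul, Complex.norm_natCast, Complex.norm_intCast] at hle
  have hpos : (0 : ℝ) < Fintype.card G := by exact_mod_cast Fintype.card_pos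
  have h3 : |(w.coeff 1 : ℝ)| ≤ 1 := by
    by_contra h
    nlinarith
  have h4 : (w.coeff 1 : ℝ) ≤ 1 := (abs_le.mp h3).2
  exact_mod_cast h4

/-- The anti-automorphism of the integral group ring induced by inversion. -/
noncomputable def antip (G : Type) [Group G] :
    MonoidAlgebra ℤ G →ₐ[ℤ] (MonoidAlgebra ℤ G)ᵐᵒᵖ :=
  MonoidAlgebra.lift ℤ _ G
    { toFun := fun g => MulOpposite.op (MonoidAlgebra.of ℤ G g⁻¹)
      map_one' := by simp [MonoidAlgebra.one_def]
      map_mul' := fun g h => by rw [mul_inv_rev, map_mul, MulOpposite.op_mul] }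

theorem antip_of {G : Type} [Group G] (g : G) :
    antip G (MonoidAlgebra.of ℤ G g) = MulOpposite.op (MonoidAlgebra.of ℤ G g⁻¹) := by
  rw [antip, MonoidAlgebra.lift_of]
  rfl

theorem central_unit_trivial {G : Type} [Group G] [Finite G] (N : ℕ) [NeZero N]
    (hN : ∀ g : G, g ^ N = 1)
    (hG : ∀ k : ℕ, k.Coprime N → (∀ g : G, IsConj g (g ^ k)) ∨ (∀ g : G, IsConj g⁻¹ (g ^ k)))
    (u : (MonoidAlgebra ℤ G)ˣ) :
    u ∈ Subgroup.center (MonoidAlgebra ℤ G)ˣ ↔
      ∃ z ∈ Subgroup.center G, (u : MonoidAlgebra ℤ G) = MonoidAlgebra.of ℤ G z ∨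
        (u : MonoidAlgebra ℤ G) = -MonoidAlgebra.of ℤ G z := by
  classical
  have := Fintype.ofFinite G
  constructor
  · intro hu
    have hc : ∀ g : G, (u : MonoidAlgebra ℤ G) * MonoidAlgebra.of ℤ G g =
        MonoidAlgebra.of ℤ G g * u := by
      intro g
      have := Subgroup.mem_center_iff.mp hu ((MonoidAlgebra.of ℤ G).toHomUnits g)
      have h2 := congrArg Units.val this
      simpa using h2.symm
    let a := (antip G u).unop
    let a' := (antip G (u⁻¹ : (MonoidAlgebra ℤ G)ˣ)).unop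
    have haa : a' * a = 1 := by
      simp only [a, a']
      rw [← MulOpposite.unop_mul, ← map_mul, Units.mul_inv, map_one, MulOpposite.unop_one]
    have hac : ∀ g : G, a * MonoidAlgebra.of ℤ G g = MonoidAlgebra.of ℤ G g * a := by
      intro g
      have := congrArg (fun t => (antip G t).unop) (hc g⁻¹)
      simp only [map_mul, antip_of, MulOpposite.unop_mul, MulOpposite.unop_op, inv_inv] at this
      exact this.symm
    have hle := coeff_one_le N hN hG (u * a) (a' * (u⁻¹ : (MonoidAlgebra ℤ G)ˣ))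
      (by rw [mul_assoc, ← mul_assoc _ (u : MonoidAlgebra ℤ G), Units.inv_mul, one_mul, haa])
      (fun g => by rw [mul_assoc, hac, ← mul_assoc, hc, mul_assoc])
    have ha : a = ∑ g, MonoidAlgebra.single g⁻¹ ((u : MonoidAlgebra ℤ G).coeff g) := by
      simp only [a, antip]
      rw [MonoidAlgebra.lift_apply, Finsupp.sum_fintype _ _ (by simp)]
      simp only [Finset.unop_sum, MonoidHom.coe_mk, OneHom.coe_mk, MulOpposite.unop_smul,
        MulOpposite.unop_op, MonoidAlgebra.of_apply, MonoidAlgebra.smul_single, smul_eq_mul,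
        mul_one]
    have hsq : ((u : MonoidAlgebra ℤ G) * a).coeff 1 =
        ∑ g, (u : MonoidAlgebra ℤ G).coeff g * (u : MonoidAlgebra ℤ G).coeff g := by
      rw [ha, Finset.mul_sum, MonoidAlgebra.coeff_sum, Finsupp.finsetSum_apply]
      refine Finset.sum_congr rfl (fun g _ => ?_)
      simp
    rw [hsq] at hle
    obtain ⟨z, hz⟩ : ∃ z, (u : MonoidAlgebra ℤ G).coeff z ≠ 0 := by
      by_contra h
      push Not at h
      apply u.ne_zero
      ext g
      simp [h g]
    rw [← Finset.add_sum_erase _ _ (Finset.mem_univ z)] at hle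
    have hnn : 0 ≤ ∑ g ∈ Finset.univ.erase z,
        (u : MonoidAlgebra ℤ G).coeff g * (u : MonoidAlgebra ℤ G).coeff g :=
      Finset.sum_nonneg (fun g _ => mul_self_nonneg _)
    have hpos : 0 < (u : MonoidAlgebra ℤ G).coeff z * (u : MonoidAlgebra ℤ G).coeff z :=
      mul_self_pos.mpr hz
    have h1 : (u : MonoidAlgebra ℤ G).coeff z * (u : MonoidAlgebra ℤ G).coeff z = 1 := by omega
    have h2 : ∀ g, g ≠ z → (u : MonoidAlgebra ℤ G).coeff g = 0 := by
      intro g hg
      have h3 : ∑ g ∈ Finset.univ.erase z,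
        (u : MonoidAlgebra ℤ G).coeff g * (u : MonoidAlgebra ℤ G).coeff g = 0 := by omega
      rw [Finset.sum_eq_zero_iff_of_nonneg (fun g _ => mul_self_nonneg _)] at h3
      exact mul_self_eq_zero.mp (h3 g (by simp [hg]))
    have h4 : (u : MonoidAlgebra ℤ G) =
        MonoidAlgebra.single z ((u : MonoidAlgebra ℤ G).coeff z) := by
      ext g
      by_cases hg : g = z
      · simp [hg]
      · simp [h2 g hg, Ne.symm hg]
    refine ⟨z, ?_, ?_⟩
    · rw [Subgroup.mem_center_iff]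
      intro g
      have h5 := hc g
      rw [h4] at h5
      simp only [MonoidAlgebra.of_apply, MonoidAlgebra.single_mul_single, mul_one, one_mul] at h5
      exact (MonoidAlgebra.single_left_injective hz h5).symm
    · rcases Int.eq_one_or_neg_one_of_mul_eq_one h1 with h5 | h5
      · left; rw [h4, h5]; rfl
      · right; rw [h4, h5]; simp
  · rintro ⟨z, hz, h⟩
    have hcz : ∀ x : MonoidAlgebra ℤ G,
        x * MonoidAlgebra.of ℤ G z = MonoidAlgebra.of ℤ G z * x := by
      intro x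
      induction x using MonoidAlgebra.induction_linear with
      | zero => simp
      | add x y hx hy => rw [add_mul, mul_add, hx, hy]
      | single g r =>
        simp [MonoidAlgebra.single_mul_single, Subgroup.mem_center_iff.mp hz g]
    rw [Subgroup.mem_center_iff]
    intro v
    ext1
    rcases h with h | h
    · simp only [Units.val_mul, h, hcz]
    · simp only [Units.val_mul, h, mul_neg, neg_mul, hcz]

end Pool.Agent.P.MP_ac4bd0_al
end

-- part Pool.Agent.P.MP_ac4bd0_al.Wreath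
section

set_option autoImplicit false
set_option linter.unusedSectionVars false

namespace Pool.Agent.P.MP_ac4bd0_al

/-- Every element is conjugate to its `k`-th power. -/
def PowConj (k : ℕ) (G : Type) [Group G] : Prop := ∀ g : G, IsConj g (g ^ k)

/-- Permutational wreath product of `A` with `S` acting on `Ω`. -/
@[ext]
structure Wr (S Ω A : Type) where
  s : S
  f : Ω → A

namespace Wr

variable {S Ω A : Type} [Group S] [MulAction S Ω] [Group A]

instance : Mul (Wr S Ω A) := ⟨fun X Y => ⟨X.s * Y.s, fun x => X.f (Y.s • x) * Y.f x⟩⟩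
instance : One (Wr S Ω A) := ⟨⟨1, fun _ => 1⟩⟩
instance : Inv (Wr S Ω A) := ⟨fun X => ⟨X.s⁻¹, fun x => (X.f (X.s⁻¹ • x))⁻¹⟩⟩

@[simp] theorem mul_s (X Y : Wr S Ω A) : (X * Y).s = X.s * Y.s := rfl
@[simp] theorem mul_f (X Y : Wr S Ω A) (x : Ω) : (X * Y).f x = X.f (Y.s • x) * Y.f x := rfl
@[simp] theorem one_s : (1 : Wr S Ω A).s = 1 := rfl
@[simp] theorem one_f (x : Ω) : (1 : Wr S Ω A).f x = 1 := rfl
@[simp] theorem inv_s (X : Wr S Ω A) : (X⁻¹).s = X.s⁻¹ := rfl
@[simp] theorem inv_f (X : Wr S Ω A) (x : Ω) : (X⁻¹).f x = (X.f (X.s⁻¹ • x))⁻¹ := rfl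

instance : Group (Wr S Ω A) :=
  Group.ofLeftAxioms
    (fun X Y Z => by ext <;> simp [mul_assoc, mul_smul])
    (fun X => by ext <;> simp)
    (fun X => by ext <;> simp)

instance [Finite S] [Finite Ω] [Finite A] : Finite (Wr S Ω A) :=
  Finite.of_injective (fun X : Wr S Ω A => (X.s, X.f)) (fun X Y h => by
    simp only [Prod.mk.injEq] at h
    exact Wr.ext h.1 h.2)

/-- Projection to the top group. -/
def top : Wr S Ω A →* S where
  toFun X := X.s
  map_one' := rfl
  map_mul' _ _ := rfl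

/-- Inclusion of the base group. -/
def base : (Ω → A) →* Wr S Ω A where
  toFun f := ⟨1, f⟩
  map_one' := rfl
  map_mul' f g := by ext <;> simp

theorem zpow_s (X : Wr S Ω A) (j : ℤ) : (X ^ j).s = X.s ^ j := map_zpow top X j

theorem pow_s (X : Wr S Ω A) (j : ℕ) : (X ^ j).s = X.s ^ j := map_pow top X j

theorem pow_f_of_fixed (X : Wr S Ω A) (x : Ω) (hx : X.s • x = x) (n : ℕ) :
    (X ^ n).f x = (X.f x) ^ n := by
  induction n with
  | zero => simp
  | succ n ih => rw [pow_succ, mul_f, hx, ih, pow_succ]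

theorem zpow_f_of_fixed (X : Wr S Ω A) (x : Ω) (hx : X.s • x = x) (n : ℤ) :
    (X ^ n).f x = (X.f x) ^ n := by
  rcases n with n | n
  · simpa using pow_f_of_fixed X x hx n
  · have hx' : (X⁻¹).s • x = x := by
      rw [inv_s, inv_smul_eq_iff, hx]
    rw [zpow_negSucc, ← inv_pow, pow_f_of_fixed _ x hx', zpow_negSucc, ← inv_pow, inv_f]
    congr 2
    rw [inv_s] at hx'
    rw [hx']

theorem isConj_of_cycles (X Y : Wr S Ω A) (hs : Y.s = X.s)
    (h : ∀ x : Ω, ∃ d : A, ∀ j : ℤ, X.s ^ j • x = x → d * (X ^ j).f x = (Y ^ j).f x * d) :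
    IsConj X Y := by
  classical
  choose d hd using h
  let R := MulAction.orbitRel (Subgroup.zpowers X.s) Ω
  let r : Ω → Ω := fun y => (Quotient.mk R y).out
  have hr : ∀ y, ∃ j : ℤ, X.s ^ j • r y = y := by
    intro y
    have : R (r y) y := Quotient.mk_out (s := R) y
    have h2 : y ∈ MulAction.orbit (Subgroup.zpowers X.s) (r y) :=
      MulAction.orbitRel_apply.mp (R.symm this)
    obtain ⟨⟨g, j, rfl⟩, hg⟩ := h2
    exact ⟨j, hg⟩
  have hr2 : ∀ y, r (X.s • y) = r y := by
    intro y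
    have : R (X.s • y) y :=
      MulAction.orbitRel_apply.mpr ⟨⟨X.s, Subgroup.mem_zpowers _⟩, rfl⟩
    simp only [r]
    rw [Quotient.sound this]
  choose J hJ using hr
  let b : Ω → A := fun y => (Y ^ J y).f (r y) * d (r y) * ((X ^ J y).f (r y))⁻¹
  have hb : ∀ y (j : ℤ), X.s ^ j • r y = y →
      b y = (Y ^ j).f (r y) * d (r y) * ((X ^ j).f (r y))⁻¹ := by
    intro y j hj
    have hfix : X.s ^ (J y - j) • r y = r y := by
      rw [sub_eq_neg_add, zpow_add, mul_smul, hJ, zpow_neg, inv_smul_eq_iff, hj]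
    have h1 := hd (r y) _ hfix
    have hX : (X ^ J y).f (r y) = (X ^ j).f (r y) * (X ^ (J y - j)).f (r y) := by
      have : X ^ J y = X ^ j * X ^ (J y - j) := by rw [← zpow_add]; congr 1; ring
      rw [this, mul_f, zpow_s, hfix]
    have hY : (Y ^ J y).f (r y) = (Y ^ j).f (r y) * (Y ^ (J y - j)).f (r y) := by
      have : Y ^ J y = Y ^ j * Y ^ (J y - j) := by rw [← zpow_add]; congr 1; ring
      rw [this, mul_f, zpow_s, hs, hfix]
    simp only [b]
    rw [hX, hY, mul_assoc ((Y ^ j).f (r y)), ← h1]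
    group
  rw [isConj_iff]
  refine ⟨base b, ?_⟩
  rw [mul_inv_eq_iff_eq_mul]
  ext y
  · simp [base, hs]
  · have h1 : X.s ^ (1 + J y) • r (X.s • y) = X.s • y := by
      rw [hr2, zpow_add, zpow_one, mul_smul, hJ]
    have h2 := hb _ _ h1
    rw [hr2, zpow_add, zpow_add, zpow_one, zpow_one, mul_f, mul_f, zpow_s, zpow_s, hs, hJ] at h2
    simp only [base, MonoidHom.coe_mk, OneHom.coe_mk, mul_f, one_smul]
    rw [h2]
    simp only [b]
    group

theorem powConj (k : ℕ) (hA : PowConj k A)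
    (hS : ∀ h : S, ∃ u : S, u * h ^ k * u⁻¹ = h ∧ ∀ x : Ω, ∃ i : ℤ, u⁻¹ • x = h ^ i • x) :
    PowConj k (Wr S Ω A) := by
  intro X
  obtain ⟨u, hu, hux⟩ := hS X.s
  let U : Wr S Ω A := ⟨u, fun _ => 1⟩
  have h1 : IsConj X (U * X ^ k * U⁻¹) := by
    apply isConj_of_cycles
    · simp [U, pow_s, hu]
    · intro x
      obtain ⟨i, hi⟩ := hux x
      let H : AddSubgroup ℤ :=
        { carrier := {j | X.s ^ j • x = x}
          zero_mem' := by simp
          add_mem' := by
            intro a b ha hb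
            simp only [Set.mem_ofPred_eq] at ha hb ⊢
            rw [zpow_add, mul_smul, hb, ha]
          neg_mem' := by
            intro a ha
            simp only [Set.mem_ofPred_eq] at ha ⊢
            rw [zpow_neg, inv_smul_eq_iff, ha] }
      obtain ⟨l, hl⟩ := Int.subgroup_cyclic H
      have hlH : X.s ^ l • x = x := by
        have : l ∈ H := by rw [hl]; exact AddSubgroup.subset_closure rfl
        exact this
      obtain ⟨d, hd⟩ := isConj_iff.mp (hA ((X ^ l).f x))
      refine ⟨(X ^ i).f x * d, ?_⟩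
      intro j hj
      have hjH : j ∈ H := hj
      rw [hl, AddSubgroup.mem_closure_singleton] at hjH
      obtain ⟨n, rfl⟩ := hjH
      have hfix : (X ^ l).s • x = x := by rw [zpow_s, hlH]
      have e1 : (X ^ (n • l)).f x = ((X ^ l).f x) ^ n := by
        rw [smul_eq_mul, mul_comm, zpow_mul, zpow_f_of_fixed _ _ hfix]
      have hfix2 : (X ^ (n • l)).s • (X.s ^ i • x) = X.s ^ i • x := by
        rw [zpow_s, ← mul_smul, ← zpow_add, add_comm, zpow_add, mul_smul, hj]
      have e2 : ((U * X ^ k * U⁻¹) ^ (n • l)).f x = ((X ^ (n • l)).f (X.s ^ i • x)) ^ k := by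
        rw [conj_zpow, ← zpow_natCast, ← zpow_mul, mul_comm (k : ℤ), zpow_mul, zpow_natCast,
          ← pow_f_of_fixed _ _ hfix2]
        simp [U, hi]
      have e3 : (X ^ (n • l)).f (X.s ^ i • x) * (X ^ i).f x = (X ^ i).f x * (X ^ (n • l)).f x := by
        have : X ^ (n • l) * X ^ i = X ^ i * X ^ (n • l) := by
          rw [← zpow_add, ← zpow_add, add_comm]
        have h2 := congrArg (fun Z : Wr S Ω A => Z.f x) this
        simp only [mul_f, zpow_s] at h2
        rw [hj] at h2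
        exact h2
      have e4 : (X ^ (n • l)).f (X.s ^ i • x) =
          (X ^ i).f x * ((X ^ l).f x) ^ n * ((X ^ i).f x)⁻¹ := by
        rw [← e1, ← e3]; group
      rw [e2, e4, e1, conj_pow]
      have e5 : (((X ^ l).f x) ^ n) ^ k = d * ((X ^ l).f x) ^ n * d⁻¹ := by
        rw [← conj_zpow, hd, ← zpow_natCast, ← zpow_natCast, ← zpow_mul, ← zpow_mul, mul_comm]
      rw [e5]
      group
  exact h1.trans (isConj_iff.mpr ⟨U⁻¹, by group⟩)

end Wr

theorem solvable_pi (Ω A : Type) [Group A] [hA : Group.IsSolvable A] :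
    Group.IsSolvable (Ω → A) := by
  obtain ⟨n, hn⟩ := hA
  refine ⟨⟨n, ?_⟩⟩
  rw [eq_bot_iff]
  intro f hf
  rw [Subgroup.mem_bot]
  funext x
  have := map_derivedSeries_le_derivedSeries (Pi.evalMonoidHom (fun _ : Ω => A) x) n
    (Subgroup.mem_map_of_mem _ hf)
  rw [hn, Subgroup.mem_bot] at this
  exact this

theorem powConj_pi (k : ℕ) (Ω A : Type) [Group A] (hA : PowConj k A) : PowConj k (Ω → A) := by
  intro g
  choose d hd using fun x => isConj_iff.mp (hA (g x))
  exact isConj_iff.mpr ⟨d, funext hd⟩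

theorem Wr.solvable (S Ω A : Type) [Group S] [MulAction S Ω] [Group A] [Group.IsSolvable S]
    [Group.IsSolvable A] : Group.IsSolvable (Wr S Ω A) := by
  have := solvable_pi Ω A
  refine Group.isSolvable_of_ker_le_range (Wr.base (S := S) (Ω := Ω) (A := A)) Wr.top ?_
  intro X hX
  refine ⟨X.f, ?_⟩
  have : X.s = 1 := hX
  ext <;> simp [Wr.base, this]

/-- The affine group of the line over `ZMod p`. -/
@[ext]
structure Aff (p : ℕ) where
  a : (ZMod p)ˣ
  b : ZMod p

namespace Aff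

variable {p : ℕ}

instance : Mul (Aff p) := ⟨fun X Y => ⟨X.a * Y.a, X.a * Y.b + X.b⟩⟩
instance : One (Aff p) := ⟨⟨1, 0⟩⟩
instance : Inv (Aff p) := ⟨fun X => ⟨X.a⁻¹, -(X.a⁻¹ * X.b)⟩⟩

@[simp] theorem mul_a (X Y : Aff p) : (X * Y).a = X.a * Y.a := rfl
@[simp] theorem mul_b (X Y : Aff p) : (X * Y).b = X.a * Y.b + X.b := rfl
@[simp] theorem one_a : (1 : Aff p).a = 1 := rfl
@[simp] theorem one_b : (1 : Aff p).b = 0 := rfl
@[simp] theorem inv_a (X : Aff p) : (X⁻¹).a = X.a⁻¹ := rfl
@[simp] theorem inv_b (X : Aff p) : (X⁻¹).b = -(X.a⁻¹ * X.b) := rfl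

instance : Group (Aff p) :=
  Group.ofLeftAxioms
    (fun X Y Z => by ext <;> simp [mul_assoc, mul_add, add_assoc])
    (fun X => by ext <;> simp)
    (fun X => by ext <;> simp)

instance [NeZero p] : Finite (Aff p) :=
  Finite.of_injective (fun X : Aff p => (X.a, X.b)) (fun X Y h => by
    simp only [Prod.mk.injEq] at h
    exact Aff.ext h.1 h.2)

instance : MulAction (Aff p) (ZMod p) where
  smul X x := X.a * x + X.b
  one_smul x := by
    show ((1 : Aff p).a : ZMod p) * x + (1 : Aff p).b = x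
    simp
  mul_smul X Y x := by
    show ((X * Y).a : ZMod p) * x + (X * Y).b = X.a * (Y.a * x + Y.b) + X.b
    simp only [mul_a, mul_b, Units.val_mul]
    ring

theorem smul_def (X : Aff p) (x : ZMod p) : X • x = X.a * x + X.b := rfl

/-- The linear part. -/
def lin : Aff p →* (ZMod p)ˣ where
  toFun X := X.a
  map_one' := rfl
  map_mul' _ _ := rfl

/-- Translations. -/
def tr : Multiplicative (ZMod p) →* Aff p where
  toFun t := ⟨1, t.toAdd⟩
  map_one' := rfl
  map_mul' s t := by ext <;> simp [add_comm]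

theorem solvable : Group.IsSolvable (Aff p) := by
  refine Group.isSolvable_of_ker_le_range tr lin ?_
  intro X hX
  refine ⟨Multiplicative.ofAdd X.b, ?_⟩
  have : X.a = 1 := hX
  ext <;> simp [tr, this]

theorem pow_b (X : Aff p) (n : ℕ) :
    ((X.a : ZMod p) - 1) * (X ^ n).b = ((X.a : ZMod p) ^ n - 1) * X.b := by
  induction n with
  | zero => simp
  | succ n ih =>
    rw [pow_succ', mul_b, mul_add, ← mul_assoc, mul_comm _ (X.a : ZMod p), mul_assoc, ih]
    ring

theorem cyc [hp : Fact p.Prime] (k : ℕ) (hk : Nat.Coprime k p) (hk1 : k ≡ 1 [MOD (p - 1)])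
    (h : Aff p) :
    ∃ u : Aff p, u * h ^ k * u⁻¹ = h ∧ ∀ x : ZMod p, ∃ i : ℤ, u⁻¹ • x = h ^ i • x := by
  by_cases ha : h.a = 1
  · by_cases hb : h.b = 0
    · have : h = 1 := Aff.ext ha hb
      exact ⟨1, by simp [this], fun x => ⟨0, by simp⟩⟩
    · have hh : h = tr (Multiplicative.ofAdd h.b) := Aff.ext ha rfl
      refine ⟨⟨(ZMod.unitOfCoprime k hk)⁻¹, 0⟩, ?_, ?_⟩
      · rw [hh, ← map_pow]
        ext
        · simp [tr]
        · simp only [tr, MonoidHom.coe_mk, OneHom.coe_mk, mul_b, mul_a, inv_b, mul_zero, neg_zero,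
            add_zero, zero_add, toAdd_pow, toAdd_ofAdd, nsmul_eq_mul]
          rw [← ZMod.coe_unitOfCoprime k hk, Units.inv_mul_cancel_left]
      · intro x
        set y := (⟨(ZMod.unitOfCoprime k hk)⁻¹, 0⟩ : Aff p)⁻¹ • x
        refine ⟨(((y - x) / h.b).val : ℕ), ?_⟩
        rw [zpow_natCast]
        generalize hn : ((y - x) / h.b).val = n
        have hn' : (n : ZMod p) = (y - x) / h.b := by rw [← hn, ZMod.natCast_zmod_val]
        rw [hh, ← map_pow, smul_def]
        simp only [tr, MonoidHom.coe_mk, OneHom.coe_mk, Units.val_one, one_mul,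
          toAdd_pow, toAdd_ofAdd, nsmul_eq_mul]
        rw [hn']
        field_simp
        ring
  · refine ⟨1, ?_, fun x => ⟨0, by simp⟩⟩
    have h1 : h.a ^ k = h.a := by
      have h2 : h.a ^ (p - 1) = 1 := ZMod.units_pow_card_sub_one_eq_one p h.a
      have := pow_eq_pow_of_modEq hk1 h2
      simpa using this
    have h3 : (h.a : ZMod p) - 1 ≠ 0 := fun h4 => ha (Units.ext (sub_eq_zero.mp h4))
    simp only [one_mul, inv_one, mul_one]
    ext
    · rw [show (h ^ k).a = h.a ^ k from map_pow lin h k, h1]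
    · apply mul_left_cancel₀ h3
      rw [pow_b, ← Units.val_pow_eq_pow_val, h1]

end Aff

/-- Kaloujnine-Krasner type embedding. -/
theorem embed_wr {H A : Type} [Group H] [Group A] {p : ℕ}
    (φ : H →* Multiplicative (ZMod p)) (hφ : Function.Surjective φ)
    (ι : φ.ker →* A) (hι : Function.Injective ι) :
    ∃ F : H →* Wr (Aff p) (ZMod p) A, Function.Injective F := by
  choose σ hσ using fun x : ZMod p => hφ (Multiplicative.ofAdd x)
  have hmem : ∀ (g : H) (x : ZMod p), (σ (Aff.tr (φ g) • x))⁻¹ * g * σ x ∈ φ.ker := by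
    intro g x
    rw [MonoidHom.mem_ker, map_mul, map_mul, map_inv, hσ, hσ, Aff.smul_def]
    simp only [Aff.tr, MonoidHom.coe_mk, OneHom.coe_mk, Units.val_one, one_mul, ofAdd_add,
      ofAdd_toAdd]
    rw [mul_assoc, mul_comm (φ g), inv_mul_cancel]
  refine ⟨MonoidHom.mk' (fun g => ⟨Aff.tr (φ g), fun x => ι ⟨_, hmem g x⟩⟩) ?_, ?_⟩
  · intro g h
    refine Wr.ext (by simp) ?_
    funext x
    simp only [Wr.mul_f]
    rw [← map_mul]
    congr 1
    apply Subtype.ext
    simp only [map_mul, mul_smul, Subgroup.coe_mul]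
    group
  · rw [injective_iff_map_eq_one]
    intro g hg
    have h1 : Aff.tr (φ g) = 1 := congrArg Wr.s hg
    have h2 : ι ⟨_, hmem g 0⟩ = 1 := congrFun (congrArg Wr.f hg) 0
    have h3 := congrArg Subtype.val ((injective_iff_map_eq_one ι).mp hι _ h2)
    simp only [h1, one_smul, Subgroup.coe_one] at h3
    calc g = σ 0 * ((σ 0)⁻¹ * g * σ 0) * (σ 0)⁻¹ := by group
      _ = 1 := by rw [h3]; group

end Pool.Agent.P.MP_ac4bd0_al
end
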