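import Pool.Agent.K.MP_ac4bd0_al.C0

set_option autoImplicit false

namespace Pool.Agent.P.MP_ac4bd0_al

/-- The quaternion group acting on the plane over the field with five elements. -/
def qact : QuaternionGroup 2 → ZMod 5 × ZMod 5 → ZMod 5 × ZMod 5
  | .a i, v => (2 ^ i.val * v.1, 3 ^ i.val * v.2)
  | .xa i, v => (-(3 ^ i.val * v.2), 2 ^ i.val * v.1)

theorem qact_add (q : QuaternionGroup 2) (v w : ZMod 5 × ZMod 5) :
    qact q (v + w) = qact q v + qact q w := by
  cases q <;> ext <;> simp only [qact, Prod.fst_add, Prod.snd_add] <;> ring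

theorem qact_mul : ∀ (q r : QuaternionGroup 2) (v : ZMod 5 × ZMod 5),
    qact (q * r) v = qact q (qact r v) := by
  decide +kernel

theorem qact_one : ∀ v : ZMod 5 × ZMod 5, qact 1 v = v := by
  decide +kernel

/-- The Frobenius group of order 200 with quaternion complement. -/
@[ext]
structure F200 where
  v : ZMod 5 × ZMod 5
  q : QuaternionGroup 2
  deriving DecidableEq

namespace F200

instance : Mul F200 := ⟨fun X Y => ⟨qact X.q Y.v + X.v, X.q * Y.q⟩⟩
instance : One F200 := ⟨⟨0, 1⟩⟩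
instance : Inv F200 := ⟨fun X => ⟨-qact X.q⁻¹ X.v, X.q⁻¹⟩⟩

@[simp] theorem mul_v (X Y : F200) : (X * Y).v = qact X.q Y.v + X.v := rfl
@[simp] theorem mul_q (X Y : F200) : (X * Y).q = X.q * Y.q := rfl
@[simp] theorem one_v : (1 : F200).v = 0 := rfl
@[simp] theorem one_q : (1 : F200).q = 1 := rfl
@[simp] theorem inv_v (X : F200) : (X⁻¹).v = -qact X.q⁻¹ X.v := rfl
@[simp] theorem inv_q (X : F200) : (X⁻¹).q = X.q⁻¹ := rfl

instance : Group F200 :=
  Group.ofLeftAxioms
    (fun X Y Z => F200.ext (by simp [qact_add, qact_mul, add_assoc]) (by simp [mul_assoc]))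
    (fun X => F200.ext (by simp [qact_one]) (by simp))
    (fun X => F200.ext (by simp) (by simp))

instance : Finite F200 :=
  Finite.of_injective (fun X : F200 => (X.v, X.q)) (fun X Y h => by
    simp only [Prod.mk.injEq] at h
    exact F200.ext h.1 h.2)

/-- The projection to the complement. -/
def lin : F200 →* QuaternionGroup 2 where
  toFun X := X.q
  map_one' := rfl
  map_mul' _ _ := rfl

/-- Translations. -/
def tr : Multiplicative (ZMod 5 × ZMod 5) →* F200 where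
  toFun t := ⟨t.toAdd, 1⟩
  map_one' := rfl
  map_mul' s t := F200.ext (by simp [qact_one, add_comm]) (by simp)

theorem solvable : Group.IsSolvable F200 := by
  have : Fact (Nat.Prime 2) := ⟨Nat.prime_two⟩
  have h8 : IsPGroup 2 (QuaternionGroup 2) :=
    IsPGroup.of_card (n := 3) (by rw [Nat.card_eq_fintype_card, QuaternionGroup.card]; norm_num)
  have := h8.isNilpotent
  refine Group.isSolvable_of_ker_le_range tr lin ?_
  intro X hX
  refine ⟨Multiplicative.ofAdd X.v, ?_⟩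
  have : X.q = 1 := hX
  exact F200.ext rfl this.symm

theorem pow_twenty : ∀ (v : ZMod 5 × ZMod 5) (q : QuaternionGroup 2),
    (⟨v, q⟩ : F200) ^ 20 = 1 := by
  decide +kernel

theorem conj_three : ∀ (v : ZMod 5 × ZMod 5) (q : QuaternionGroup 2),
    ∃ (r : QuaternionGroup 2) (w : ZMod 5 × ZMod 5),
      (⟨w, r⟩ : F200) * ⟨v, q⟩ = ⟨v, q⟩ * ⟨v, q⟩ * ⟨v, q⟩ * ⟨w, r⟩ := by
  decide +kernel

theorem conj_inv : ∀ (v : ZMod 5 × ZMod 5) (q : QuaternionGroup 2),
    ∃ (r : QuaternionGroup 2) (w : ZMod 5 × ZMod 5),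
      (⟨v, q⟩ : F200) * (⟨w, r⟩ * ⟨v, q⟩) = ⟨w, r⟩ := by
  decide +kernel

theorem powConj (k : ℕ) (hk : k.Coprime 210) : PowConj k F200 := by
  have h20 : ∀ g : F200, g ^ 20 = 1 := fun g => pow_twenty g.v g.q
  have h3 : ∀ g : F200, IsConj g (g ^ 3) := by
    intro g
    obtain ⟨r, w, h⟩ := conj_three g.v g.q
    refine isConj_iff.mpr ⟨⟨w, r⟩, ?_⟩
    rw [mul_inv_eq_iff_eq_mul, pow_three']
    exact h
  have h19 : ∀ g : F200, IsConj g (g ^ 19) := by
    intro g
    obtain ⟨r, w, h⟩ := conj_inv g.v g.q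
    refine isConj_iff.mpr ⟨⟨w, r⟩, ?_⟩
    have h1 : g ^ 19 = g⁻¹ := by
      rw [eq_inv_iff_mul_eq_one, ← pow_succ, h20]
    rw [mul_inv_eq_iff_eq_mul, h1, eq_inv_mul_iff_mul_eq]
    exact h
  have hmul : ∀ a b : ℕ, PowConj a F200 → PowConj b F200 → PowConj (a * b) F200 := by
    intro a b ha hb g
    rw [pow_mul]
    exact (ha g).trans (hb _)
  have hmod : ∀ a b : ℕ, a % 20 = b % 20 → PowConj a F200 → PowConj b F200 := by
    intro a b hab ha g
    rw [← pow_eq_pow_of_modEq hab (h20 g)]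
    exact ha g
  have h9 := hmul 3 3 h3 h3
  have h27 := hmul _ 3 h9 h3
  have h2 : ¬ 2 ∣ k := fun h => by
    have := Nat.Coprime.eq_one_of_dvd (Nat.Coprime.coprime_dvd_left h hk) (by norm_num)
    omega
  have h5 : ¬ 5 ∣ k := fun h => by
    have := Nat.Coprime.eq_one_of_dvd (Nat.Coprime.coprime_dvd_left h hk) (by norm_num)
    omega
  have hcases : k % 20 = 1 ∨ k % 20 = 3 ∨ k % 20 = 7 ∨ k % 20 = 9 ∨ k % 20 = 11 ∨ k % 20 = 13 ∨
      k % 20 = 17 ∨ k % 20 = 19 := by omega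
  rcases hcases with h | h | h | h | h | h | h | h
  · exact hmod _ k (by rw [h]) (hmul _ 3 h27 h3)
  · exact hmod 3 k (by rw [h]) h3
  · exact hmod _ k (by rw [h]) h27
  · exact hmod _ k (by rw [h]) h9
  · exact hmod _ k (by rw [h]) (hmul _ 19 h9 h19)
  · exact hmod _ k (by rw [h]) (hmul _ 19 h27 h19)
  · exact hmod _ k (by rw [h]) (hmul _ 19 h3 h19)
  · exact hmod 19 k (by rw [h]) h19

end F200

end Pool.Agent.P.MP_ac4bd0_al
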