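import Pool.Agent.K.MP_ac4bd0_al.C0
import Mathlib

-- part Pool.Agent.P.MP_ac4bd0_al.No.CutA
section

set_option autoImplicit false

open Polynomial Module

namespace Pool.Agent.P.MP_ac4bd0_al

/-- A rational matrix of finite order has the same trace as its coprime powers. -/
theorem trace_pow_coprime {ι : Type} [Fintype ι] [DecidableEq ι] (M : Matrix ι ι ℚ) (N : ℕ)
    [NeZero N] (hM : M ^ N = 1) (j : ℕ) (hj : j.Coprime N) : (M ^ j).trace = M.trace := by
  obtain ⟨ζ, hζ⟩ : ∃ ζ : ℂ, IsPrimitiveRoot ζ N :=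
    ⟨_, Complex.isPrimitiveRoot_exp N (NeZero.ne N)⟩
  let Φ : Matrix ι ι ℚ →+* End ℂ (ι → ℂ) :=
    (Matrix.toLinAlgEquiv' (R := ℂ) (n := ι)).toRingEquiv.toRingHom.comp
      (algebraMap ℚ ℂ).mapMatrix
  have htr : ∀ X : Matrix ι ι ℚ, LinearMap.trace ℂ (ι → ℂ) (Φ X) = (X.trace : ℂ) := by
    intro X
    have : Φ X = Matrix.toLin' (X.map (algebraMap ℚ ℂ)) := rfl
    rw [this, Matrix.trace_toLin'_eq]
    simp [Matrix.trace]
  obtain ⟨P, hP⟩ := trace_pow_formula (Φ M) N (by rw [← map_pow, hM, map_one]) ζ hζ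
  have h1 := hP 1
  have h2 := hP j
  rw [← map_pow, htr] at h1 h2
  rw [pow_one, pow_one] at h1
  let Q : ℚ[X] := P.map (algebraMap ℤ ℚ) - C M.trace
  have hQ : ∀ x : ℂ, aeval x Q = aeval x P - (M.trace : ℂ) := by
    intro x
    simp only [Q, map_sub, aeval_map_algebraMap, aeval_C, eq_ratCast]
  have h3 : minpoly ℚ ζ ∣ Q := minpoly.dvd ℚ ζ (by rw [hQ, ← h1, sub_self])
  have hζj : IsPrimitiveRoot (ζ ^ j) N := hζ.pow_of_coprime j hj
  rw [← cyclotomic_eq_minpoly_rat hζ (NeZero.pos N),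
    cyclotomic_eq_minpoly_rat hζj (NeZero.pos N)] at h3
  obtain ⟨R, hR⟩ := h3
  have h4 : aeval (ζ ^ j) Q = 0 := by rw [hR, map_mul, minpoly.aeval, zero_mul]
  rw [hQ, ← h2, sub_eq_zero] at h4
  exact_mod_cast h4

/-- The left regular representation of the rational group algebra by matrices. -/
noncomputable def regM (G : Type) [Group G] [Fintype G] [DecidableEq G] :
    MonoidAlgebra ℚ G →ₐ[ℚ] Matrix G G ℚ :=
  MonoidAlgebra.lift ℚ _ G
    { toFun := fun g => Matrix.of fun x y => if x * y⁻¹ = g then 1 else 0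
      map_one' := by
        ext x y
        simp [Matrix.one_apply, mul_inv_eq_one]
      map_mul' := fun g h => by
        ext x y
        simp only [Matrix.of_apply, Matrix.mul_apply]
        rw [Finset.sum_eq_single (g⁻¹ * x)]
        · simp only [mul_inv_rev, inv_inv, mul_inv_cancel_left, if_true, one_mul]
          congr 1
          rw [mul_assoc, inv_mul_eq_iff_eq_mul]
        · intro b _ hb
          rw [if_neg, zero_mul]
          rintro rfl
          simp at hb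
        · simp }

theorem regM_apply {G : Type} [Group G] [Fintype G] [DecidableEq G] (u : MonoidAlgebra ℚ G)
    (x y : G) : regM G u x y = u.coeff (x * y⁻¹) := by
  rw [regM, MonoidAlgebra.lift_apply, Finsupp.sum_fintype _ _ (by simp), Matrix.sum_apply]
  simp

theorem regM_injective {G : Type} [Group G] [Fintype G] [DecidableEq G] :
    Function.Injective (regM G) := by
  intro u v h
  ext x
  have := congrFun (congrFun h x) 1
  simpa [regM_apply] using this

theorem trace_regM {G : Type} [Group G] [Fintype G] [DecidableEq G] (u : MonoidAlgebra ℚ G) :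
    (regM G u).trace = Fintype.card G * u.coeff 1 := by
  simp [Matrix.trace, regM_apply]

/-- The coefficients of a central idempotent are constant on rational classes. -/
theorem idem_coeff_pow {G : Type} [Group G] [Finite G] (e : MonoidAlgebra ℚ G) (he : e * e = e)
    (hc : ∀ u, u * e = e * u) (y : G) (j : ℕ) (hj : j.Coprime (Nat.card G)) :
    e.coeff (y ^ j) = e.coeff y := by
  classical
  have := Fintype.ofFinite G
  let a : MonoidAlgebra ℚ G := MonoidAlgebra.of ℚ G y⁻¹ * e + (1 - e)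
  have ha : ∀ k : ℕ, a ^ k = MonoidAlgebra.of ℚ G (y⁻¹ ^ k) * e + (1 - e) := by
    intro k
    induction k with
    | zero => simp [← MonoidAlgebra.one_def]
    | succ k ih =>
      rw [pow_succ, ih, pow_succ, map_mul]
      have h1 : ∀ t, e * (t * e) = t * e := fun t => by rw [← mul_assoc, ← hc, mul_assoc, he]
      simp only [a, add_mul, mul_add, sub_mul, mul_sub, one_mul, mul_one, mul_assoc, h1, he]
      abel
  have hcoef : ∀ k : ℕ, (a ^ k).coeff 1 = e.coeff (y ^ k) + (1 - e).coeff 1 := by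
    intro k
    rw [ha]
    simp
  have : NeZero (Nat.card G) := ⟨Nat.card_pos.ne'⟩
  have h := trace_pow_coprime (regM G a) (Nat.card G)
    (by rw [← map_pow, ha, pow_card_eq_one', map_one]; simp) j hj
  have h1 := hcoef 1
  rw [pow_one, pow_one] at h1
  rw [← map_pow, trace_regM, trace_regM, hcoef, h1] at h
  have h0 : (Fintype.card G : ℚ) ≠ 0 := by exact_mod_cast Fintype.card_pos.ne'
  have := mul_left_cancel₀ h0 h
  linarith

/-- A complex root of the characteristic polynomial of a symmetric rational matrix is real. -/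
theorem real_of_root {ι : Type} [Fintype ι] [DecidableEq ι] (M : Matrix ι ι ℚ)
    (hM : M.transpose = M) (μ : ℂ) (h : aeval μ M.charpoly = 0) : (starRingEnd ℂ) μ = μ := by
  let M' : Matrix ι ι ℂ := M.map (algebraMap ℚ ℂ)
  have hH : M'.IsHermitian := by
    ext x y
    have := congrFun (congrFun hM x) y
    simp only [Matrix.transpose_apply] at this
    simp [M', Matrix.conjTranspose_apply, this]
  have h1 : M'.charpoly.IsRoot μ := by
    rw [Matrix.charpoly_map, IsRoot, eval_map_algebraMap, h]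
  have h2 : μ ∈ M'.charpoly.roots := (mem_roots M'.charpoly_monic.ne_zero).mpr h1
  rw [hH.roots_charpoly_eq_eigenvalues] at h2
  obtain ⟨i, -, rfl⟩ := Multiset.mem_map.mp h2
  simp

end Pool.Agent.P.MP_ac4bd0_al
end

-- part Pool.Agent.P.MP_ac4bd0_al.No.CutB
section

set_option autoImplicit false

open Polynomial Module

namespace Pool.Agent.P.MP_ac4bd0_al

/-- A unit which is integral together with its inverse has a power in any order. -/
theorem pow_mem_order {B : Type} [CommRing B] (O : Subring B)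
    (hO : ∀ b : B, ∃ N : ℕ, 0 < N ∧ (N : B) * b ∈ O) (u : Bˣ) (h1 : IsIntegral ℤ (u : B))
    (h2 : IsIntegral ℤ ((u⁻¹ : Bˣ) : B)) :
    ∃ m : ℕ, 0 < m ∧ ((u ^ m : Bˣ) : B) ∈ O ∧ (((u ^ m)⁻¹ : Bˣ) : B) ∈ O := by
  classical
  let S : Subalgebra ℤ B := Algebra.adjoin ℤ {(u : B), ((u⁻¹ : Bˣ) : B)}
  have hfg : (Subalgebra.toSubmodule S).FG :=
    fg_adjoin_of_finite (Set.toFinite _) (by
      rintro x (rfl | rfl)
      · exact h1
      · exact h2)
  obtain ⟨N, hN, hNS⟩ : ∃ N : ℕ, 0 < N ∧ ∀ s ∈ S, (N : B) * s ∈ O := by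
    obtain ⟨t, ht⟩ := hfg
    choose n hn hn' using hO
    refine ⟨∏ x ∈ t, n x, Finset.prod_pos (fun x _ => hn x), fun s hs => ?_⟩
    have hs' : s ∈ Submodule.span ℤ (t : Set B) := by rw [ht]; exact hs
    clear hs
    induction hs' using Submodule.span_induction with
    | mem x hx =>
      rw [← Finset.mul_prod_erase t n hx, Nat.cast_mul, mul_comm (n x : B), mul_assoc]
      exact O.mul_mem (natCast_mem O _) (hn' x)
    | zero => simp
    | add x y _ _ hx hy => rw [mul_add]; exact O.add_mem hx hy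
    | smul a x _ hx =>
      rw [mul_smul_comm]
      exact zsmul_mem hx a
  have hfin : Module.Finite ℤ S := (Module.Finite.iff_fg (N := Subalgebra.toSubmodule S)).mpr hfg
  let I : Ideal S := Ideal.span {(N : S)}
  have hfin2 : Finite (S ⧸ I) := by
    refine Module.finite_of_fg_torsion (S ⧸ I) ?_
    intro x
    refine ⟨⟨(N : ℤ), mem_nonZeroDivisors_of_ne_zero (by exact_mod_cast hN.ne')⟩, ?_⟩
    have h0 : (N : S ⧸ I) = 0 := by
      rw [← map_natCast (Ideal.Quotient.mk I), Ideal.Quotient.eq_zero_iff_mem]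
      exact Ideal.mem_span_singleton_self _
    show (N : ℤ) • x = 0
    rw [natCast_zsmul, nsmul_eq_mul, h0, zero_mul]
  let U : Sˣ :=
    ⟨⟨u, Algebra.subset_adjoin (by simp)⟩, ⟨(u⁻¹ : Bˣ), Algebra.subset_adjoin (by simp)⟩,
      Subtype.ext (by simp), Subtype.ext (by simp)⟩
  have key : ∀ (W : Sˣ), Units.map (Ideal.Quotient.mk I).toMonoidHom W = 1 →
      ((W : S) : B) ∈ O := by
    intro W hW
    have h3 : Ideal.Quotient.mk I (W : S) = Ideal.Quotient.mk I 1 := congrArg Units.val hW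
    rw [Ideal.Quotient.eq, Ideal.mem_span_singleton'] at h3
    obtain ⟨a, ha⟩ := h3
    have h4 : ((W : S) : B) = 1 + (N : B) * (a : B) := by
      have := congrArg (fun t : S => (t : B)) ha
      simp only [MulMemClass.coe_mul, SubringClass.coe_natCast, AddSubgroupClass.coe_sub,
        OneMemClass.coe_one] at this
      rw [mul_comm, this]
      ring
    rw [h4]
    exact O.add_mem O.one_mem (hNS _ a.2)
  obtain ⟨m, hm, hm'⟩ := isOfFinOrder_iff_pow_eq_one.mp
    (isOfFinOrder_of_finite (Units.map (Ideal.Quotient.mk I).toMonoidHom U))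
  refine ⟨m, hm, ?_, ?_⟩
  · have := key (U ^ m) (by rw [map_pow, hm'])
    simpa [U] using this
  · have := key (U⁻¹ ^ m) (by rw [map_pow, map_inv, inv_pow, hm', inv_one])
    rw [← inv_pow]
    rw [Units.val_pow_eq_pow_val, SubmonoidClass.coe_pow] at this
    rw [Units.val_pow_eq_pow_val]
    exact this

open NumberField in
/-- A totally real number field other than the rationals has a unit of infinite order. -/
theorem exists_unit_infinite (K : Type) [Field K] [NumberField K]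
    (hreal : ∀ (φ : K →+* ℂ) (x : K), (starRingEnd ℂ) (φ x) = φ x) (hK : finrank ℚ K ≠ 1) :
    ∃ ε : Kˣ, IsIntegral ℤ (ε : K) ∧ IsIntegral ℤ ((ε⁻¹ : Kˣ) : K) ∧ ¬IsOfFinOrder ε := by
  classical
  have hc : InfinitePlace.nrComplexPlaces K = 0 := by
    rw [nrComplexPlaces_eq_zero_iff, isTotallyReal_iff]
    intro w
    rw [InfinitePlace.isReal_iff, ComplexEmbedding.isReal_iff]
    ext x
    exact hreal _ x
  have h1 := InfinitePlace.card_add_two_mul_card_eq_rank K
  have h2 := InfinitePlace.card_eq_nrRealPlaces_add_nrComplexPlaces K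
  have h3 : 0 < finrank ℚ K := finrank_pos
  have h4 : 1 < Fintype.card (InfinitePlace K) := by omega
  obtain ⟨w₁, w, hw⟩ := Fintype.exists_pair_of_one_lt_card h4
  obtain ⟨u, hu⟩ := Units.dirichletUnitTheorem.exists_unit K w₁
  refine ⟨Units.map (algebraMap (𝓞 K) K).toMonoidHom u, (u : 𝓞 K).isIntegral_coe,
    ((u⁻¹ : (𝓞 K)ˣ) : 𝓞 K).isIntegral_coe, fun h => ?_⟩
  obtain ⟨m, hm, hm'⟩ := isOfFinOrder_iff_pow_eq_one.mp h
  have h5 : w (algebraMap (𝓞 K) K u) ^ m = 1 := by
    have := congrArg (fun t : Kˣ => w (t : K)) hm'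
    simpa using this
  have h6 := (pow_eq_one_iff_of_nonneg (apply_nonneg w _) hm.ne').mp h5
  have h7 := hu w hw.symm
  have h8 : w (algebraMap (𝓞 K) K u) = w u := rfl
  rw [← h8, h6, Real.log_one] at h7
  exact lt_irrefl _ h7

theorem rat_or_unit (K : Type) [Field K] [inst : Algebra ℚ K] [hfd : Module.Finite ℚ K]
    (hreal : ∀ (φ : K →+* ℂ) (x : K), (starRingEnd ℂ) (φ x) = φ x) :
    (∀ x : K, ∃ r : ℚ, algebraMap ℚ K r = x) ∨ ∃ ε : Kˣ,
      (∃ p : ℤ[X], p.Monic ∧ eval₂ (Int.castRingHom K) (ε : K) p = 0) ∧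
      (∃ p : ℤ[X], p.Monic ∧ eval₂ (Int.castRingHom K) ((ε⁻¹ : Kˣ) : K) p = 0) ∧
      ¬IsOfFinOrder ε := by
  have : CharZero K := algebraRat.charZero _
  obtain rfl : inst = DivisionRing.toRatAlgebra := Subsingleton.elim _ _
  have : NumberField K := { to_finiteDimensional := hfd }
  by_cases hK : finrank ℚ K = 1
  · left
    intro x
    obtain ⟨r, hr⟩ := (finrank_eq_one_iff_of_nonzero' (1 : K) one_ne_zero).mp hK x
    exact ⟨r, by rw [Algebra.algebraMap_eq_smul_one, hr]⟩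
  · right
    exact exists_unit_infinite K hreal hK

/-- A reduced finite totally real algebra whose integral units have finite order is spanned by
its idempotents. -/
theorem mem_span_idem (B : Type) [CommRing B] [Algebra ℚ B] [Module.Finite ℚ B] [IsReduced B]
    (hreal : ∀ (φ : B →+* ℂ) (x : B), (starRingEnd ℂ) (φ x) = φ x)
    (hfin : ∀ u : Bˣ, IsIntegral ℤ (u : B) → IsIntegral ℤ ((u⁻¹ : Bˣ) : B) → IsOfFinOrder u)
    (b : B) : b ∈ Submodule.span ℚ {e : B | e * e = e} := by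
  classical
  have : IsArtinianRing B := IsArtinianRing.of_finite ℚ B
  let E := IsArtinianRing.equivPi B
  have : Finite (MaximalSpectrum B) := inferInstance
  have := Fintype.ofFinite (MaximalSpectrum B)
  have hrank : ∀ m : MaximalSpectrum B, ∀ x : B ⧸ m.asIdeal, ∃ r : ℚ, algebraMap ℚ _ r = x := by
    intro m
    have := m.isMaximal
    let _ : Field (B ⧸ m.asIdeal) := Ideal.Quotient.field _
    rcases rat_or_unit (B ⧸ m.asIdeal) (fun φ x => by
        obtain ⟨y, rfl⟩ := Ideal.Quotient.mk_surjective x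
        exact hreal (φ.comp (Ideal.Quotient.mk m.asIdeal)) y) with h | ⟨ε, h1, h2, h3⟩
    · exact h
    · exfalso
      have hint : ∀ x : B ⧸ m.asIdeal,
          (∃ p : ℤ[X], p.Monic ∧ eval₂ (Int.castRingHom _) x p = 0) →
          IsIntegral ℤ (E.symm (Function.update 1 m x)) := by
        rintro x ⟨p, hp, hp0⟩
        refine ⟨p * (X - C 1), hp.mul (monic_X_sub_C 1), ?_⟩
        apply E.injective
        rw [map_zero]
        funext m'
        have h4 := hom_eval₂ (p * (X - C 1)) (algebraMap ℤ B) ((Pi.evalRingHom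
          (fun I : MaximalSpectrum B => B ⧸ I.asIdeal) m').comp E.toRingEquiv.toRingHom)
          (E.symm (Function.update 1 m x))
        refine h4.trans ?_
        rw [RingHom.ext_int (RingHom.comp _ _) (Int.castRingHom _)]
        by_cases hm : m' = m
        · subst hm
          simp [hp0]
        · simp [Function.update_of_ne hm]
      let u : Bˣ := ⟨E.symm (Function.update 1 m ε), E.symm (Function.update 1 m (ε⁻¹ : _ˣ)),
        by rw [← map_mul, ← Function.update_mul]; simp,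
        by rw [← map_mul, ← Function.update_mul]; simp⟩
      obtain ⟨k, hk, hk'⟩ := isOfFinOrder_iff_pow_eq_one.mp (hfin u (hint _ h1) (hint _ h2))
      apply h3
      refine isOfFinOrder_iff_pow_eq_one.mpr ⟨k, hk, Units.ext ?_⟩
      have := congrArg (fun t : Bˣ => E (t : B) m) hk'
      simpa [u] using this
  choose r hr using fun m : MaximalSpectrum B => hrank m (E b m)
  have hb : b = ∑ m, r m • E.symm (Pi.single m 1) := by
    apply E.injective
    funext m'
    rw [map_sum, Finset.sum_apply, Finset.sum_eq_single m']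
    · rw [Algebra.smul_def, map_mul, AlgEquiv.apply_symm_apply, Pi.mul_apply, Pi.single_eq_same,
        mul_one, ← hr m']
      rfl
    · intro m _ hm
      rw [Algebra.smul_def, map_mul, AlgEquiv.apply_symm_apply, Pi.mul_apply,
        Pi.single_eq_of_ne hm.symm, mul_zero]
    · simp
  rw [hb]
  refine Submodule.sum_mem _ (fun m _ => Submodule.smul_mem _ _ (Submodule.subset_span ?_))
  show _ * _ = _
  rw [← map_mul, ← Pi.single_mul, mul_one]

end Pool.Agent.P.MP_ac4bd0_al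
end

-- part Pool.Agent.P.MP_ac4bd0_al.No.Basic
section

set_option autoImplicit false

namespace Pool.Agent.P.MP_ac4bd0_al.No

/-- Inverse semi-rational groups. -/
def ISR (G : Type) [Group G] : Prop :=
  ∃ n : ℕ, n ≠ 0 ∧ ∀ (g : G) (j : ℕ), j.Coprime n → IsConj g (g ^ j) ∨ IsConj g⁻¹ (g ^ j)

theorem exists_coprime (m n j₀ : ℕ) (hm : m ≠ 0) (hn : n ≠ 0) (h : j₀.Coprime m) :
    ∃ j : ℕ, j ≡ j₀ [MOD m] ∧ j.Coprime n := by
  have : NeZero (m * n) := ⟨mul_ne_zero hm hn⟩
  have : NeZero m := ⟨hm⟩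
  obtain ⟨x, hx⟩ := ZMod.unitsMap_surjective (n := m) (m := m * n) (Dvd.intro n rfl)
    (ZMod.unitOfCoprime j₀ h)
  refine ⟨(x : ZMod (m * n)).val, ?_, ?_⟩
  · rw [← ZMod.natCast_eq_natCast_iff]
    have := congrArg (fun u : (ZMod m)ˣ => (u : ZMod m)) hx
    simp only [ZMod.unitsMap_def, Units.coe_map, MonoidHom.coe_coe, ZMod.castHom_apply,
      ZMod.coe_unitOfCoprime] at this
    rw [ZMod.natCast_val, this]
  · exact (ZMod.val_coe_unit_coprime x).coprime_mul_left_right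

theorem ISR.of_surjective {G H : Type} [Group G] [Group H] (f : G →* H)
    (hf : Function.Surjective f) (h : ISR G) : ISR H := by
  obtain ⟨n, hn, h⟩ := h
  refine ⟨n, hn, fun g j hj => ?_⟩
  obtain ⟨g, rfl⟩ := hf g
  rcases h g j hj with h | h
  · left
    simpa using f.map_isConj h
  · right
    simpa using f.map_isConj h

/-- The working form: `j₀` only has to be coprime to an exponent of the image of `g`. -/
theorem ISR.use {G H : Type} [Group G] [Group H] (h : ISR G) (f : G →* H) (g : G) (m j₀ : ℕ)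
    (hm : m ≠ 0) (hg : f g ^ m = 1) (hj : j₀.Coprime m) :
    ∃ t : G, f t * f g * (f t)⁻¹ = f g ^ j₀ ∨ f t * f g * (f t)⁻¹ = (f g ^ j₀)⁻¹ := by
  obtain ⟨n, hn, h⟩ := h
  obtain ⟨j, hj1, hj2⟩ := exists_coprime m n j₀ hm hn hj
  have e : f g ^ j = f g ^ j₀ := by
    rw [pow_eq_pow_mod j hg, pow_eq_pow_mod j₀ hg, hj1]
  rcases h g j hj2 with h | h
  · obtain ⟨t, ht⟩ := isConj_iff.mp h
    refine ⟨t, Or.inl ?_⟩
    rw [← e, ← map_pow, ← ht]
    simp
  · obtain ⟨t, ht⟩ := isConj_iff.mp h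
    refine ⟨t, Or.inr ?_⟩
    rw [← e, ← map_pow, ← ht]
    simp [mul_assoc]

/-- Stabiliser of a vector. -/
def stab {H W : Type} [Group H] [AddCommGroup W] [Module (ZMod 2) W]
    (ρ : H →* Module.End (ZMod 2) W) (w : W) : Subgroup H where
  carrier := {h | ρ h w = w}
  one_mem' := by simp
  mul_mem' := by
    intro a b ha hb
    simp only [Set.mem_setOf_eq] at ha hb ⊢
    rw [map_mul, Module.End.mul_apply, hb, ha]
  inv_mem' := by
    intro a ha
    simp only [Set.mem_setOf_eq] at ha ⊢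
    conv_lhs => rw [← ha]
    rw [← Module.End.mul_apply, ← map_mul]
    simp

theorem mem_stab {H W : Type} [Group H] [AddCommGroup W] [Module (ZMod 2) W]
    {ρ : H →* Module.End (ZMod 2) W} {w : W} {h : H} : h ∈ stab ρ w ↔ ρ h w = w := Iff.rfl

/-- A nontrivial normal subgroup of a finite solvable group contains a nontrivial elementary
abelian normal subgroup that is minimal among the nontrivial normal subgroups. -/
theorem exists_min_normal {G : Type} [Group G] [Finite G] [Group.IsSolvable G] (L : Subgroup G)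
    [hL : L.Normal] (h : L ≠ ⊥) :
    ∃ N : Subgroup G, N.Normal ∧ N ≠ ⊥ ∧ N ≤ L ∧
      (∀ M : Subgroup G, M.Normal → M ≠ ⊥ → M ≤ N → M = N) ∧
      (∀ x ∈ N, ∀ y ∈ N, x * y = y * x) ∧ ∃ q : ℕ, q.Prime ∧ ∀ x ∈ N, x ^ q = 1 := by
  obtain ⟨N, ⟨hN, hN0, hNL⟩, hmin⟩ := (wellFounded_lt (α := Subgroup G)).has_min
    {N | N.Normal ∧ N ≠ ⊥ ∧ N ≤ L} ⟨L, hL, h, le_rfl⟩
  have hmin' : ∀ M : Subgroup G, M.Normal → M ≠ ⊥ → M ≤ N → M = N := by
    intro M hM hM0 hMN
    by_contra hne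
    exact hmin M ⟨hM, hM0, hMN.trans hNL⟩ (lt_of_le_of_ne hMN hne)
  have hcomm : ∀ x ∈ N, ∀ y ∈ N, x * y = y * x := by
    have h1 : ⁅N, N⁆ < N := Group.IsSolvable.commutator_lt_of_ne_bot hN0
    have h2 : ⁅N, N⁆ = ⊥ := by
      by_contra h2
      exact h1.ne (hmin' _ inferInstance h2 h1.le)
    intro x hx y hy
    have := Subgroup.commutator_mem_commutator hx hy
    rw [h2, Subgroup.mem_bot, commutatorElement_eq_one_iff_mul_comm] at this
    exact this
  refine ⟨N, hN, hN0, hNL, hmin', hcomm, ?_⟩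
  have hcard : Nat.card N ≠ 1 := by
    intro h1
    exact hN0 (Subgroup.eq_bot_of_card_eq N h1)
  obtain ⟨q, hq, hqd⟩ := Nat.exists_prime_and_dvd hcard
  have := Fact.mk hq
  obtain ⟨x, hx⟩ := exists_prime_orderOf_dvd_card' q hqd
  let M : Subgroup G :=
    { carrier := {y | y ∈ N ∧ y ^ q = 1}
      one_mem' := ⟨N.one_mem, one_pow q⟩
      mul_mem' := by
        rintro a b ⟨ha, ha'⟩ ⟨hb, hb'⟩
        refine ⟨N.mul_mem ha hb, ?_⟩
        rw [Commute.mul_pow (hcomm a ha b hb), ha', hb', one_mul]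
      inv_mem' := by
        rintro a ⟨ha, ha'⟩
        exact ⟨N.inv_mem ha, by rw [inv_pow, ha', inv_one]⟩ }
  have hM : M.Normal := ⟨by
    rintro a ⟨ha, ha'⟩ g
    exact ⟨hN.conj_mem a ha g, by rw [conj_pow, ha']; simp⟩⟩
  have hM0 : M ≠ ⊥ := by
    intro h0
    have h1 : (x : G) ∈ M := ⟨x.2, by
      have := pow_orderOf_eq_one x
      rw [hx] at this
      exact_mod_cast congrArg Subtype.val this⟩
    rw [h0, Subgroup.mem_bot] at h1
    have h2 : x = 1 := Subtype.ext h1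
    rw [h2, orderOf_one] at hx
    exact hq.one_lt.ne hx
  have hMN := hmin' M hM hM0 (fun y hy => hy.1)
  refine ⟨q, hq, fun y hy => ?_⟩
  rw [← hMN] at hy
  exact hy.2

/-- The relations between the elements of the test group that the proof uses. -/
structure Cfg (F : Type) [Field F] (α β : F) (H : Type) [Group H] where
  c : F → H
  u : F → H
  τ : F → H
  a : H
  b : H
  a_pow : a ^ 5 = 1
  b_pow : b ^ 7 = 1
  ab : a * b = b * a
  τ_add : ∀ s s', τ (s + s') = τ s * τ s'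
  a_τ : ∀ s, a * τ s = τ (α * s) * a
  b_τ : ∀ s, b * τ s = τ (β * s) * b
  τ_c : ∀ s q, τ s * c q = c (q + s) * τ s
  τ_u : ∀ s q, τ s * u q = u (q + s) * τ s
  a_u : ∀ q, a * u q = u (α * q) * a
  b_u : ∀ q, b * u q = u (β * q) * b
  u_sq : ∀ q, u q * u q = 1
  u_comm : ∀ q q', u q * u q' = u q' * u q
  c_pow : ∀ q, c q ^ 3 = 1
  u_c : ∀ q, u q * c q = (c q)⁻¹ * u q
  u_c' : ∀ q q', q ≠ q' → u q * c q' = c q' * u q

/-- Transport of a configuration along a homomorphism. -/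
def Cfg.map {F : Type} [Field F] {α β : F} {H H' : Type} [Group H] [Group H'] (C : Cfg F α β H)
    (f : H →* H') : Cfg F α β H' where
  c q := f (C.c q)
  u q := f (C.u q)
  τ s := f (C.τ s)
  a := f C.a
  b := f C.b
  a_pow := by rw [← map_pow, C.a_pow, map_one]
  b_pow := by rw [← map_pow, C.b_pow, map_one]
  ab := by rw [← map_mul, C.ab, map_mul]
  τ_add s s' := by rw [C.τ_add, map_mul]
  a_τ s := by rw [← map_mul, C.a_τ, map_mul]
  b_τ s := by rw [← map_mul, C.b_τ, map_mul]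
  τ_c s q := by rw [← map_mul, C.τ_c, map_mul]
  τ_u s q := by rw [← map_mul, C.τ_u, map_mul]
  a_u q := by rw [← map_mul, C.a_u, map_mul]
  b_u q := by rw [← map_mul, C.b_u, map_mul]
  u_sq q := by rw [← map_mul, C.u_sq, map_one]
  u_comm q q' := by rw [← map_mul, C.u_comm, map_mul]
  c_pow q := by rw [← map_pow, C.c_pow, map_one]
  u_c q := by rw [← map_mul, C.u_c, map_mul, map_inv]
  u_c' q q' h := by rw [← map_mul, C.u_c' q q' h, map_mul]

end Pool.Agent.P.MP_ac4bd0_al.No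
end

-- part Pool.Agent.P.MP_ac4bd0_al.No.Cut
section

set_option autoImplicit false

open Polynomial Module

namespace Pool.Agent.P.MP_ac4bd0_al

/-- The central elements of the rational group algebra with symmetric regular matrix. -/
noncomputable def symCen (G : Type) [Group G] [Fintype G] [DecidableEq G] :
    Subalgebra ℚ (Subalgebra.center ℚ (MonoidAlgebra ℚ G)) where
  carrier := {u | (regM G u).transpose = regM G u}
  mul_mem' := by
    intro a b ha hb
    simp only [Set.mem_ofPred_eq] at ha hb ⊢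
    rw [MulMemClass.coe_mul, map_mul, Matrix.transpose_mul, ha, hb, ← map_mul, ← map_mul]
    congr 1
    exact (Subalgebra.mem_center_iff.mp a.2 _)
  add_mem' := by
    intro a b ha hb
    simp only [Set.mem_ofPred_eq] at ha hb ⊢
    rw [AddMemClass.coe_add, map_add, Matrix.transpose_add, ha, hb]
  algebraMap_mem' := by
    intro r
    simp only [Set.mem_ofPred_eq]
    rw [Subalgebra.coe_algebraMap, AlgHom.commutes, Algebra.algebraMap_eq_smul_one,
      Matrix.transpose_smul, Matrix.transpose_one]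

/-- A cut group is inverse semi-rational. -/
theorem isr_of_cut_aux {G : Type} [Group G] [Finite G]
    (hcut : ∀ u : (MonoidAlgebra ℤ G)ˣ, u ∈ Subgroup.center (MonoidAlgebra ℤ G)ˣ →
      ∃ z ∈ Subgroup.center G, (u : MonoidAlgebra ℤ G) = MonoidAlgebra.of ℤ G z ∨
        (u : MonoidAlgebra ℤ G) = -MonoidAlgebra.of ℤ G z)
    (g : G) (j : ℕ) (hj : j.Coprime (Nat.card G)) :
    IsConj g (g ^ j) ∨ IsConj g⁻¹ (g ^ j) := by
  classical
  have := Fintype.ofFinite G
  let B := symCen G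
  let ι : B →ₐ[ℚ] MonoidAlgebra ℚ G := (Subalgebra.val _).comp B.val
  have hι : Function.Injective ι := Subtype.val_injective.comp Subtype.val_injective
  have hsym : ∀ b : B, (regM G (ι b)).transpose = regM G (ι b) := fun b => b.2
  have hcen : ∀ (b : B) (u : MonoidAlgebra ℚ G), u * ι b = ι b * u := fun b u =>
    Subalgebra.mem_center_iff.mp b.1.2 u
  have : Module.Finite ℚ B := Module.Finite.of_injective ι.toLinearMap hι
  have : IsReduced B := by
    rw [isReduced_iff_pow_one_lt 2 one_lt_two]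
    intro x hx
    have h1 : (regM G (ι x)).conjTranspose * regM G (ι x) = 0 := by
      rw [Matrix.conjTranspose_eq_transpose_of_trivial, hsym, ← map_mul, ← map_mul, ← pow_two, hx,
        map_zero, map_zero]
    rw [Matrix.conjTranspose_mul_self_eq_zero] at h1
    apply hι
    apply regM_injective
    rw [h1, map_zero, map_zero]
  have hreal : ∀ (φ : B →+* ℂ) (x : B), (starRingEnd ℂ) (φ x) = φ x := by
    intro φ x
    refine real_of_root (regM G (ι x)) (hsym x) _ ?_
    have h1 : aeval x (regM G (ι x)).charpoly = 0 := by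
      apply hι
      apply regM_injective
      have h3 := aeval_algHom_apply ((regM G).comp ι) x (regM G (ι x)).charpoly
      rw [map_zero, map_zero]
      exact h3.symm.trans (Matrix.aeval_self_charpoly _)
    have h2 := hom_eval₂ (regM G (ι x)).charpoly (algebraMap ℚ B) φ x
    rw [← aeval_def, h1, map_zero, RingHom.ext_rat (φ.comp _) (algebraMap ℚ ℂ), ← aeval_def] at h2
    exact h2.symm
  let f : MonoidAlgebra ℤ G →+* MonoidAlgebra ℚ G := MonoidAlgebra.mapRingHom G (Int.castRingHom ℚ)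
  have hf : ∀ v x, (f v).coeff x = (v.coeff x : ℚ) := by
    intro v x
    simp [f]
  have hfinj : Function.Injective f := by
    intro v w h
    ext x
    have := congrArg (fun t => t.coeff x) h
    simp only [hf] at this
    exact_mod_cast this
  let O : Subring B := f.range.comap ι.toRingHom
  have hO : ∀ b : B, ∃ N : ℕ, 0 < N ∧ (N : B) * b ∈ O := by
    intro b
    refine ⟨∏ x : G, ((ι b).coeff x).den, Finset.prod_pos (fun x _ => Rat.den_pos _), ?_⟩
    refine ⟨∑ x : G, MonoidAlgebra.single x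
      ((∏ y ∈ Finset.univ.erase x, (((ι b).coeff y).den : ℤ)) * ((ι b).coeff x).num), ?_⟩
    ext x
    rw [hf]
    show _ = (ι (_ * b)).coeff x
    rw [← nsmul_eq_mul, map_nsmul, MonoidAlgebra.coeff_smul_apply, MonoidAlgebra.coeff_sum,
      Finsupp.finsetSum_apply, Finset.sum_eq_single x, ← Finset.mul_prod_erase _ _
        (Finset.mem_univ x)]
    · simp only [MonoidAlgebra.coeff_single, Finsupp.single_eq_same, Int.cast_mul, Int.cast_prod,
        Int.cast_natCast, nsmul_eq_mul, Nat.cast_mul, Nat.cast_prod]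
      rw [← Rat.mul_den_eq_num]
      ring
    · intro y _ hy
      simp [hy]
    · simp
  have hfin : ∀ u : Bˣ, IsIntegral ℤ (u : B) → IsIntegral ℤ ((u⁻¹ : Bˣ) : B) → IsOfFinOrder u := by
    intro u h1 h2
    obtain ⟨m, hm, ⟨v, hv⟩, ⟨v', hv'⟩⟩ := pow_mem_order O hO u h1 h2
    have hv1 : f v = ι (u ^ m : Bˣ) := hv
    have hv2 : f v' = ι ((u ^ m)⁻¹ : Bˣ) := hv'
    let U : (MonoidAlgebra ℤ G)ˣ := ⟨v, v',
      hfinj (by rw [map_mul, hv1, hv2, ← map_mul, Units.mul_inv, map_one, map_one]),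
      hfinj (by rw [map_mul, hv1, hv2, ← map_mul, Units.inv_mul, map_one, map_one])⟩
    obtain ⟨z, -, hz⟩ := hcut U (by
      rw [Subgroup.mem_center_iff]
      intro w
      apply Units.ext
      apply hfinj
      show f (w * v) = f (v * w)
      rw [map_mul, map_mul, hv1, hcen])
    have h3 : v ^ (2 * Nat.card G) = 1 := by
      have h4 : v ^ 2 = MonoidAlgebra.of ℤ G z ^ 2 := by
        rcases hz with h | h
        · exact congrArg (· ^ 2) h
        · have : v = -MonoidAlgebra.of ℤ G z := h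
          rw [this, neg_sq]
      rw [pow_mul, h4, ← pow_mul, mul_comm, pow_mul, ← map_pow, pow_card_eq_one', map_one, one_pow]
    refine isOfFinOrder_iff_pow_eq_one.mpr ⟨m * (2 * Nat.card G),
      Nat.mul_pos hm (Nat.mul_pos two_pos Nat.card_pos), Units.ext (hι ?_)⟩
    rw [pow_mul, Units.val_pow_eq_pow_val, map_pow, ← hv1, ← map_pow, h3, map_one, Units.val_one,
      map_one]
  have hall : ∀ b : B, (ι b).coeff (g ^ j) = (ι b).coeff g := by
    intro b
    have hb := mem_span_idem B hreal hfin b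
    induction hb using Submodule.span_induction with
    | mem e he =>
      exact idem_coeff_pow (ι e) (by rw [← map_mul, he]) (hcen e) g j hj
    | zero => simp
    | add x y _ _ hx hy => simp only [map_add, MonoidAlgebra.coeff_add, Finsupp.add_apply, hx, hy]
    | smul a x _ hx => simp only [map_smul, MonoidAlgebra.coeff_smul_apply, hx]
  let z : MonoidAlgebra ℚ G := ∑ x : G, MonoidAlgebra.single x
    (if IsConj g x ∨ IsConj g⁻¹ x then 1 else 0)
  have hz : ∀ x, z.coeff x = if IsConj g x ∨ IsConj g⁻¹ x then 1 else 0 := by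
    intro x
    rw [MonoidAlgebra.coeff_sum, Finsupp.finsetSum_apply, Finset.sum_eq_single x]
    · simp
    · intro y _ hy
      simp [hy]
    · simp
  have hinv : ∀ a x : G, IsConj a x⁻¹ ↔ IsConj a⁻¹ x := by
    intro a x
    simp only [isConj_iff]
    constructor
    · rintro ⟨c, hc⟩
      exact ⟨c, by rw [← inv_inv x, ← hc]; group⟩
    · rintro ⟨c, rfl⟩
      exact ⟨c, by group⟩
  have hzc : z ∈ Subalgebra.center ℚ (MonoidAlgebra ℚ G) := by
    rw [Subalgebra.mem_center_iff]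
    intro w
    induction w using MonoidAlgebra.induction_linear with
    | zero => simp
    | add x y hx hy => rw [add_mul, mul_add, hx, hy]
    | single h r =>
      ext x
      have hc : IsConj (h⁻¹ * x) (x * h⁻¹) := isConj_iff.mpr ⟨h, by group⟩
      have hc' : ∀ a : G, IsConj a (h⁻¹ * x) ↔ IsConj a (x * h⁻¹) := fun a =>
        ⟨fun t => t.trans hc, fun t => t.trans hc.symm⟩
      rw [MonoidAlgebra.coeff_single_mul_apply, MonoidAlgebra.coeff_mul_single_apply, hz, hz,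
        mul_comm]
      simp only [hc']
  have hzs : (⟨z, hzc⟩ : Subalgebra.center ℚ (MonoidAlgebra ℚ G)) ∈ B := by
    show (regM G z).transpose = regM G z
    ext x y
    rw [Matrix.transpose_apply, regM_apply, regM_apply, hz, hz,
      show y * x⁻¹ = (x * y⁻¹)⁻¹ by group]
    simp only [hinv, inv_inv, or_comm]
  have h := hall ⟨⟨z, hzc⟩, hzs⟩
  change z.coeff _ = z.coeff _ at h
  rw [hz, hz, if_pos (Or.inl (IsConj.refl g))] at h
  by_contra hn
  rw [if_neg hn] at h
  exact zero_ne_one h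

namespace No

/-- Step 0: cut groups are inverse semi-rational. -/
theorem isr_of_cut (G : Type) [Group G] [Finite G]
    (h : ∀ u : (MonoidAlgebra ℤ G)ˣ, u ∈ Subgroup.center (MonoidAlgebra ℤ G)ˣ →
      ∃ z ∈ Subgroup.center G, (u : MonoidAlgebra ℤ G) = MonoidAlgebra.of ℤ G z ∨
        (u : MonoidAlgebra ℤ G) = -MonoidAlgebra.of ℤ G z) : ISR G :=
  ⟨Nat.card G, Nat.card_pos.ne', fun g j hj => isr_of_cut_aux h g j hj⟩

end No

end Pool.Agent.P.MP_ac4bd0_al
end

-- part Pool.Agent.P.MP_ac4bd0_al.No.Descent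
section

set_option autoImplicit false

namespace Pool.Agent.P.MP_ac4bd0_al.No

namespace DescAux

variable {G H : Type} [Group G] [Group H] {π : G →* H} {σ : H →* G}

/-- the kernel component of an element -/
def nu (hπσ : ∀ h, π (σ h) = h) (x : G) : π.ker :=
  ⟨x * (σ (π x))⁻¹, by rw [MonoidHom.mem_ker, map_mul, map_inv, hπσ, mul_inv_cancel]⟩

lemma nu_mul (hπσ : ∀ h, π (σ h) = h) (x y : G) :
    nu hπσ (x * y) = nu hπσ x * MulAut.conjNormal (σ (π x)) (nu hπσ y) := by
  ext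
  simp [nu, mul_assoc]

lemma nu_coe (hπσ : ∀ h, π (σ h) = h) (n : π.ker) : nu hπσ n = n := by
  ext
  simp [nu, MonoidHom.mem_ker.1 n.2]

lemma conj_eq (hπσ : ∀ h, π (σ h) = h) (hcomm : ∀ x ∈ π.ker, ∀ y ∈ π.ker, x * y = y * x) (g : G)
    (n : π.ker) : MulAut.conjNormal g n = MulAut.conjNormal (σ (π g)) n := by
  have h := hcomm _ (nu hπσ g).2 _ (MulAut.conjNormal (σ (π g)) n).2
  ext
  simp only [nu, MulAut.conjNormal_apply] at h ⊢
  calc g * n * g⁻¹ = g * (σ (π g))⁻¹ * (σ (π g) * n * (σ (π g))⁻¹) * (g * (σ (π g))⁻¹)⁻¹ := by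
        group
    _ = _ := by rw [h]; group

end DescAux

open DescAux in
/-- Step 2: Fourier descent to the stabiliser of a sign character of a complemented abelian
normal subgroup. -/
theorem descent {G H : Type} [Group G] [Finite G] [Group H] (π : G →* H) (σ : H →* G)
    (hπσ : ∀ h, π (σ h) = h) (hcomm : ∀ x ∈ π.ker, ∀ y ∈ π.ker, x * y = y * x) (hG : ISR G)
    (lam : π.ker →* ℤˣ) (T : Subgroup H)
    (hT : ∀ s : H, s ∈ T ↔ ∀ n : π.ker, lam (MulAut.conjNormal (σ s) n) = lam n) : ISR T := by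
  classical
  have := Fintype.ofFinite G
  obtain ⟨n, hn, hG⟩ := hG
  refine ⟨2 * (Nat.card G * n), mul_ne_zero two_ne_zero (mul_ne_zero Nat.card_pos.ne' hn),
    fun h j hj => ?_⟩
  have j1 : Odd j := Nat.coprime_two_right.1 hj.coprime_mul_right_right
  have j2 : (Nat.card G).Coprime j := hj.coprime_mul_left_right.coprime_mul_right_right.symm
  have j3 : j.Coprime n := hj.coprime_mul_left_right.coprime_mul_left_right
  let L : G → ℤˣ := fun x => lam (nu hπσ x)
  have Lmul : ∀ x y, π x ∈ T → L (x * y) = L x * L y := fun x y hx => by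
    simp only [L, nu_mul, map_mul, (hT _).1 hx]
  have Lker : ∀ m : π.ker, L m = lam m := fun m => by simp only [L, nu_coe]
  have Lone : L 1 = 1 := (Lker 1).trans (map_one lam)
  have Linv : ∀ x, π x ∈ T → L x⁻¹ = L x := fun x hx => by
    have := Lmul x x⁻¹ hx
    rw [mul_inv_cancel, Lone] at this
    rw [eq_inv_of_mul_eq_one_right this.symm, Int.units_inv_eq_self]
  have Lpow : ∀ x, π x ∈ T → ∀ k : ℕ, L (x ^ k) = L x ^ k := fun x hx k => by
    induction k with
    | zero => rw [pow_zero, pow_zero, Lone]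
    | succ k ih => rw [pow_succ', Lmul _ _ hx, ih, pow_succ']
  let C : H → Prop := fun y => ∃ s ∈ T, s * h * s⁻¹ = y ∨ s * (h : H)⁻¹ * s⁻¹ = y
  have CT : ∀ y, C y → y ∈ T := by
    rintro _ ⟨s, hs, rfl | rfl⟩
    · exact mul_mem (mul_mem hs h.2) (inv_mem hs)
    · exact mul_mem (mul_mem hs (inv_mem h.2)) (inv_mem hs)
  have Cinv : ∀ y, C y → C y⁻¹ := by
    rintro _ ⟨s, hs, rfl | rfl⟩
    · exact ⟨s, hs, Or.inr (by group)⟩
    · exact ⟨s, hs, Or.inl (by group)⟩
  let φ : G → ℤ := fun x => if C (π x) then L x else 0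
  have φinv : ∀ x, φ x⁻¹ = φ x := fun x => by
    by_cases hx : C (π x)
    · simp only [φ, map_inv, if_pos hx, if_pos (Cinv _ hx), Linv x (CT _ hx)]
    · have hx' : ¬ C (π x)⁻¹ := fun c => hx (by simpa only [inv_inv] using Cinv _ c)
      simp only [φ, map_inv, if_neg hx, if_neg hx']
  let Φ : G → ℤ := fun x => ∑ g, φ (g * x * g⁻¹)
  have Φconj : ∀ x y, IsConj x y → Φ y = Φ x := fun x y hxy => by
    obtain ⟨t, rfl⟩ := isConj_iff.1 hxy
    refine Fintype.sum_equiv (Equiv.mulRight t) _ _ fun g => ?_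
    simp only [Equiv.coe_mulRight]
    congr 1
    group
  have Φpow : ∀ x, Φ (x ^ j) = Φ x := fun x => by
    rcases hG x j j3 with c | c
    · exact Φconj _ _ c
    · rw [Φconj _ _ c]
      refine Finset.sum_congr rfl fun g _ => ?_
      rw [← φinv]
      congr 1
      group
  let S : H → ℤ := fun y => ∑ x, if π x = y then L x * Φ x else 0
  let A : H → G → ℤ := fun y g => ∑ x, if π x = y then L x * φ (g * x * g⁻¹) else 0
  have SA : ∀ y, S y = ∑ g, A y g := fun y => by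
    simp only [S, A, Φ]
    rw [Finset.sum_comm]
    refine Finset.sum_congr rfl fun x _ => ?_
    split_ifs
    · rw [Finset.mul_sum]
    · simp
  have A0 : ∀ y g, ¬ C (π g * y * (π g)⁻¹) → A y g = 0 := fun y g hc =>
    Finset.sum_eq_zero fun x _ => by
      split_ifs with e
      · simp only [φ, map_mul, map_inv, e, if_neg hc, mul_zero]
      · rfl
  have A1 : ∀ y g, π g ∉ T → A y g = 0 := fun y g hg => by
    obtain ⟨m, hm⟩ := not_forall.1 (mt (hT _).2 hg)
    rw [← conj_eq hπσ hcomm] at hm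
    have hm' := Int.units_ne_iff_eq_neg.1 hm
    have m1 : π m = 1 := m.2
    have : A y g = -A y g := by
      simp only [A]
      rw [← Finset.sum_neg_distrib]
      refine (Fintype.sum_equiv (Equiv.mulLeft (m : G)) _ _ fun x => ?_).symm
      have e : g * (m * x) * g⁻¹ = MulAut.conjNormal g m * (g * x * g⁻¹) := by
        rw [MulAut.conjNormal_apply]; group
      have m2 : π (MulAut.conjNormal g m) = 1 := (MulAut.conjNormal g m).2
      simp only [Equiv.coe_mulLeft, φ, e]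
      rw [Lmul m x (m1 ▸ T.one_mem), Lmul (MulAut.conjNormal g m) _ (m2 ▸ T.one_mem), Lker, Lker,
        hm', map_mul π (m : G), m1, one_mul, map_mul π (MulAut.conjNormal g m : G), m2, one_mul]
      have := Int.units_coe_mul_self (lam m)
      split_ifs
      · push_cast
        linear_combination (L x * L (g * x * g⁻¹) : ℤ) * this
      · simp
      · simp
    linarith
  have A2 : ∀ y ∈ T, ∀ g, π g ∈ T → C (π g * y * (π g)⁻¹) → 0 < A y g := fun y hy g hg hc => by
    refine Finset.sum_pos' (fun x _ => ?_) ⟨σ y, Finset.mem_univ _, ?_⟩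
    all_goals
      have key : ∀ x, π x = y → (L x : ℤ) * φ (g * x * g⁻¹) = 1 := fun x e => by
        simp only [φ, map_mul, map_inv, e, if_pos hc]
        rw [Lmul _ _ (by rw [map_mul, e]; exact mul_mem hg hy), Lmul _ _ hg, Linv _ hg]
        have a1 := Int.units_coe_mul_self (L x)
        have a2 := Int.units_coe_mul_self (L g)
        push_cast
        linear_combination (L g * L g : ℤ) * a1 + a2
    · split_ifs with e
      · rw [key x e]; exact zero_le_one
      · exact le_rfl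
    · rw [if_pos (hπσ y), key _ (hπσ y)]
      exact one_pos
  have Apos : 0 < S h := by
    rw [SA]
    refine Finset.sum_pos' (fun g _ => ?_) ⟨1, Finset.mem_univ _, A2 h h.2 1 (by simp) ?_⟩
    · by_cases hg : π g ∈ T
      · by_cases hc : C (π g * h * (π g)⁻¹)
        · exact (A2 h h.2 g hg hc).le
        · exact (A0 h g hc).ge
      · exact (A1 h g hg).ge
    · exact ⟨1, T.one_mem, Or.inl (by simp)⟩
  have Spow : S ((h : H) ^ j) = S h := by
    refine (Fintype.sum_equiv (powCoprime j2) _ _ fun x => ?_).symm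
    have e : π (x ^ j) = (h : H) ^ j ↔ π x = h := by
      refine ⟨fun c => ?_, fun c => by rw [map_pow, c]⟩
      have c' : powCoprime j2 (σ (π x)) = powCoprime j2 (σ h) := by
        simp only [powCoprime_apply, ← map_pow, c]
      rw [← hπσ (π x), (powCoprime j2).injective c', hπσ]
    simp only [powCoprime_apply, e]
    split_ifs with c
    · rw [Φpow, Lpow x (c ▸ h.2), Int.units_pow_eq_pow_mod_two, Nat.odd_iff.1 j1, pow_one]
    · rfl
  rw [← Spow, SA] at Apos
  obtain ⟨g, -, hg⟩ := Finset.exists_ne_zero_of_sum_ne_zero Apos.ne'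
  have g1 : π g ∈ T := by_contra fun c => hg (A1 _ g c)
  obtain ⟨s, hs, e | e⟩ : C (π g * (h : H) ^ j * (π g)⁻¹) := by_contra fun c => hg (A0 _ g c)
  · refine Or.inl (isConj_iff.2 ⟨⟨(π g)⁻¹ * s, mul_mem (inv_mem g1) hs⟩, Subtype.ext ?_⟩)
    change (π g)⁻¹ * s * h * ((π g)⁻¹ * s)⁻¹ = (h : H) ^ j
    rw [← mul_left_cancel_iff (a := π g), ← mul_right_cancel_iff (a := (π g)⁻¹), ← e]
    group
  · refine Or.inr (isConj_iff.2 ⟨⟨(π g)⁻¹ * s, mul_mem (inv_mem g1) hs⟩, Subtype.ext ?_⟩)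
    change (π g)⁻¹ * s * (h : H)⁻¹ * ((π g)⁻¹ * s)⁻¹ = (h : H) ^ j
    rw [← mul_left_cancel_iff (a := π g), ← mul_right_cancel_iff (a := (π g)⁻¹), ← e]
    group

end Pool.Agent.P.MP_ac4bd0_al.No
end

-- part Pool.Agent.P.MP_ac4bd0_al.No.Reduce
section

set_option autoImplicit false

namespace Pool.Agent.P.MP_ac4bd0_al.No

namespace RedAux

/-- a nontrivial element of an abelian group of exponent two is detected by a sign character -/
lemma exists_sign {G : Type} [Group G] (N : Subgroup G) (hcomm : ∀ x ∈ N, ∀ y ∈ N, x * y = y * x)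
    (h2 : ∀ x ∈ N, x ^ 2 = 1) {v : N} (hv : v ≠ 1) : ∃ lam : N →* ℤˣ, lam v ≠ 1 := by
  letI : CommGroup N := { (inferInstance : Group N) with
    mul_comm := fun x y => Subtype.ext (hcomm _ x.2 _ y.2) }
  letI : Module (ZMod 2) (Additive N) := AddCommGroup.zmodModule fun x =>
    Additive.toMul.injective (Subtype.ext (h2 _ x.toMul.2))
  have h := mt (Module.forall_dual_apply_eq_zero_iff (ZMod 2) (Additive.ofMul v)).1 hv
  obtain ⟨f, hf⟩ := not_forall.1 h
  refine ⟨MonoidHom.mk' (fun n => (-1 : ℤˣ) ^ f (Additive.ofMul n)) fun a b => by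
    rw [ofMul_mul, map_add, uzpow_add], ?_⟩
  change (-1 : ℤˣ) ^ f (Additive.ofMul v) ≠ 1
  generalize f (Additive.ofMul v) = z at hf
  revert z
  decide

/-- the dual module of a complemented minimal normal `2`-subgroup -/
lemma dual_module {G H : Type} [Group G] [Finite G] [Group H] (π : G →* H) (σ : H →* G)
    (hπσ : ∀ h, π (σ h) = h) (hcomm : ∀ x ∈ π.ker, ∀ y ∈ π.ker, x * y = y * x)
    (h2 : ∀ x ∈ π.ker, x ^ 2 = 1) (hG : ISR G) (h0 : π.ker ≠ ⊥)
    (hmin : ∀ M : Subgroup G, M.Normal → M ≠ ⊥ → M ≤ π.ker → M = π.ker)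
    (hf : ∀ h : H, (∀ n ∈ π.ker, σ h * n = n * σ h) → h = 1) {c : H} (hc : c ≠ 1) :
    ∃ (W : Type) (_ : AddCommGroup W) (_ : Module (ZMod 2) W) (_ : Finite W) (_ : Nontrivial W)
      (ρ : H →* Module.End (ZMod 2) W),
      (∀ w : W, w ≠ 0 → ∃ s : H, ρ c (ρ s w) ≠ ρ s w) ∧ ∀ w : W, ISR (stab ρ w) := by
  letI : Module (ZMod 2) (Additive (π.ker →* ℤˣ)) := AddCommGroup.zmodModule fun x =>
    Additive.toMul.injective (MonoidHom.ext fun n => Int.units_sq _)
  let r : H → Additive (π.ker →* ℤˣ) →+ Additive (π.ker →* ℤˣ) := fun h =>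
    AddMonoidHom.mk' (fun w => Additive.ofMul
      (w.toMul.comp (MulAut.conjNormal (σ h⁻¹)).toMonoidHom)) fun _ _ => rfl
  let ρ : H →* Module.End (ZMod 2) (Additive (π.ker →* ℤˣ)) :=
    { toFun := fun h => (r h).toZModLinearMap 2
      map_one' := LinearMap.ext fun w => Additive.toMul.injective (MonoidHom.ext fun n => by
        change w.toMul (MulAut.conjNormal (σ 1⁻¹) n) = w.toMul n
        rw [inv_one, map_one, map_one, MulAut.one_apply])
      map_mul' := fun a b => LinearMap.ext fun w => Additive.toMul.injective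
        (MonoidHom.ext fun n => by
          change w.toMul (MulAut.conjNormal (σ (a * b)⁻¹) n) =
            w.toMul (MulAut.conjNormal (σ b⁻¹) (MulAut.conjNormal (σ a⁻¹) n))
          rw [mul_inv_rev, map_mul, map_mul, MulAut.mul_apply]) }
  have hρ : ∀ h w n, (ρ h w).toMul n = w.toMul (MulAut.conjNormal (σ h⁻¹) n) := fun _ _ _ => rfl
  have hfin : Finite (π.ker →* ℤˣ) := DFunLike.finite _
  have hnt : Nontrivial (Additive (π.ker →* ℤˣ)) := by
    obtain ⟨v, hv⟩ := Subgroup.ne_bot_iff_exists_ne_one.1 h0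
    obtain ⟨lam, hlam⟩ := exists_sign π.ker hcomm h2 hv
    exact ⟨⟨Additive.ofMul lam, 0, fun e => hlam (DFunLike.congr_fun (congrArg Additive.toMul e) v)⟩⟩
  refine ⟨Additive (π.ker →* ℤˣ), inferInstance, inferInstance, inferInstance, hnt, ρ,
    fun w hw => ?_, fun w => descent π σ hπσ hcomm hG w.toMul _ fun s => ?_⟩
  · by_contra hcon
    push Not at hcon
    let M : Subgroup π.ker := ⨅ g : G, w.toMul.ker.comap (MulAut.conjNormal g).toMonoidHom
    have hM : ∀ n, n ∈ M ↔ ∀ g : G, w.toMul (MulAut.conjNormal g n) = 1 := fun n =>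
      Subgroup.mem_iInf
    have hn : (M.map π.ker.subtype).Normal := ⟨by
      rintro _ ⟨n, hn, rfl⟩ g
      refine ⟨MulAut.conjNormal g n, (hM _).2 fun g' => ?_, rfl⟩
      rw [← MulAut.mul_apply, ← map_mul]
      exact (hM n).1 hn _⟩
    have hb : M.map π.ker.subtype = ⊥ := by
      by_contra hb
      have e := hmin _ hn hb (Subgroup.map_subtype_le M)
      refine hw (Additive.toMul.injective (MonoidHom.ext fun n => ?_))
      obtain ⟨m, hm, e'⟩ : (n : G) ∈ M.map π.ker.subtype := e.symm ▸ n.2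
      have := (hM m).1 hm 1
      rwa [map_one, MulAut.one_apply, show m = n from Subtype.ext e'] at this
    refine hc (inv_eq_one.1 (hf _ fun n hn' => ?_))
    have h1 : MulAut.conjNormal (σ c⁻¹) (⟨n, hn'⟩ : π.ker) * (⟨n, hn'⟩ : π.ker)⁻¹ ∈ M := by
      refine (hM _).2 fun g => ?_
      have := congrArg (fun x => x.toMul ⟨n, hn'⟩) (hcon (π g)⁻¹)
      simp only [hρ, inv_inv, ← DescAux.conj_eq hπσ hcomm g] at this
      rw [map_mul, map_mul, this, map_inv, map_inv, mul_inv_cancel]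
    have h3 := Subgroup.mem_map_of_mem π.ker.subtype h1
    rw [hb, Subgroup.mem_bot] at h3
    have h4 : σ c⁻¹ * n * (σ c⁻¹)⁻¹ * n⁻¹ = 1 := h3
    rw [mul_inv_eq_one] at h4
    exact mul_inv_eq_iff_eq_mul.1 h4
  · rw [← Subgroup.inv_mem_iff, mem_stab]
    constructor
    · intro e n
      have := congrArg (fun x => x.toMul n) e
      simpa only [hρ, inv_inv] using this
    · intro e
      refine Additive.toMul.injective (MonoidHom.ext fun n => ?_)
      rw [hρ, inv_inv, e]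

lemma eq_one_of_odd {G : Type} [Group G] {v : G} (hv : v * v = 1) {k : ℕ} (hk : Odd k)
    (h : v ^ k = 1) : v = 1 := by
  obtain ⟨m, rfl⟩ := hk
  rwa [pow_succ, pow_mul, sq, hv, one_pow, one_mul] at h

/-- the complement of the minimal normal subgroup -/
lemma exists_section {G : Type} [Group G] [Finite G] (N : Subgroup G) [N.Normal]
    (hcomm : ∀ x ∈ N, ∀ y ∈ N, x * y = y * x)
    (hmin : ∀ M : Subgroup G, M.Normal → M ≠ ⊥ → M ≤ N → M = N) {v : G} (hv1 : v ≠ 1)
    (hv2 : v * v = 1) (hvN : v ∈ N) (hv : ∀ M : Subgroup G, M.Normal → M ≠ ⊥ → v ∈ M)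
    (R : Subgroup (G ⧸ N)) [R.Normal] (hR : R ≠ ⊥) {q : ℕ} (hq : q.Prime) (hq2 : Odd q)
    (hRq : ∀ x ∈ R, x ^ q = 1) :
    ∃ σ : G ⧸ N →* G, (∀ h, QuotientGroup.mk' N (σ h) = h) ∧
      ∀ h, (∀ n ∈ N, σ h * n = n * σ h) → h = 1 := by
  have := Fact.mk hq
  have hsurj := QuotientGroup.mk'_surjective N
  obtain ⟨Q⟩ : Nonempty (Sylow q (R.comap (QuotientGroup.mk' N))) := Sylow.nonempty
  set Q' : Subgroup G := Subgroup.map (R.comap (QuotientGroup.mk' N)).subtype Q with hQ'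
  set H₀ : Subgroup G := Subgroup.normalizer (Q' : Set G) with hH₀
  have hQR : ∀ r ∈ R, ∃ x ∈ Q', QuotientGroup.mk' N x = r := by
    intro r hr
    have h1 := (Q.mapSurjective (MonoidHom.subgroupComap_surjective_of_surjective _ R
      hsurj)).is_maximal' (Q := ⊤) (fun x => ⟨1, by
        rw [pow_one]
        exact Subtype.ext (Subtype.ext (hRq _ x.1.2))⟩) le_top
    have h2 : (⟨r, hr⟩ : R) ∈ Subgroup.map ((QuotientGroup.mk' N).subgroupComap R) Q :=
      h1.le (Subgroup.mem_top _)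
    obtain ⟨x, hx, e⟩ := h2
    exact ⟨x, Subgroup.mem_map_of_mem _ hx, congrArg Subtype.val e⟩
  have hH : ∀ y : G ⧸ N, ∃ x ∈ H₀, QuotientGroup.mk' N x = y := by
    have h1 := congrArg (Subgroup.map (QuotientGroup.mk' N)) (Sylow.normalizer_sup_eq_top Q)
    rw [Subgroup.map_sup, Subgroup.map_top_of_surjective _ hsurj,
      Subgroup.map_comap_eq_self_of_surjective hsurj, sup_eq_left.2] at h1
    · intro y
      exact h1.ge (Subgroup.mem_top y)
    · intro r hr
      obtain ⟨x, hx, e⟩ := hQR r hr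
      exact ⟨x, Subgroup.le_normalizer hx, e⟩
  have hdec : ∀ g : G, ∃ x ∈ H₀, ∃ n ∈ N, g = x * n := fun g => by
    obtain ⟨x, hx, e⟩ := hH (QuotientGroup.mk' N g)
    exact ⟨x, hx, x⁻¹ * g, QuotientGroup.eq.1 e, by group⟩
  have hnorm : ∀ D : Subgroup G, D.Normal → (∀ d ∈ D, ∀ n ∈ N, n * d = d * n) →
      (H₀ ⊓ D).Normal := fun D hD hc => ⟨by
    rintro d ⟨d1, d2⟩ g
    obtain ⟨x, hx, n, hn, rfl⟩ := hdec g
    have e : x * n * d * (x * n)⁻¹ = x * d * x⁻¹ := by
      rw [mul_assoc x n d, hc d d2 n hn]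
      group
    rw [e]
    exact ⟨H₀.mul_mem (H₀.mul_mem hx d1) (H₀.inv_mem hx), hD.conj_mem d d2 x⟩⟩
  have hNH : H₀ ⊓ N = ⊥ := by
    by_contra hne
    have h1 := hmin _ (hnorm N inferInstance fun d hd n hn => hcomm n hn d hd) hne inf_le_right
    have h2 : H₀ = ⊤ := by
      rw [eq_top_iff]
      intro g _
      obtain ⟨x, hx, n, hn, rfl⟩ := hdec g
      exact mul_mem hx (h1.ge hn).1
    have h3 : Q' ≠ ⊥ := by
      intro h3
      refine hR (eq_bot_iff.2 fun r hr => ?_)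
      obtain ⟨x, hx, rfl⟩ := hQR r hr
      rw [h3, Subgroup.mem_bot] at hx
      rw [hx, map_one]
      exact one_mem _
    obtain ⟨k, hk⟩ := (Q.isPGroup'.map (R.comap (QuotientGroup.mk' N)).subtype)
      ⟨v, hv Q' (Subgroup.normalizer_eq_top_iff.1 h2) h3⟩
    exact hv1 (eq_one_of_odd hv2 hq2.pow (congrArg Subtype.val hk))
  have hCH : H₀ ⊓ Subgroup.centralizer (N : Set G) = ⊥ := by
    by_contra hne
    have h1 := hv _ (hnorm (Subgroup.centralizer (N : Set G)) inferInstance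
      fun d hd n hn => hd n hn) hne
    exact hv1 (Subgroup.mem_bot.1 (hNH ▸ (⟨h1.1, hvN⟩ : v ∈ H₀ ⊓ N)))
  have hbij : Function.Bijective ((QuotientGroup.mk' N).comp H₀.subtype) := by
    refine ⟨(injective_iff_map_eq_one _).2 fun x hx => Subtype.ext (Subgroup.mem_bot.1 ?_),
      fun y => ?_⟩
    · exact hNH ▸ (⟨x.2, (QuotientGroup.eq_one_iff _).1 hx⟩ : (x : G) ∈ H₀ ⊓ N)
    · obtain ⟨x, hx, e⟩ := hH y
      exact ⟨⟨x, hx⟩, e⟩
  let e := MulEquiv.ofBijective _ hbij
  refine ⟨H₀.subtype.comp e.symm.toMonoidHom, fun h => e.apply_symm_apply h, fun h hh => ?_⟩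
  have h1 : ((e.symm h : H₀) : G) ∈ H₀ ⊓ Subgroup.centralizer (N : Set G) :=
    ⟨(e.symm h).2, fun n hn => (hh n hn).symm⟩
  rw [hCH, Subgroup.mem_bot] at h1
  rw [← e.apply_symm_apply h, show e.symm h = 1 from Subtype.ext h1, map_one]

lemma mem_closure_map {G H : Type} [Group G] [Group H] (f : G →* H) {c x : G}
    (h : x ∈ Subgroup.normalClosure ({c} : Set G)) :
    f x ∈ Subgroup.normalClosure ({f c} : Set H) := by
  have h1 : Subgroup.normalClosure ({c} : Set G) ≤
      (Subgroup.normalClosure ({f c} : Set H)).comap f := by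
    apply Subgroup.normalClosure_le_normal
    rintro _ rfl
    exact Subgroup.subset_normalClosure (Set.mem_singleton _)
  exact h1 h

end RedAux

open RedAux in
/-- Step 1 (with Step 2): reduction to a module over the field with two elements all of whose
vector stabilisers are inverse semi-rational. -/
theorem reduce (G : Type) [Group G] [Finite G] [Group.IsSolvable G] (hG : ISR G) (c v : G)
    (hc : c ^ 3 = 1) (hv : v ∈ Subgroup.normalClosure ({c} : Set G)) (hv1 : v ≠ 1)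
    (hv2 : v * v = 1) :
    ∃ (H W : Type) (_ : Group H) (_ : Finite H) (_ : Group.IsSolvable H) (_ : AddCommGroup W)
      (_ : Module (ZMod 2) W) (_ : Finite W) (_ : Nontrivial W)
      (ρ : H →* Module.End (ZMod 2) W) (π : G →* H),
      (∀ w : W, w ≠ 0 → ∃ s : H, ρ (π c) (ρ s w) ≠ ρ s w) ∧ ∀ w : W, ISR (stab ρ w) := by
  induction hn : Nat.card G using Nat.strong_induction_on generalizing G with
  | _ n ih =>
  set L := Subgroup.normalClosure ({c} : Set G) with hL
  by_cases hA : ∃ N : Subgroup G, N.Normal ∧ N ≠ ⊥ ∧ ∃ x ∈ L, x * x ∈ N ∧ x ∉ N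
  · obtain ⟨N, hN, hN0, x, hx, hx2, hx1⟩ := hA
    have hlt : Nat.card (G ⧸ N) < n := by
      rw [← hn, Subgroup.card_eq_card_quotient_mul_card_subgroup N]
      exact lt_mul_of_one_lt_right Nat.card_pos ((Subgroup.one_lt_card_iff_ne_bot N).2 hN0)
    obtain ⟨H, W, _, _, _, _, _, _, _, ρ, π, h1, h2⟩ := ih _ hlt (G ⧸ N)
      (hG.of_surjective _ (QuotientGroup.mk'_surjective N)) (QuotientGroup.mk' N c)
      (QuotientGroup.mk' N x) (by rw [← map_pow, hc, map_one]) (mem_closure_map _ hx)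
      (fun e => hx1 ((QuotientGroup.eq_one_iff x).1 e))
      (by rw [← map_mul]; exact (QuotientGroup.eq_one_iff _).2 hx2) rfl
    exact ⟨H, W, ‹_›, ‹_›, ‹_›, ‹_›, ‹_›, ‹_›, ‹_›, ρ, π.comp (QuotientGroup.mk' N), h1, h2⟩
  push Not at hA
  have hvM : ∀ M : Subgroup G, M.Normal → M ≠ ⊥ → v ∈ M := fun M hM hM0 =>
    hA M hM hM0 v hv (hv2 ▸ M.one_mem)
  have hL0 : L ≠ ⊥ := fun e => hv1 (Subgroup.mem_bot.1 (e ▸ hv))
  obtain ⟨N, hN, hN0, -, hmin, hcomm, p, hp, hNp⟩ := exists_min_normal L hL0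
  have hvN := hvM N hN hN0
  have hp2 : p = 2 := hp.eq_two_or_odd'.resolve_right fun ho =>
    hv1 (eq_one_of_odd hv2 ho (hNp v hvN))
  subst hp2
  have hcN : QuotientGroup.mk' N c ≠ 1 := by
    intro e
    have h1 := hNp c ((QuotientGroup.eq_one_iff c).1 e)
    rw [pow_succ, h1, one_mul] at hc
    refine hL0 (eq_bot_iff.2 (Subgroup.normalClosure_le_normal ?_))
    rintro _ rfl
    exact hc
  have hsurj := QuotientGroup.mk'_surjective N
  have : (L.map (QuotientGroup.mk' N)).Normal := Subgroup.Normal.map inferInstance _ hsurj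
  obtain ⟨R, hR, hR0, hRL, -, -, q, hq, hRq⟩ := exists_min_normal (L.map (QuotientGroup.mk' N))
    fun e => hcN (Subgroup.mem_bot.1 (e ▸ Subgroup.mem_map_of_mem _
      (Subgroup.subset_normalClosure (Set.mem_singleton c))))
  have hq2 : Odd q := hq.eq_two_or_odd'.resolve_left fun e => by
    refine hR0 (eq_bot_iff.2 fun r hr => ?_)
    obtain ⟨x, hx, rfl⟩ := hRL hr
    have h1 := hRq _ hr
    rw [e, sq, ← map_mul] at h1
    exact (QuotientGroup.eq_one_iff x).2 (hA N hN hN0 x hx ((QuotientGroup.eq_one_iff _).1 h1))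
  obtain ⟨σ, hσ, hf⟩ := exists_section N hcomm hmin hv1 hv2 hvN hvM R hR0 hq hq2 hRq
  have hk := QuotientGroup.ker_mk' N
  obtain ⟨W, _, _, _, _, ρ, h1, h2⟩ := dual_module (QuotientGroup.mk' N) σ hσ
    (by rw [hk]; exact hcomm) (by rw [hk]; exact hNp) hG (by rw [hk]; exact hN0)
    (by rw [hk]; exact hmin) (by rw [hk]; exact hf) hcN
  exact ⟨G ⧸ N, W, inferInstance, inferInstance, inferInstance, ‹_›, ‹_›, ‹_›, ‹_›, ρ,
    QuotientGroup.mk' N, h1, h2⟩

end Pool.Agent.P.MP_ac4bd0_al.No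
end

-- part Pool.Agent.P.MP_ac4bd0_al.No.LemP
section

set_option autoImplicit false

namespace Pool.Agent.P.MP_ac4bd0_al.No

open Equiv

/-- Orbits of a minimal normal subgroup of a solvable permutation group containing all
translations of a finite abelian group are the cosets of a subgroup of prime power order. -/
theorem orbit_sub {G A : Type} [Group G] [Finite G] [Group.IsSolvable G] [AddCommGroup A]
    [Finite A] [Nontrivial A] (f : G →* Perm A) (hf : Function.Injective f)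
    (htr : ∀ z : A, ∃ s : G, ∀ x, f s x = x + z) :
    ∃ (N : Subgroup G) (r : ℕ) (Y : AddSubgroup A), N.Normal ∧ N ≠ ⊥ ∧
      (∀ x ∈ N, ∀ y ∈ N, x * y = y * x) ∧ r.Prime ∧ IsPGroup r N ∧ Y ≠ ⊥ ∧
      (∃ k : ℕ, Nat.card Y = r ^ k) ∧ ∀ (s : G) (x y : A), x - y ∈ Y → f s x - f s y ∈ Y := by
  have htop : (⊤ : Subgroup G) ≠ ⊥ := by
    intro h
    obtain ⟨z, hz⟩ := exists_ne (0 : A)
    obtain ⟨s, hs⟩ := htr z
    have h1 : s = 1 := by
      have : s ∈ (⊤ : Subgroup G) := Subgroup.mem_top s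
      rwa [h, Subgroup.mem_bot] at this
    have h2 := hs 0
    rw [h1, map_one, zero_add] at h2
    exact hz h2.symm
  obtain ⟨N, hN, hN0, -, -, hcomm, r, hr, hpow⟩ := exists_min_normal (⊤ : Subgroup G) htop
  let R : A → A → Prop := fun x y => ∃ n ∈ N, f n y = x
  have Rconj : ∀ (s : G) (x y : A), R x y → R (f s x) (f s y) := by
    rintro s x y ⟨n, hn, rfl⟩
    refine ⟨s * n * s⁻¹, hN.conj_mem n hn s, ?_⟩
    simp
  have Radd : ∀ x y z : A, R x y → R (x + z) (y + z) := by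
    intro x y z h
    obtain ⟨s, hs⟩ := htr z
    rw [← hs, ← hs]
    exact Rconj s x y h
  have Rsymm : ∀ x y : A, R x y → R y x := by
    rintro x y ⟨n, hn, rfl⟩
    exact ⟨n⁻¹, N.inv_mem hn, by simp⟩
  have Rtrans : ∀ x y z : A, R x y → R y z → R x z := by
    rintro x y z ⟨n, hn, rfl⟩ ⟨m, hm, rfl⟩
    exact ⟨n * m, N.mul_mem hn hm, by simp⟩
  let Y : AddSubgroup A :=
    { carrier := {y | R y 0}
      zero_mem' := ⟨1, N.one_mem, by simp⟩
      add_mem' := by
        intro x y hx hy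
        have h1 := Radd x 0 y hx
        rw [zero_add] at h1
        exact Rtrans _ _ _ h1 hy
      neg_mem' := by
        intro x hx
        have h1 := Radd x 0 (-x) hx
        rw [zero_add, add_neg_cancel] at h1
        exact Rsymm _ _ h1 }
  have hY : ∀ x y : A, x - y ∈ Y ↔ R x y := by
    intro x y
    constructor
    · intro h
      have h1 := Radd _ _ y h
      rwa [sub_add_cancel, zero_add] at h1
    · intro h
      have h1 := Radd _ _ (-y) h
      rw [add_neg_cancel, ← sub_eq_add_neg] at h1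
      exact h1
  have hP : IsPGroup r N := by
    intro x
    exact ⟨1, Subtype.ext (by simpa using hpow x x.2)⟩
  refine ⟨N, r, Y, hN, hN0, hcomm, hr, hP, ?_, ?_, ?_⟩
  · intro h0
    apply hN0
    rw [eq_bot_iff]
    intro n hn
    rw [Subgroup.mem_bot]
    apply hf
    rw [map_one]
    ext x
    have h1 : f n x - x ∈ Y := (hY _ _).mpr ⟨n, hn, rfl⟩
    rw [h0, AddSubgroup.mem_bot, sub_eq_zero] at h1
    simpa using h1
  · have := Fact.mk hr
    let _ : MulAction N A := MulAction.compHom A (f.comp N.subtype)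
    obtain ⟨k, hk⟩ := hP.card_orbit (0 : A)
    refine ⟨k, ?_⟩
    rw [← hk]
    apply Nat.card_congr
    refine Equiv.setCongr (s := (Y : Set A)) ?_
    ext y
    constructor
    · rintro ⟨n, hn, rfl⟩
      exact ⟨⟨n, hn⟩, rfl⟩
    · rintro ⟨n, rfl⟩
      exact ⟨n.1, n.2, rfl⟩
  · intro s x y h
    exact (hY _ _).mpr (Rconj s x y ((hY _ _).mp h))

theorem affine_of_step {p : ℕ} [NeZero p] (g : ZMod p → ZMod p) (k : ZMod p)
    (h : ∀ x, g (x + 1) = g x + k) (x : ZMod p) : g x = k * x + g 0 := by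
  have : ∀ n : ℕ, g n = k * n + g 0 := by
    intro n
    induction n with
    | zero => simp
    | succ n ih => rw [Nat.cast_succ, h, ih]; ring
  rw [← ZMod.natCast_zmod_val x, this]

/-- Lemma Q for a faithful action. -/
theorem lemmaQ_inj {G : Type} [Group G] [Finite G] [Group.IsSolvable G] {p : ℕ}
    [hp : Fact p.Prime] (f : G →* Perm (ZMod p)) (hf : Function.Injective f)
    (htr : ∀ z : ZMod p, ∃ s : G, ∀ x, f s x = x + z) (t : G) :
    ∃ k : ZMod p, ∀ x, f t x = k * x + f t 0 := by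
  classical
  obtain ⟨N, r, Y, hN, hN0, hcomm, hr, hP, hY0, ⟨k, hk⟩, -⟩ := orbit_sub f hf htr
  have hYc : Nat.card Y = p := by
    have h1 : Nat.card Y ∣ p := by
      have := AddSubgroup.card_addSubgroup_dvd_card Y
      rwa [Nat.card_zmod] at this
    rcases (Nat.dvd_prime hp.out).mp h1 with h | h
    · exact absurd (AddSubgroup.eq_bot_of_card_eq Y h) hY0
    · exact h
  have hrp : r = p := by
    rw [hYc] at hk
    have : p ∣ r ^ k := hk ▸ dvd_rfl
    exact ((Nat.prime_dvd_prime_iff_eq hp.out hr).mp (hp.out.dvd_of_dvd_pow this)).symm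
  subst hrp
  obtain ⟨τ, hτ⟩ := htr 1
  have hτn : ∀ (n : ℕ) (x : ZMod r), f (τ ^ n) x = x + n := by
    intro n
    induction n with
    | zero => simp
    | succ n ih =>
      intro x
      rw [pow_succ, map_mul, Perm.mul_apply, ih, hτ, Nat.cast_succ]
      ring
  have hτp : τ ^ r = 1 := by
    apply hf
    ext x
    rw [hτn]
    simp
  let _ : Fintype N := Fintype.ofFinite N
  have hdvd : r ∣ Fintype.card N := by
    obtain ⟨n, hn⟩ := IsPGroup.iff_card.mp hP
    rw [← Nat.card_eq_fintype_card, hn]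
    apply dvd_pow_self
    rintro rfl
    exact hN0 (Subgroup.eq_bot_of_card_eq N (by simpa using hn))
  let σ : Perm N := MulAut.toPerm N (MulAut.conjNormal τ)
  have hσ : σ ^ r ^ 1 = 1 := by
    rw [pow_one, ← map_pow, ← map_pow, hτp, map_one, map_one]
  obtain ⟨m, hm, hm1⟩ := Perm.exists_fixed_point_of_prime' hdvd hσ (a := 1)
    (map_one (MulAut.conjNormal τ))
  have hm2 : τ * m = m * τ := by
    have := congrArg Subtype.val hm
    simp only [σ, MulAut.toPerm, MonoidHom.coe_mk, OneHom.coe_mk, MulEquiv.toEquiv_eq_coe,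
      EquivLike.coe_coe, MulAut.conjNormal_apply] at this
    rw [mul_inv_eq_iff_eq_mul] at this
    exact this
  have hm3 : ∀ x, f m x = x + f m 0 := by
    intro x
    have := affine_of_step (f m) 1 (fun x => by
      rw [← hτ, ← hτ, ← Perm.mul_apply, ← map_mul, ← hm2, map_mul, Perm.mul_apply]) x
    rwa [one_mul] at this
  have hc : f m 0 ≠ 0 := by
    intro h0
    apply hm1
    apply Subtype.ext
    apply hf
    ext x
    rw [hm3, h0]
    simp
  have hmn : ∀ (n : ℕ) (x : ZMod r), f ((m : G) ^ n) x = x + n * f m 0 := by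
    intro n
    induction n with
    | zero => simp
    | succ n ih =>
      intro x
      rw [pow_succ, map_mul, Perm.mul_apply, ih, hm3 x, Nat.cast_succ]
      ring
  have hτN : τ ∈ N := by
    have : τ = (m : G) ^ ((f m 0)⁻¹).val := by
      apply hf
      ext x
      rw [hmn, hτ, ZMod.natCast_zmod_val, inv_mul_cancel₀ hc]
    rw [this]
    exact N.pow_mem m.2 _
  have hconj : t * τ * t⁻¹ ∈ N := hN.conj_mem τ hτN t
  have hc2 := hcomm _ hconj τ hτN
  have hc3 : ∀ x, f (t * τ * t⁻¹) x = x + f (t * τ * t⁻¹) 0 := by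
    intro x
    have := affine_of_step (f (t * τ * t⁻¹)) 1 (fun x => by
      rw [← hτ, ← hτ, ← Perm.mul_apply, ← map_mul, hc2, map_mul, Perm.mul_apply]) x
    rwa [one_mul] at this
  refine ⟨f (t * τ * t⁻¹) 0, affine_of_step _ _ fun x => ?_⟩
  rw [← hc3, ← hτ]
  simp

/-- Lemma Q: a solvable group acting on `ZMod p` with all translations acts by affine maps. -/
theorem lemmaQ {G : Type} [Group G] [Group.IsSolvable G] {p : ℕ}
    [hp : Fact p.Prime] (f : G →* Perm (ZMod p))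
    (htr : ∀ z : ZMod p, ∃ s : G, ∀ x, f s x = x + z) (t : G) (x : ZMod p) :
    f t x = (f t 1 - f t 0) * x + f t 0 := by
  have : Group.IsSolvable f.range := Group.isSolvable_of_surjective f.rangeRestrict_surjective
  obtain ⟨k, hk⟩ := lemmaQ_inj f.range.subtype Subtype.val_injective (fun z => by
    obtain ⟨s, hs⟩ := htr z
    exact ⟨⟨f s, s, rfl⟩, hs⟩) ⟨f t, t, rfl⟩
  have hk' : ∀ x, f t x = k * x + f t 0 := hk
  rw [hk' x, hk' 1]
  ring

/-- Slopes of an imprimitive solvable action on `ZMod p × ZMod q`. -/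
theorem slopes {T : Type} [Group T] [Group.IsSolvable T] {p q : ℕ} [Fact p.Prime] [Fact q.Prime]
    (f : T →* Perm (ZMod p × ZMod q)) (htr : ∀ z, ∃ s : T, ∀ x, f s x = x + z)
    (hblock : ∀ (t : T) (x y : ZMod p × ZMod q), x.2 = y.2 → (f t x).2 = (f t y).2) :
    ∃ (d : T →* ZMod p) (d' : T →* ZMod q), ∀ (t : T) (k : ZMod p) (k' : ZMod q),
      (∀ x, f t (x + (1, 0)) = f t x + (k, 0)) → (∀ x, f t (x + (0, 1)) = f t x + (0, k')) →
      d t = k ^ q ∧ d' t = k' := by
  classical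
  let g₀ : T →* Function.End (ZMod q) :=
    { toFun := fun t j => (f t (0, j)).2
      map_one' := by
        funext j
        simp
        rfl
      map_mul' := by
        intro s t
        funext j
        show (f (s * t) (0, j)).2 = (f s (0, (f t (0, j)).2)).2
        rw [map_mul, Perm.mul_apply]
        exact hblock _ _ _ rfl }
  let g : T →* Perm (ZMod q) := g₀.toHomPerm
  have hg : ∀ t j, g t j = (f t (0, j)).2 := fun t j => rfl
  have hg' : ∀ t x, (f t x).2 = g t x.2 := fun t x => hblock _ _ _ rfl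
  have hQ := lemmaQ g (fun z => by
    obtain ⟨s, hs⟩ := htr (0, z)
    exact ⟨s, fun x => by rw [hg, hs]; rfl⟩)
  let T₀ : Subgroup T :=
    { carrier := {t | g t 0 = 0}
      one_mem' := by simp
      mul_mem' := by
        intro s t hs ht
        have hs' : g s 0 = 0 := hs
        have ht' : g t 0 = 0 := ht
        show g (s * t) 0 = 0
        rw [map_mul, Perm.mul_apply, ht', hs']
      inv_mem' := by
        intro s hs
        have hs' : g s 0 = 0 := hs
        show g s⁻¹ 0 = 0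
        rw [map_inv, Perm.inv_eq_iff_eq, hs'] }
  let h₀ : T₀ →* Function.End (ZMod p) :=
    { toFun := fun t i => (f t (i, 0)).1
      map_one' := by
        funext j
        simp
        rfl
      map_mul' := by
        intro s t
        funext i
        show (f (s * t) (i, 0)).1 = (f s ((f t (i, 0)).1, 0)).1
        have ht : (f t (i, 0)).2 = 0 := by
          rw [hg']
          exact t.2
        rw [map_mul, Perm.mul_apply]
        congr 2
        exact Prod.ext rfl ht }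
  let h : T₀ →* Perm (ZMod p) := h₀.toHomPerm
  have hh : ∀ (t : T₀) i, h t i = (f t (i, 0)).1 := fun t j => rfl
  have hQ' := lemmaQ h (fun z => by
    obtain ⟨s, hs⟩ := htr (z, 0)
    refine ⟨⟨s, ?_⟩, fun x => by rw [hh, hs]; rfl⟩
    show g s 0 = 0
    rw [hg, hs]
    simp)
  let m : T → ZMod q → ZMod p := fun t j => (f t (1, j)).1 - (f t (0, j)).1
  have hm : ∀ t i j, (f t (i, j)).1 = m t j * i + (f t (0, j)).1 := by
    intro t i j
    obtain ⟨s, hs⟩ := htr (0, j)
    obtain ⟨s', hs'⟩ := htr (0, -g t j)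
    have e : ∀ i, f (s' * t * s) (i, 0) = f t (i, j) + (0, -g t j) := by
      intro i
      rw [map_mul, map_mul, Perm.mul_apply, Perm.mul_apply, hs, hs']
      simp
    have hmem : s' * t * s ∈ T₀ := by
      show g (s' * t * s) 0 = 0
      rw [hg, e, hg]
      simp
    have := hQ' ⟨_, hmem⟩ i
    simp only [hh, e, Prod.fst_add, add_zero] at this
    exact this
  have hmm : ∀ s t j, m (s * t) j = m s (g t j) * m t j := by
    intro s t j
    have e : ∀ i, (f (s * t) (i, j)).1 =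
        m s (g t j) * (f t (i, j)).1 + (f s (0, g t j)).1 := by
      intro i
      rw [map_mul, Perm.mul_apply, ← hm]
      congr 2
      exact Prod.ext rfl (hg' _ _)
    show (f (s * t) (1, j)).1 - (f (s * t) (0, j)).1 = _
    rw [e, e]
    simp only [m]
    ring
  let d : T →* ZMod p :=
    { toFun := fun t => ∏ j, m t j
      map_one' := by simp [m]
      map_mul' := by
        intro s t
        simp only [hmm, Finset.prod_mul_distrib]
        rw [Equiv.prod_comp (g t) (fun j => m s j)] }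
  let d' : T →* ZMod q :=
    { toFun := fun t => g t 1 - g t 0
      map_one' := by simp
      map_mul' := by
        intro s t
        rw [map_mul, Perm.mul_apply, Perm.mul_apply, hQ s (g t 1), hQ s (g t 0)]
        ring }
  refine ⟨d, d', fun t k k' hk hk' => ⟨?_, ?_⟩⟩
  · show ∏ j, m t j = k ^ q
    have : ∀ j, m t j = k := by
      intro j
      have := congrArg Prod.fst (hk (0, j))
      simp only [Prod.mk_add_mk, zero_add, add_zero, Prod.fst_add] at this
      simp only [m]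
      rw [this]
      ring
    simp [this, ZMod.card]
  · show g t 1 - g t 0 = k'
    have := congrArg Prod.snd (hk' (0, 0))
    simp only [Prod.mk_add_mk, zero_add, add_zero, Prod.snd_add] at this
    rw [hg, hg, this]
    ring

theorem gen5 : ∀ y : ZMod 5 × ZMod 7, y.1 ≠ 0 → ∀ i : ZMod 5, ∃ n : Fin 35,
    ((i, 0) : ZMod 5 × ZMod 7) = n.val • y := by decide

theorem gen7 : ∀ y : ZMod 5 × ZMod 7, y.2 ≠ 0 → ∀ j : ZMod 7, ∃ n : Fin 35,
    ((0, j) : ZMod 5 × ZMod 7) = n.val • y := by decide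

instance fact5 : Fact (Nat.Prime 5) := ⟨by norm_num⟩

instance fact7 : Fact (Nat.Prime 7) := ⟨by norm_num⟩

/-- Lemma P: no solvable inverse semi-rational group acts on 35 points with a 35-cycle. -/
theorem lemmaP {T : Type} [Group T] [Finite T] [Group.IsSolvable T] (hT : ISR T)
    (f : T →* Equiv.Perm (ZMod 5 × ZMod 7)) (a b : T) (ha : ∀ x, f a x = x + (1, 0))
    (hb : ∀ x, f b x = x + (0, 1)) : False := by
  have hpow : ∀ (σ : Perm (ZMod 5 × ZMod 7)) (z : ZMod 5 × ZMod 7), (∀ x, σ x = x + z) →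
      ∀ (n : ℕ) x, (σ ^ n) x = x + n • z := by
    intro σ z hσ n
    induction n with
    | zero => simp
    | succ n ih =>
      intro x
      rw [pow_succ, Perm.mul_apply, ih, hσ, succ_nsmul]
      abel
  have htr : ∀ z, ∃ s : T, ∀ x, f s x = x + z := by
    intro z
    refine ⟨a ^ z.1.val * b ^ z.2.val, fun x => ?_⟩
    rw [map_mul, map_pow, map_pow, Perm.mul_apply, hpow _ _ ha, hpow _ _ hb]
    ext <;> simp
  have hy : ∀ x, f (a * b) x = x + (1, 1) := by
    intro x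
    rw [map_mul, Perm.mul_apply, ha, hb]
    ext <;> simp
  -- the element `t` normalising the 35-cycle
  obtain ⟨t, ht⟩ := hT.use f (a * b) 35 2 (by norm_num) (by
    ext1 x
    rw [hpow _ _ hy]
    have : 35 • ((1, 1) : ZMod 5 × ZMod 7) = 0 := by decide
    rw [this]
    simp) (by norm_num)
  have hk : ∃ (k : ZMod 5) (k' : ZMod 7), (k = 2 ∧ k' = 2 ∨ k = -2 ∧ k' = -2) ∧
      ∀ x, f t (x + (1, 1)) = f t x + (k, k') := by
    rcases ht with ht | ht
    · refine ⟨2, 2, Or.inl ⟨rfl, rfl⟩, fun x => ?_⟩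
      have := congrArg (fun σ : Perm (ZMod 5 × ZMod 7) => σ (f t x)) ht
      simp only [Perm.mul_apply, Perm.coe_inv, Equiv.symm_apply_apply, hy, hpow _ _ hy] at this
      rw [this]
      congr 1
    · refine ⟨-2, -2, Or.inr ⟨rfl, rfl⟩, fun x => ?_⟩
      have := congrArg (fun σ : Perm (ZMod 5 × ZMod 7) => σ (f t x)) ht
      simp only [Perm.mul_apply, Perm.coe_inv, Equiv.symm_apply_apply, hy] at this
      rw [this, Equiv.symm_apply_eq, hpow _ _ hy, add_assoc]
      have : ((-2, -2) : ZMod 5 × ZMod 7) + 2 • (1, 1) = 0 := by decide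
      rw [this, add_zero]
  obtain ⟨k, k', hkk, hk⟩ := hk
  have hkn : ∀ (n : ℕ) x, f t (x + n • (1, 1)) = f t x + n • (k, k') := by
    intro n
    induction n with
    | zero => simp
    | succ n ih =>
      intro x
      rw [succ_nsmul, ← add_assoc, hk, ih, succ_nsmul, add_assoc]
  have hk1 : ∀ x, f t (x + (1, 0)) = f t x + (k, 0) := by
    intro x
    have e1 : ((1, 0) : ZMod 5 × ZMod 7) = 21 • (1, 1) := by decide
    have e2 : ((k, 0) : ZMod 5 × ZMod 7) = 21 • (k, k') := by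
      rcases hkk with ⟨rfl, rfl⟩ | ⟨rfl, rfl⟩ <;> decide
    rw [e1, e2, hkn]
  have hk2 : ∀ x, f t (x + (0, 1)) = f t x + (0, k') := by
    intro x
    have e1 : ((0, 1) : ZMod 5 × ZMod 7) = 15 • (1, 1) := by decide
    have e2 : ((0, k') : ZMod 5 × ZMod 7) = 15 • (k, k') := by
      rcases hkk with ⟨rfl, rfl⟩ | ⟨rfl, rfl⟩ <;> decide
    rw [e1, e2, hkn]
  -- the two characters
  have hd : ∃ (d : T →* ZMod 5) (d' : T →* ZMod 7), (d t = k ^ 7 ∧ d' t = k') ∨
      (d t = k ∧ d' t = k' ^ 5) := by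
    have : Group.IsSolvable f.range := Group.isSolvable_of_surjective f.rangeRestrict_surjective
    obtain ⟨N, r, Y, -, -, -, hr, -, hY0, ⟨n, hn⟩, hY⟩ :=
      orbit_sub f.range.subtype Subtype.val_injective (fun z => by
        obtain ⟨s, hs⟩ := htr z
        exact ⟨⟨f s, s, rfl⟩, hs⟩)
    have hY' : ∀ (s : T) x y, x - y ∈ Y → f s x - f s y ∈ Y :=
      fun s x y h => hY ⟨f s, s, rfl⟩ x y h
    have hYtop : Y ≠ ⊤ := by
      rintro rfl
      have h35 : r ^ n = 35 := by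
        rw [← hn]
        simp
      have h5 : 5 ∣ r := (by norm_num : Nat.Prime 5).dvd_of_dvd_pow (n := n) (by rw [h35]; norm_num)
      have h7 : 7 ∣ r := (by norm_num : Nat.Prime 7).dvd_of_dvd_pow (n := n) (by rw [h35]; norm_num)
      have e5 := (Nat.prime_dvd_prime_iff_eq (by norm_num) hr).mp h5
      have e7 := (Nat.prime_dvd_prime_iff_eq (by norm_num) hr).mp h7
      omega
    have h1 : ∀ y ∈ Y, y.1 ≠ 0 → ∀ i : ZMod 5, ((i, 0) : ZMod 5 × ZMod 7) ∈ Y := by
      intro y hy hy1 i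
      obtain ⟨n, hn⟩ := gen5 y hy1 i
      rw [hn]
      exact Y.nsmul_mem hy _
    have h2 : ∀ y ∈ Y, y.2 ≠ 0 → ∀ j : ZMod 7, ((0, j) : ZMod 5 × ZMod 7) ∈ Y := by
      intro y hy hy1 j
      obtain ⟨n, hn⟩ := gen7 y hy1 j
      rw [hn]
      exact Y.nsmul_mem hy _
    have hboth : ¬ ((∃ y ∈ Y, y.1 ≠ 0) ∧ ∃ y ∈ Y, y.2 ≠ 0) := by
      rintro ⟨⟨y, hy, hy1⟩, z, hz, hz2⟩
      apply hYtop
      rw [eq_top_iff]
      rintro ⟨i, j⟩ -
      have := Y.add_mem (h1 y hy hy1 i) (h2 z hz hz2 j)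
      simpa using this
    obtain ⟨y, hy, hy0⟩ : ∃ y ∈ Y, y ≠ 0 := by
      by_contra hcon
      apply hY0
      rw [eq_bot_iff]
      intro y hy
      rw [AddSubgroup.mem_bot]
      by_contra h
      exact hcon ⟨y, hy, h⟩
    by_cases hy1 : y.1 = 0
    · have hy2 : y.2 ≠ 0 := fun h => hy0 (Prod.ext hy1 h)
      have hall : ∀ z ∈ Y, z.1 = 0 := by
        intro z hz
        by_contra h
        exact hboth ⟨⟨z, hz, h⟩, y, hy, hy2⟩
      let e : ZMod 5 × ZMod 7 ≃ ZMod 7 × ZMod 5 := Equiv.prodComm _ _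
      let f' : T →* Perm (ZMod 7 × ZMod 5) := (e.permCongrHom : _ →* _).comp f
      have hf' : ∀ s x, f' s x = (f s x.swap).swap := fun s x => rfl
      obtain ⟨d, d', hd⟩ := slopes f' (fun z => by
        obtain ⟨s, hs⟩ := htr z.swap
        exact ⟨s, fun x => by rw [hf', hs]; rfl⟩) (fun s x y hxy => by
          rw [hf', hf']
          have h3 : x.swap - y.swap ∈ Y := by
            have := h2 _ hy hy2 (x.1 - y.1)
            have e : x.swap - y.swap = (0, x.1 - y.1) := by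
              ext <;> simp [hxy]
            rwa [e]
          have := hall _ (hY' s _ _ h3)
          simpa [sub_eq_zero] using this)
      obtain ⟨h4, h5⟩ := hd t k' k (fun x => by
        rw [hf', hf']
        have := hk2 x.swap
        have e : (x + (1, 0)).swap = x.swap + (0, 1) := rfl
        rw [e, this]
        rfl) (fun x => by
        rw [hf', hf']
        have := hk1 x.swap
        have e : (x + (0, 1)).swap = x.swap + (1, 0) := rfl
        rw [e, this]
        rfl)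
      exact ⟨d', d, Or.inr ⟨h5, h4⟩⟩
    · have hall : ∀ z ∈ Y, z.2 = 0 := by
        intro z hz
        by_contra h
        exact hboth ⟨⟨y, hy, hy1⟩, z, hz, h⟩
      obtain ⟨d, d', hd⟩ := slopes f htr (fun s x z hxz => by
          have h3 : x - z ∈ Y := by
            have := h1 _ hy hy1 (x.1 - z.1)
            have e : x - z = (x.1 - z.1, 0) := by
              ext <;> simp [hxz]
            rwa [e]
          have := hall _ (hY' s _ _ h3)
          simpa [sub_eq_zero] using this)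
      exact ⟨d, d', Or.inl (hd t k k' hk1 hk2)⟩
  obtain ⟨d, d', hd⟩ := hd
  let D : T →* (ZMod 5 × ZMod 7)ˣ := (d.prod d').toHomUnits
  have hD : ((D t : (ZMod 5 × ZMod 7)ˣ) : ZMod 5 × ZMod 7) = (d t, d' t) := rfl
  obtain ⟨s, hs⟩ := hT.use D t 12 5 (by norm_num) (by
    apply Units.ext
    rw [Units.val_pow_eq_pow_val, hD]
    rcases hd with ⟨h1, h2⟩ | ⟨h1, h2⟩ <;> rw [h1, h2] <;>
      rcases hkk with ⟨rfl, rfl⟩ | ⟨rfl, rfl⟩ <;> decide) (by norm_num)
  rw [mul_comm (D s), mul_inv_cancel_right] at hs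
  rcases hs with hs | hs
  · have h := congrArg Units.val hs
    rw [Units.val_pow_eq_pow_val, hD] at h
    revert h
    rcases hd with ⟨h1, h2⟩ | ⟨h1, h2⟩ <;> rw [h1, h2] <;>
      rcases hkk with ⟨rfl, rfl⟩ | ⟨rfl, rfl⟩ <;> decide
  · rw [eq_inv_iff_mul_eq_one] at hs
    have h := congrArg Units.val hs
    rw [Units.val_mul, Units.val_pow_eq_pow_val, hD] at h
    revert h
    rcases hd with ⟨h1, h2⟩ | ⟨h1, h2⟩ <;> rw [h1, h2] <;>
      rcases hkk with ⟨rfl, rfl⟩ | ⟨rfl, rfl⟩ <;> decide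

end Pool.Agent.P.MP_ac4bd0_al.No
end

-- part Pool.Agent.P.MP_ac4bd0_al.No.CoreA
section

set_option autoImplicit false
set_option linter.unusedSectionVars false

namespace Pool.Agent.P.MP_ac4bd0_al.No.CoreAux

open Classical

variable {Γ V : Type} [Group Γ] [Finite Γ] [AddCommGroup V] [Module (ZMod 2) V] [Finite V]

/-- The structure theory of the quasi-primitive group that the rank estimates use. -/
structure Setup (ρ : Γ →* Module.End (ZMod 2) V) (Z D : Subgroup Γ) : Prop where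
  Dn : D.Normal
  le : Z ≤ D
  cent : ∀ d ∈ D, ∀ z ∈ Z, d * z = z * d
  comm : ∀ d ∈ D, ∀ e ∈ D, d * e * d⁻¹ * e⁻¹ ∈ Z
  center : ∀ d : Γ, (∀ e ∈ D, d * e = e * d) → d ∈ Z
  qp : ∀ X ∈ Submodule.span (ZMod 2) (ρ '' (Z : Set Γ)), X = 0 ∨ Function.Injective X
  inj : Function.Injective ρ

/-- Rank of an endomorphism. -/
noncomputable def rk (X : Module.End (ZMod 2) V) : ℕ :=
  Module.finrank (ZMod 2) (LinearMap.range X)

theorem rk_sub_le (X Y : Module.End (ZMod 2) V) : rk (X - Y) ≤ rk X + rk Y := by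
  have h : LinearMap.range (X - Y) ≤ LinearMap.range X ⊔ LinearMap.range Y := by
    rintro _ ⟨v, rfl⟩
    exact Submodule.sub_mem _ (Submodule.mem_sup_left ⟨v, rfl⟩) (Submodule.mem_sup_right ⟨v, rfl⟩)
  exact (Submodule.finrank_mono h).trans (Submodule.finrank_add_le_finrank_add_finrank _ _)

theorem rk_mul_le (a X b : Module.End (ZMod 2) V) : rk (a * X * b) ≤ rk X := by
  have h : LinearMap.range (a * X * b) ≤ (LinearMap.range X).map a := by
    rintro _ ⟨v, rfl⟩
    exact ⟨X (b v), ⟨_, rfl⟩, rfl⟩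
  exact (Submodule.finrank_mono h).trans (Submodule.finrank_map_le _ _)

theorem rk_of_inj (X : Module.End (ZMod 2) V) (h : Function.Injective X) :
    rk X = Module.finrank (ZMod 2) V := LinearMap.finrank_range_of_inj h

variable (ρ : Γ →* Module.End (ZMod 2) V) (Z : Subgroup Γ) [Z.Normal]

/-- The span of the group elements lying over a finite set of classes. -/
def KS (S : Finset (Γ ⧸ Z)) : Submodule (ZMod 2) (Module.End (ZMod 2) V) :=
  Submodule.span (ZMod 2) (ρ '' {x | (x : Γ ⧸ Z) ∈ S})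

/-- The elimination operator. -/
def del (e x : Γ) (Y : Module.End (ZMod 2) V) : Module.End (ZMod 2) V :=
  Y - ρ e⁻¹ * Y * ρ (x⁻¹ * e * x)

/-- The size of the class of `q` modulo `Z` under conjugation by `D`. -/
noncomputable def II (D : Subgroup Γ) (q : Γ) : ℕ :=
  {y : Γ ⧸ Z | ∃ e ∈ D, y = ((e * q * e⁻¹ : Γ) : Γ ⧸ Z)}.ncard

variable {ρ Z}

theorem del_add (e x : Γ) (Y Y' : Module.End (ZMod 2) V) :
    del ρ e x (Y + Y') = del ρ e x Y + del ρ e x Y' := by
  simp only [del, mul_add, add_mul]; abel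

theorem del_zero (e x : Γ) : del ρ e x 0 = 0 := by simp [del]

theorem del_smul (e x : Γ) (c : ZMod 2) (Y : Module.End (ZMod 2) V) :
    del ρ e x (c • Y) = c • del ρ e x Y := by
  simp only [del, smul_sub, mul_smul_comm, smul_mul_assoc]

theorem rk_del (e x : Γ) (Y : Module.End (ZMod 2) V) : rk (del ρ e x Y) ≤ 2 * rk Y := by
  have h1 := rk_sub_le Y (ρ e⁻¹ * Y * ρ (x⁻¹ * e * x))
  have h2 := rk_mul_le (ρ e⁻¹) Y (ρ (x⁻¹ * e * x))
  unfold del
  omega

theorem KS_mono {S T : Finset (Γ ⧸ Z)} (h : S ⊆ T) : KS ρ Z S ≤ KS ρ Z T :=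
  Submodule.span_mono (Set.image_mono (fun _ hx => h hx))

theorem mem_KS {S : Finset (Γ ⧸ Z)} {x : Γ} (h : (x : Γ ⧸ Z) ∈ S) : ρ x ∈ KS ρ Z S :=
  Submodule.subset_span ⟨x, h, rfl⟩

theorem KS_empty {Y : Module.End (ZMod 2) V} (h : Y ∈ KS ρ Z ∅) : Y = 0 := by
  simpa [KS] using h

theorem KS_ind {S : Finset (Γ ⧸ Z)} {P : Module.End (ZMod 2) V → Prop}
    (h1 : ∀ x : Γ, (x : Γ ⧸ Z) ∈ S → P (ρ x)) (h0 : P 0) (ha : ∀ Y Y', P Y → P Y' → P (Y + Y'))
    {Y : Module.End (ZMod 2) V} (hY : Y ∈ KS ρ Z S) : P Y := by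
  induction hY using Submodule.span_induction with
  | mem x hx => obtain ⟨y, hy, rfl⟩ := hx; exact h1 y hy
  | zero => exact h0
  | add x y _ _ hx hy => exact ha _ _ hx hy
  | smul c x _ hx =>
    have : c = 0 ∨ c = 1 := by revert c; decide
    rcases this with rfl | rfl
    · simpa using h0
    · simpa using hx

theorem KS_mul {S : Finset (Γ ⧸ Z)} (a b : Γ) {Y : Module.End (ZMod 2) V} (hY : Y ∈ KS ρ Z S) :
    ρ a * Y * ρ b ∈ KS ρ Z (S.image (fun y => (a : Γ ⧸ Z) * y * (b : Γ ⧸ Z))) := by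
  refine KS_ind (P := fun Y => ρ a * Y * ρ b ∈
    KS ρ Z (S.image (fun y => (a : Γ ⧸ Z) * y * (b : Γ ⧸ Z)))) ?_ ?_ ?_ hY
  · intro x hx
    rw [← map_mul, ← map_mul]
    exact mem_KS (Finset.mem_image.mpr ⟨x, hx, by simp⟩)
  · simp
  · intro Y Y' h h'
    rw [mul_add, add_mul]
    exact Submodule.add_mem _ h h'

theorem KS_del {S : Finset (Γ ⧸ Z)} (e x : Γ) {Y : Module.End (ZMod 2) V} (hY : Y ∈ KS ρ Z S) :
    del ρ e x Y ∈ KS ρ Z (S ∪ S.image
      (fun y => ((e⁻¹ : Γ) : Γ ⧸ Z) * y * ((x⁻¹ * e * x : Γ) : Γ ⧸ Z))) :=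
  Submodule.sub_mem _ (KS_mono Finset.subset_union_left hY)
    (KS_mono Finset.subset_union_right (KS_mul _ _ hY))

theorem KS_split {S : Finset (Γ ⧸ Z)} (x : Γ ⧸ Z) {Y : Module.End (ZMod 2) V}
    (hY : Y ∈ KS ρ Z S) : ∃ Y1 ∈ KS ρ Z {x}, ∃ Y2 ∈ KS ρ Z (S.erase x), Y = Y1 + Y2 := by
  refine KS_ind (P := fun Y => ∃ Y1 ∈ KS ρ Z {x}, ∃ Y2 ∈ KS ρ Z (S.erase x), Y = Y1 + Y2)
    ?_ ?_ ?_ hY
  · intro y hy
    by_cases h : (y : Γ ⧸ Z) = x
    · exact ⟨ρ y, mem_KS (by simp [h]), 0, Submodule.zero_mem _, by simp⟩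
    · exact ⟨0, Submodule.zero_mem _, ρ y, mem_KS (by simp [h, hy]), by simp⟩
  · exact ⟨0, Submodule.zero_mem _, 0, Submodule.zero_mem _, by simp⟩
  · rintro _ _ ⟨a, ha, b, hb, rfl⟩ ⟨a', ha', b', hb', rfl⟩
    exact ⟨a + a', Submodule.add_mem _ ha ha', b + b', Submodule.add_mem _ hb hb', by abel⟩

variable {D : Subgroup Γ}

theorem Setup.mk_comm (H : Setup ρ Z D) {d e : Γ} (hd : d ∈ D) (he : e ∈ D) :
    (d : Γ ⧸ Z) * e = e * d := by
  have := (QuotientGroup.eq_one_iff _).mpr (H.comm d hd e he)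
  simp only [QuotientGroup.mk_mul, QuotientGroup.mk_inv] at this
  rw [mul_inv_eq_one, mul_inv_eq_iff_eq_mul] at this
  exact this

theorem Setup.conj_mem (H : Setup ρ Z D) {e : Γ} (he : e ∈ D) (x : Γ) : x⁻¹ * e * x ∈ D := by
  simpa using H.Dn.conj_mem e he x⁻¹

/-- `S` lies in the coset of `q`. -/
def InC (Z : Subgroup Γ) [Z.Normal] (D : Subgroup Γ) (q : Γ) (S : Finset (Γ ⧸ Z)) : Prop :=
  ∀ y : Γ, (y : Γ ⧸ Z) ∈ S → q⁻¹ * y ∈ D

theorem Setup.mem_of_mk_eq (H : Setup ρ Z D) {q y y' : Γ} (h : (y : Γ ⧸ Z) = y')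
    (h' : q⁻¹ * y ∈ D) : q⁻¹ * y' ∈ D := by
  have h1 : y⁻¹ * y' ∈ Z := QuotientGroup.eq.mp h
  have := D.mul_mem h' (H.le h1)
  simpa [mul_assoc] using this

theorem InC.mono {q : Γ} {S T : Finset (Γ ⧸ Z)} (h : InC Z D q T) (hS : S ⊆ T) : InC Z D q S :=
  fun y hy => h y (hS hy)

theorem InC.of_mem {q x : Γ} {S : Finset (Γ ⧸ Z)} (h : InC Z D q S) (hx : (x : Γ ⧸ Z) ∈ S) :
    InC Z D x S := by
  intro y hy
  have := D.mul_mem (D.inv_mem (h x hx)) (h y hy)
  simpa [mul_assoc] using this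

theorem Setup.inC_del (H : Setup ρ Z D) {q : Γ} {S : Finset (Γ ⧸ Z)} (h : InC Z D q S) {e : Γ}
    (he : e ∈ D) (x : Γ) : InC Z D q (S ∪ S.image
      (fun y => ((e⁻¹ : Γ) : Γ ⧸ Z) * y * ((x⁻¹ * e * x : Γ) : Γ ⧸ Z))) := by
  intro y hy
  rcases Finset.mem_union.mp hy with hy | hy
  · exact h y hy
  · obtain ⟨w, hw, hwy⟩ := Finset.mem_image.mp hy
    obtain ⟨w, rfl⟩ := QuotientGroup.mk_surjective w
    have h1 : ((e⁻¹ * w * (x⁻¹ * e * x) : Γ) : Γ ⧸ Z) = y := by rw [← hwy]; simp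
    refine H.mem_of_mk_eq h1 ?_
    have := D.mul_mem (D.mul_mem (H.conj_mem (D.inv_mem he) q) (h w hw)) (H.conj_mem he x)
    simpa [mul_assoc] using this

theorem Setup.KS_elim (H : Setup ρ Z D) {S : Finset (Γ ⧸ Z)} {e : Γ} (he : e ∈ D) (x : Γ)
    (hS : InC Z D x S) {Y : Module.End (ZMod 2) V} (hY : Y ∈ KS ρ Z S) :
    del ρ e x Y ∈ KS ρ Z (S.erase (x : Γ ⧸ Z)) := by
  refine KS_ind (P := fun Y => del ρ e x Y ∈ KS ρ Z (S.erase (x : Γ ⧸ Z))) ?_ ?_ ?_ hY
  · intro y hy
    unfold del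
    rw [← map_mul, ← map_mul]
    by_cases h : (y : Γ ⧸ Z) = x
    · have h1 : x⁻¹ * y ∈ Z := QuotientGroup.eq.mp h.symm
      have h2 := H.cent _ (H.conj_mem he x) _ h1
      have h3 : e⁻¹ * y * (x⁻¹ * e * x) = y := by
        calc e⁻¹ * y * (x⁻¹ * e * x) = e⁻¹ * x * (x⁻¹ * y * (x⁻¹ * e * x)) := by group
          _ = e⁻¹ * x * (x⁻¹ * e * x * (x⁻¹ * y)) := by rw [h2]
          _ = y := by group
      rw [h3, sub_self]
      exact Submodule.zero_mem _
    · refine Submodule.sub_mem _ (mem_KS (by simp [h, hy])) (mem_KS ?_)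
      have h2 := H.mk_comm (hS y hy) (H.conj_mem he x)
      have h3 : ((e⁻¹ * y * (x⁻¹ * e * x) : Γ) : Γ ⧸ Z) = y := by
        calc ((e⁻¹ * y * (x⁻¹ * e * x) : Γ) : Γ ⧸ Z)
            = ((e⁻¹ * x : Γ) : Γ ⧸ Z) * (((x⁻¹ * y : Γ) : Γ ⧸ Z) * ((x⁻¹ * e * x : Γ) : Γ ⧸ Z)) := by
              rw [← QuotientGroup.mk_mul, ← QuotientGroup.mk_mul]; congr 1; group
          _ = ((e⁻¹ * x : Γ) : Γ ⧸ Z) * (((x⁻¹ * e * x : Γ) : Γ ⧸ Z) * ((x⁻¹ * y : Γ) : Γ ⧸ Z)) := by
              rw [h2]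
          _ = y := by rw [← QuotientGroup.mk_mul, ← QuotientGroup.mk_mul]; congr 1; group
      rw [h3]
      simp [h, hy]
  · rw [del_zero]; exact Submodule.zero_mem _
  · intro Y Y' h h'
    rw [del_add]
    exact Submodule.add_mem _ h h'

theorem Setup.sub_one_inj (H : Setup ρ Z D) {z : Γ} (hz : z ∈ Z) (h1 : z ≠ 1) :
    Function.Injective (ρ z - 1 : Module.End (ZMod 2) V) := by
  have hm : ρ z - 1 ∈ Submodule.span (ZMod 2) (ρ '' (Z : Set Γ)) :=
    Submodule.sub_mem _ (Submodule.subset_span ⟨z, hz, rfl⟩)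
      (Submodule.subset_span ⟨1, Z.one_mem, map_one ρ⟩)
  refine (H.qp _ hm).resolve_left (fun h => h1 (H.inj ?_))
  rw [map_one]
  exact sub_eq_zero.mp h

theorem Setup.two_elim (H : Setup ρ Z D) {x x' : Γ} (hx : x ∈ D) (hx' : x' ∈ D)
    (hne : (x : Γ ⧸ Z) ≠ x') :
    ∃ f ∈ D, ∀ Y : Module.End (ZMod 2) V, del ρ f x Y = del ρ f x' Y → Y = 0 := by
  have h1 : x' * x⁻¹ ∉ Z := by
    intro h
    apply hne
    have := (QuotientGroup.eq_one_iff _).mpr h
    simp only [QuotientGroup.mk_mul, QuotientGroup.mk_inv] at this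
    exact (mul_inv_eq_one.mp this).symm
  have h2 : ∃ f ∈ D, x' * x⁻¹ * f ≠ f * (x' * x⁻¹) := by
    by_contra h
    push Not at h
    exact h1 (H.center _ h)
  obtain ⟨f, hf, hf'⟩ := h2
  refine ⟨f, hf, fun Y hY => ?_⟩
  have hz : (x'⁻¹ * f * x')⁻¹ * (x⁻¹ * f * x) ∈ Z := by
    rw [← QuotientGroup.eq]
    have e1 := H.mk_comm hf hx
    have e2 := H.mk_comm hf hx'
    simp only [QuotientGroup.mk_mul, QuotientGroup.mk_inv, mul_assoc, e1, e2, inv_mul_cancel_left]
  have hz1 : (x'⁻¹ * f * x')⁻¹ * (x⁻¹ * f * x) ≠ 1 := by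
    intro h
    apply hf'
    have h3 : x'⁻¹ * f * x' = x⁻¹ * f * x := inv_mul_eq_one.mp h
    calc x' * x⁻¹ * f = x' * (x⁻¹ * f * x) * x⁻¹ := by group
      _ = f * (x' * x⁻¹) := by rw [← h3]; group
  have hs : Function.Surjective (ρ ((x'⁻¹ * f * x')⁻¹ * (x⁻¹ * f * x)) - 1 :
      Module.End (ZMod 2) V) := Finite.injective_iff_surjective.mp (H.sub_one_inj hz hz1)
  have h4 : ρ f⁻¹ * Y * ρ (x⁻¹ * f * x) = ρ f⁻¹ * Y * ρ (x'⁻¹ * f * x') :=
    sub_right_injective hY
  have h5 : Y * ρ (x'⁻¹ * f * x') * (ρ ((x'⁻¹ * f * x')⁻¹ * (x⁻¹ * f * x)) - 1) = 0 := by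
    rw [mul_sub, mul_one, mul_assoc, ← map_mul, mul_inv_cancel_left, sub_eq_zero]
    have := congrArg (fun T => ρ f * T) h4
    simpa only [← mul_assoc, ← map_mul, mul_inv_cancel, map_one, one_mul] using this
  have h6 : Y * ρ (x'⁻¹ * f * x') = 0 := by
    ext v
    obtain ⟨w, rfl⟩ := hs v
    exact LinearMap.congr_fun h5 w
  have := congrArg (fun T => T * ρ (x'⁻¹ * f * x')⁻¹) h6
  simpa only [mul_assoc, ← map_mul, mul_inv_cancel, map_one, mul_one, zero_mul] using this

theorem Setup.single_inj (H : Setup ρ Z D) (x : Γ) {Y : Module.End (ZMod 2) V}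
    (hY : Y ∈ KS ρ Z {(x : Γ ⧸ Z)}) (h0 : Y ≠ 0) : Function.Injective Y := by
  have h1 : ρ x⁻¹ * Y ∈ Submodule.span (ZMod 2) (ρ '' (Z : Set Γ)) := by
    refine KS_ind (P := fun Y => ρ x⁻¹ * Y ∈ Submodule.span (ZMod 2) (ρ '' (Z : Set Γ)))
      ?_ ?_ ?_ hY
    · intro y hy
      rw [← map_mul]
      exact Submodule.subset_span ⟨_, QuotientGroup.eq.mp (Finset.mem_singleton.mp hy).symm, rfl⟩
    · simp
    · intro Y Y' h h'
      rw [mul_add]
      exact Submodule.add_mem _ h h'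
  rcases H.qp _ h1 with h | h
  · exfalso
    apply h0
    have := congrArg (fun T => ρ x * T) h
    simpa only [← mul_assoc, ← map_mul, mul_inv_cancel, map_one, one_mul, mul_zero] using this
  · exact Function.Injective.of_comp (f := ρ x⁻¹) h

theorem InC.mem {S : Finset (Γ ⧸ Z)} (h : InC Z D 1 S) {y : Γ} (hy : (y : Γ ⧸ Z) ∈ S) : y ∈ D := by
  simpa using h y hy

/-- Separation of the graded pieces over `D`. -/
theorem Setup.sep (H : Setup ρ Z D) {x : Γ} (hx : x ∈ D) (S : Finset (Γ ⧸ Z)) :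
    InC Z D 1 S → (x : Γ ⧸ Z) ∉ S → ∀ Y : Module.End (ZMod 2) V,
      Y ∈ KS ρ Z {(x : Γ ⧸ Z)} → Y ∈ KS ρ Z S → Y = 0 := by
  induction S using Finset.induction_on with
  | empty => exact fun _ _ Y _ hY => KS_empty hY
  | insert y S hy ih =>
    intro hS hxS Y hY hY'
    obtain ⟨y, rfl⟩ := QuotientGroup.mk_surjective y
    have hyD : y ∈ D := hS.mem (Finset.mem_insert_self _ _)
    have hne : (x : Γ ⧸ Z) ≠ y := fun h => hxS (by simp [h])
    obtain ⟨f, hf, hf'⟩ := H.two_elim hx hyD hne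
    apply hf'
    have hx1 : InC Z D x {(x : Γ ⧸ Z)} := by
      intro w hw
      exact H.le (QuotientGroup.eq.mp (Finset.mem_singleton.mp hw).symm)
    have h1 := H.KS_elim hf x hx1 hY
    rw [Finset.erase_singleton] at h1
    rw [KS_empty h1]
    symm
    have h2 := H.KS_elim hf y (hS.of_mem (Finset.mem_insert_self _ _)) hY'
    rw [Finset.erase_insert hy] at h2
    refine ih (hS.mono (Finset.subset_insert _ _)) (fun h => hxS (Finset.mem_insert_of_mem h))
      _ ?_ h2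
    have hy1 : InC Z D y {(x : Γ ⧸ Z)} := by
      intro w hw
      exact H.mem_of_mk_eq (Finset.mem_singleton.mp hw).symm (D.mul_mem (D.inv_mem hyD) hx)
    exact KS_mono (Finset.erase_subset _ _) (H.KS_elim hf y hy1 hY)

theorem Setup.R0 (H : Setup ρ Z D) (n : ℕ) : ∀ (S : Finset (Γ ⧸ Z)), InC Z D 1 S → S.card ≤ n →
    ∀ u ∈ KS ρ Z S, u ≠ 0 → Module.finrank (ZMod 2) V ≤ 2 ^ n * rk u := by
  induction n with
  | zero =>
    intro S _ hc u hu h0
    rw [Nat.le_zero, Finset.card_eq_zero] at hc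
    subst hc
    exact absurd (KS_empty hu) h0
  | succ n ih =>
    intro S hS hc u hu h0
    by_cases h1 : S.card ≤ 1
    · obtain ⟨x, hx⟩ := Finset.card_le_one_iff_subset_singleton.mp h1
      obtain ⟨x, rfl⟩ := QuotientGroup.mk_surjective x
      rw [rk_of_inj u (H.single_inj x (KS_mono hx hu) h0)]
      exact Nat.le_mul_of_pos_left _ (by positivity)
    · obtain ⟨x, hx, y, hy, hne⟩ := Finset.one_lt_card.mp (not_le.mp h1)
      obtain ⟨x, rfl⟩ := QuotientGroup.mk_surjective x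
      obtain ⟨y, rfl⟩ := QuotientGroup.mk_surjective y
      obtain ⟨f, hf, hf'⟩ := H.two_elim (hS.mem hx) (hS.mem hy) hne
      have key : ∀ w : Γ, (w : Γ ⧸ Z) ∈ S → del ρ f w u ≠ 0 →
          Module.finrank (ZMod 2) V ≤ 2 ^ (n + 1) * rk u := by
        intro w hw hw0
        have h2 := ih _ (hS.mono (Finset.erase_subset (w : Γ ⧸ Z) S))
          (by rw [Finset.card_erase_of_mem hw]; omega) _ (H.KS_elim hf w (hS.of_mem hw) hu) hw0
        have h3 := rk_del (ρ := ρ) f w u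
        calc _ ≤ 2 ^ n * rk (del ρ f w u) := h2
          _ ≤ 2 ^ n * (2 * rk u) := Nat.mul_le_mul_left _ h3
          _ = _ := by ring
      by_cases hx0 : del ρ f x u = 0
      · refine key y hy (fun hy0 => h0 (hf' u ?_))
        rw [hx0, hy0]
      · exact key x hx hx0

theorem Setup.nonvanishing (H : Setup ρ Z D) (x : Γ) (S : Finset (Γ ⧸ Z)) :
    InC Z D 1 S → S.card < II Z D x → ∀ u ∈ KS ρ Z S, u ≠ 0 → ∃ e ∈ D, del ρ e x u ≠ 0 := by
  induction S using Finset.strongInduction with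
  | H S ih =>
  intro hS hc u hu h0
  by_cases hmin : ∃ y ∈ S, u ∈ KS ρ Z (S.erase y)
  · obtain ⟨y, hy, hu'⟩ := hmin
    exact ih _ (Finset.erase_ssubset hy) (hS.mono (Finset.erase_subset _ _))
      ((Finset.card_erase_le).trans_lt hc) u hu' h0
  push Not at hmin
  by_contra hcon
  push Not at hcon
  have hne : S.Nonempty := by
    rw [Finset.nonempty_iff_ne_empty]
    rintro rfl
    exact h0 (KS_empty hu)
  obtain ⟨s, hs⟩ := hne
  obtain ⟨s, rfl⟩ := QuotientGroup.mk_surjective s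
  have key : ∀ e ∈ D, (s : Γ ⧸ Z) ∈ S.image
      (fun y => ((e⁻¹ : Γ) : Γ ⧸ Z) * y * ((x⁻¹ * e * x : Γ) : Γ ⧸ Z)) := by
    intro e he
    by_contra hn
    have h1 : u ∈ KS ρ Z (S.image
        (fun y => ((e⁻¹ : Γ) : Γ ⧸ Z) * y * ((x⁻¹ * e * x : Γ) : Γ ⧸ Z))) := by
      have := KS_mul (ρ := ρ) e⁻¹ (x⁻¹ * e * x) hu
      rwa [← sub_eq_zero.mp (hcon e he)] at this
    obtain ⟨Y1, hY1, Y2, hY2, hY⟩ := KS_split (s : Γ ⧸ Z) hu
    have h2 : Y1 = 0 := by
      refine H.sep (hS.mem hs) (S.erase s ∪ S.image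
        (fun y => ((e⁻¹ : Γ) : Γ ⧸ Z) * y * ((x⁻¹ * e * x : Γ) : Γ ⧸ Z))) ?_ ?_ Y1 hY1 ?_
      · exact (H.inC_del hS he x).mono
          (Finset.union_subset_union (Finset.erase_subset _ _) le_rfl)
      · simp only [Finset.mem_union, not_or]
        exact ⟨Finset.notMem_erase _ _, hn⟩
      · have : Y1 = u - Y2 := by rw [hY]; abel
        rw [this]
        exact Submodule.sub_mem _ (KS_mono Finset.subset_union_right h1)
          (KS_mono Finset.subset_union_left hY2)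
    rw [h2, zero_add] at hY
    exact hmin _ hs (hY ▸ hY2)
  have hsub : {y : Γ ⧸ Z | ∃ e ∈ D, y = ((e * x * e⁻¹ : Γ) : Γ ⧸ Z)} ⊆
      (fun y => (x : Γ ⧸ Z) * (y⁻¹ * (s : Γ ⧸ Z))) '' (S : Set (Γ ⧸ Z)) := by
    rintro _ ⟨e, he, rfl⟩
    obtain ⟨w, hw, hwe⟩ := Finset.mem_image.mp (key e he)
    obtain ⟨w, rfl⟩ := QuotientGroup.mk_surjective w
    refine ⟨w, hw, ?_⟩
    have e1 := H.mk_comm (D.inv_mem he) (hS.mem hw)
    have e2 := H.mk_comm (D.inv_mem he) (H.conj_mem he x)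
    simp only at hwe ⊢
    rw [← hwe, e1, mul_assoc (w : Γ ⧸ Z), inv_mul_cancel_left, e2, ← QuotientGroup.mk_mul,
      ← QuotientGroup.mk_mul]
    congr 1
    group
  have := (Set.ncard_le_ncard hsub (Set.toFinite _)).trans (Set.ncard_image_le (Set.toFinite _))
  rw [Set.ncard_coe_finset] at this
  exact absurd hc (not_lt.mpr this)

theorem Setup.II_mul_mem (H : Setup ρ Z D) (q : Γ) {d : Γ} (hd : d ∈ D) :
    II Z D q ≤ II Z D (q * d) := by
  have hsub : {y : Γ ⧸ Z | ∃ e ∈ D, y = ((e * q * e⁻¹ : Γ) : Γ ⧸ Z)} ⊆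
      (fun y => y * (d : Γ ⧸ Z)⁻¹) ''
        {y : Γ ⧸ Z | ∃ e ∈ D, y = ((e * (q * d) * e⁻¹ : Γ) : Γ ⧸ Z)} := by
    rintro _ ⟨e, he, rfl⟩
    refine ⟨_, ⟨e, he, rfl⟩, ?_⟩
    have e1 := H.mk_comm hd (D.inv_mem he)
    simp only [QuotientGroup.mk_mul, QuotientGroup.mk_inv] at e1 ⊢
    rw [mul_assoc (e : Γ ⧸ Z), mul_assoc (q : Γ ⧸ Z), e1]
    group
  exact (Set.ncard_le_ncard hsub (Set.toFinite _)).trans (Set.ncard_image_le (Set.toFinite _))

/-- Sums of `m` elements, each supported on at most `n` classes inside a coset with a large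
class size. -/
def Far (ρ : Γ →* Module.End (ZMod 2) V) (Z : Subgroup Γ) [Z.Normal] (D : Subgroup Γ) (L : ℕ) :
    ℕ → ℕ → Module.End (ZMod 2) V → Prop
  | 0, _, Y => Y = 0
  | m + 1, n, Y => ∃ (Y1 Y2 : Module.End (ZMod 2) V) (q : Γ) (S : Finset (Γ ⧸ Z)),
      Y = Y1 + Y2 ∧ Far ρ Z D L m n Y1 ∧ L < II Z D q ∧ InC Z D q S ∧ S.card ≤ n ∧ Y2 ∈ KS ρ Z S

theorem Far.mono {L m n n' : ℕ} (h : n ≤ n') : ∀ {Y : Module.End (ZMod 2) V},
    Far ρ Z D L m n Y → Far ρ Z D L m n' Y := by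
  induction m with
  | zero => exact fun h => h
  | succ m ih =>
    rintro _ ⟨Y1, Y2, q, S, rfl, h1, h2, h3, h4, h5⟩
    exact ⟨Y1, Y2, q, S, rfl, ih h1, h2, h3, h4.trans h, h5⟩

theorem card_del_le (S : Finset (Γ ⧸ Z)) (f : Γ ⧸ Z → Γ ⧸ Z) {n : ℕ} (h : S.card ≤ n) :
    (S ∪ S.image f).card ≤ 2 * n := by
  have h1 := Finset.card_union_le S (S.image f)
  have h2 := Finset.card_image_le (s := S) (f := f)
  omega

theorem Setup.far_del (H : Setup ρ Z D) {L m n : ℕ} {e : Γ} (he : e ∈ D) (x : Γ) :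
    ∀ {Y : Module.End (ZMod 2) V}, Far ρ Z D L m n Y → Far ρ Z D L m (2 * n) (del ρ e x Y) := by
  induction m with
  | zero =>
    intro Y h
    have h' : Y = 0 := h
    rw [h', del_zero]
    rfl
  | succ m ih =>
    rintro _ ⟨Y1, Y2, q, S, rfl, h1, h2, h3, h4, h5⟩
    exact ⟨_, _, q, _, del_add _ _ _ _, ih h1, h2, H.inC_del h3 he x, card_del_le _ _ h4,
      KS_del e x h5⟩

/-- Threshold for the class sizes. -/
def bnd : ℕ → ℕ → ℕ
  | 0, n => n
  | m + 1, n => bnd m (2 ^ n * n)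

/-- The constant in the rank estimate. -/
def cst : ℕ → ℕ → ℕ
  | 0, n => 2 ^ n
  | m + 1, n => 2 ^ n * cst m (2 ^ n * n)

theorem le_bnd (m : ℕ) : ∀ n, n ≤ bnd m n := by
  induction m with
  | zero => exact fun n => le_rfl
  | succ m ih => exact fun n => (Nat.le_mul_of_pos_left _ (by positivity)).trans (ih _)

theorem Setup.Rm (H : Setup ρ Z D) (L m : ℕ) : ∀ (n : ℕ), bnd m n ≤ L →
    ∀ (S : Finset (Γ ⧸ Z)), InC Z D 1 S → S.card ≤ n → ∀ u ∈ KS ρ Z S, u ≠ 0 →
    ∀ Y, Far ρ Z D L m n Y → Module.finrank (ZMod 2) V ≤ cst m n * rk (u + Y) := by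
  induction m with
  | zero =>
    intro n _ S hS hc u hu h0 Y hY
    have h' : Y = 0 := hY
    rw [h', add_zero]
    exact H.R0 n S hS hc u hu h0
  | succ m ih =>
    have inner : ∀ (q : Γ), L < II Z D q → ∀ (j n : ℕ), bnd m (2 ^ j * n) ≤ L →
        ∀ (S : Finset (Γ ⧸ Z)), InC Z D 1 S → S.card ≤ n → ∀ u ∈ KS ρ Z S, u ≠ 0 →
        ∀ Y, Far ρ Z D L m n Y → ∀ T : Finset (Γ ⧸ Z), InC Z D q T → T.card ≤ j →
        ∀ Y' ∈ KS ρ Z T,
        Module.finrank (ZMod 2) V ≤ 2 ^ j * cst m (2 ^ j * n) * rk (u + (Y + Y')) := by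
      intro q hq j
      induction j with
      | zero =>
        intro n hn S hS hc u hu h0 Y hY T _ hT Y' hY'
        rw [Nat.le_zero, Finset.card_eq_zero] at hT
        subst hT
        rw [KS_empty hY', add_zero]
        simp only [pow_zero, one_mul] at hn ⊢
        exact ih n hn S hS hc u hu h0 Y hY
      | succ j ihj =>
        intro n hn S hS hc u hu h0 Y hY T hTq hT Y' hY'
        have e1 : 2 ^ (j + 1) * n = 2 ^ j * (2 * n) := by ring
        rw [e1] at hn ⊢
        rcases T.eq_empty_or_nonempty with rfl | ⟨x, hx⟩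
        · have := ihj (2 * n) hn S hS (by omega) u hu h0 Y (hY.mono (by omega)) ∅ hTq (by simp)
            Y' hY'
          refine this.trans (Nat.mul_le_mul_right _ (Nat.mul_le_mul_right _ ?_))
          exact Nat.pow_le_pow_right (by norm_num) (by omega)
        · obtain ⟨x, rfl⟩ := QuotientGroup.mk_surjective x
          have hx1 : II Z D q ≤ II Z D x := by
            have := H.II_mul_mem q (hTq x hx)
            rwa [mul_inv_cancel_left] at this
          have hx2 : S.card < II Z D x := by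
            have h1 := le_bnd m (2 ^ j * (2 * n))
            have h2 : 2 * n ≤ 2 ^ j * (2 * n) := Nat.le_mul_of_pos_left _ (by positivity)
            omega
          obtain ⟨e, he, hne⟩ := H.nonvanishing x S hS hx2 u hu h0
          have h1 := ihj (2 * n) hn _ (H.inC_del hS he x) (card_del_le _ _ hc) _ (KS_del e x hu)
            hne _ (H.far_del he x hY) (T.erase x) (hTq.mono (Finset.erase_subset _ _))
            (by rw [Finset.card_erase_of_mem hx]; omega) _ (H.KS_elim he x (hTq.of_mem hx) hY')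
          rw [← del_add, ← del_add] at h1
          have h2 := rk_del (ρ := ρ) e x (u + (Y + Y'))
          calc _ ≤ _ := h1
            _ ≤ 2 ^ j * cst m (2 ^ j * (2 * n)) * (2 * rk (u + (Y + Y'))) :=
              Nat.mul_le_mul_left _ h2
            _ = _ := by ring
    rintro n hn S hS hc u hu h0 _ ⟨Y1, Y2, q, T, rfl, h1, h2, h3, h4, h5⟩
    exact inner q h2 n n hn S hS hc u hu h0 Y1 h1 T h3 h4 Y2 h5

theorem Setup.far_sum (H : Setup ρ Z D) {L : ℕ} (l : List Γ) (hl : ∀ y ∈ l, L < II Z D y) :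
    Far ρ Z D L l.length 1 (l.map ρ).sum := by
  induction l with
  | nil => rfl
  | cons y l ih =>
    refine ⟨(l.map ρ).sum, ρ y, y, {(y : Γ ⧸ Z)}, by simp [add_comm],
      ih (fun w hw => hl w (List.mem_cons_of_mem _ hw)), hl y List.mem_cons_self, ?_, by simp,
      mem_KS (by simp)⟩
    intro w hw
    exact H.le (QuotientGroup.eq.mp (Finset.mem_singleton.mp hw).symm)

/-- The rank estimate for the identity plus a sum of group elements. -/
theorem Setup.rank_list [Nontrivial V] (H : Setup ρ Z D) (l : List Γ)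
    (hl : ∀ y ∈ l, bnd l.length 1 < II Z D y) :
    Module.finrank (ZMod 2) V ≤ cst l.length 1 * rk (1 + (l.map ρ).sum) := by
  refine H.Rm _ _ 1 le_rfl {((1 : Γ) : Γ ⧸ Z)} ?_ (by simp) 1 ?_ one_ne_zero _ (H.far_sum l hl)
  · intro w hw
    exact H.le (QuotientGroup.eq.mp (Finset.mem_singleton.mp hw).symm)
  · rw [← map_one ρ]
    exact mem_KS (by simp)

end Pool.Agent.P.MP_ac4bd0_al.No.CoreAux
end

-- part Pool.Agent.P.MP_ac4bd0_al.No.CoreB
section

set_option autoImplicit false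
set_option linter.unusedSectionVars false

namespace Pool.Agent.P.MP_ac4bd0_al.No.CoreAux

open Classical

variable {Γ V : Type} [Group Γ] [Finite Γ] [AddCommGroup V] [Module (ZMod 2) V] [Finite V]

theorem exists_setup [Group.IsSolvable Γ] (ρ : Γ →* Module.End (ZMod 2) V)
    (hρ : Function.Injective ρ)
    (hqp : ∀ M : Subgroup Γ, M.Normal → (∀ x ∈ M, ∀ y ∈ M, x * y = y * x) →
      ∀ X ∈ Submodule.span (ZMod 2) (ρ '' (M : Set Γ)), X = 0 ∨ Function.Injective X) :
    ∃ (Z D : Subgroup Γ), Z.Normal ∧ Setup ρ Z D := by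
  obtain ⟨Z, ⟨hZn, hZc⟩, hZmax⟩ := (wellFounded_gt (α := Subgroup Γ)).has_min
    {M | M.Normal ∧ ∀ x ∈ M, ∀ y ∈ M, x * y = y * x}
    ⟨⊥, inferInstance, fun x hx y _ => by rw [Subgroup.mem_bot.mp hx]; simp⟩
  obtain ⟨D, ⟨hDn, hle, hcent, hcomm⟩, hDmax⟩ := (wellFounded_gt (α := Subgroup Γ)).has_min
    {D | D.Normal ∧ Z ≤ D ∧ (∀ d ∈ D, ∀ z ∈ Z, d * z = z * d) ∧
      ∀ d ∈ D, ∀ e ∈ D, d * e * d⁻¹ * e⁻¹ ∈ Z}
    ⟨Z, hZn, le_rfl, hZc, fun d hd e he =>
      Z.mul_mem (Z.mul_mem (Z.mul_mem hd he) (Z.inv_mem hd)) (Z.inv_mem he)⟩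
  refine ⟨Z, D, hZn, hDn, hle, hcent, hcomm, ?_, hqp Z hZn hZc, hρ⟩
  have hC : Subgroup.centralizer (D : Set Γ) ≤ Z := by
    by_contra hC
    obtain ⟨E, ⟨hEn, hEC, hEZ⟩, hEmin⟩ := (wellFounded_lt (α := Subgroup Γ)).has_min
      {E | E.Normal ∧ E ≤ Subgroup.centralizer (D : Set Γ) ∧ ¬ E ≤ Z}
      ⟨_, inferInstance, le_rfl, hC⟩
    have hE0 : E ≠ ⊥ := by
      rintro rfl
      exact hEZ bot_le
    have h1 : ⁅E, E⁆ < E := Group.IsSolvable.commutator_lt_of_ne_bot hE0
    have h2 : ⁅E, E⁆ ≤ Z := by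
      by_contra h2
      exact hEmin _ ⟨inferInstance, h1.le.trans hEC, h2⟩ h1
    have hEc : ∀ e ∈ E, ∀ d ∈ D, d * e = e * d := fun e he d hd =>
      Subgroup.mem_centralizer_iff.mp (hEC he) d hd
    have h3 : ¬ D ⊔ E > D := by
      refine hDmax _ ⟨inferInstance, hle.trans le_sup_left, ?_, ?_⟩
      · intro x hx z hz
        obtain ⟨d, hd, e, he, rfl⟩ := Subgroup.mem_sup_of_normal_right.mp hx
        rw [mul_assoc, ← hEc e he z (hle hz), ← mul_assoc, hcent d hd z hz, mul_assoc]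
      · intro x hx y hy
        obtain ⟨d, hd, e, he, rfl⟩ := Subgroup.mem_sup_of_normal_right.mp hx
        obtain ⟨d', hd', e', he', rfl⟩ := Subgroup.mem_sup_of_normal_right.mp hy
        have k1 : e * e' * e⁻¹ * e'⁻¹ ∈ Z := h2 (Subgroup.commutator_mem_commutator he he')
        have k2 := Z.mul_mem (hcomm d hd d' hd') k1
        have c1 : Commute d' e := hEc e he d' hd'
        have c2 : Commute d e' := hEc e' he' d hd
        have c3 : Commute (d⁻¹ * d'⁻¹) (e * e' * e⁻¹ * e'⁻¹) :=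
          hEc _ (E.mul_mem (E.mul_mem (E.mul_mem he he') (E.inv_mem he)) (E.inv_mem he')) _
            (D.mul_mem (D.inv_mem hd) (D.inv_mem hd'))
        have k3 : d * e * (d' * e') * (d * e)⁻¹ * (d' * e')⁻¹ =
            d * d' * d⁻¹ * d'⁻¹ * (e * e' * e⁻¹ * e'⁻¹) := by
          calc d * e * (d' * e') * (d * e)⁻¹ * (d' * e')⁻¹
              = d * (e * d') * e' * e⁻¹ * (d⁻¹ * e'⁻¹) * d'⁻¹ := by group
            _ = d * (d' * e) * e' * e⁻¹ * (e'⁻¹ * d⁻¹) * d'⁻¹ := by
                rw [c1.eq, c2.inv_inv.eq]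
            _ = d * d' * ((e * e' * e⁻¹ * e'⁻¹) * (d⁻¹ * d'⁻¹)) := by group
            _ = _ := by rw [← c3.eq]; group
        rw [k3]
        exact k2
    have h4 : E ≤ D := by
      by_contra h4
      exact h3 (lt_of_le_of_ne le_sup_left (fun h => h4 (h ▸ le_sup_right)))
    have h5 : ¬ Z ⊔ E > Z := by
      refine hZmax _ ⟨inferInstance, ?_⟩
      intro x hx y hy
      obtain ⟨d, hd, e, he, rfl⟩ := Subgroup.mem_sup_of_normal_right.mp hx
      obtain ⟨d', hd', e', he', rfl⟩ := Subgroup.mem_sup_of_normal_right.mp hy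
      have c1 : Commute d d' := hZc d hd d' hd'
      have c2 : Commute d e' := hEc e' he' d (hle hd)
      have c3 : Commute e d' := (hEc e he d' (hle hd')).symm
      have c4 : Commute e e' := hEc e' he' e (h4 he)
      exact (c1.mul_right c2).mul_left (c3.mul_right c4)
    exact h5 (lt_of_le_of_ne le_sup_left (fun h => hEZ (h ▸ le_sup_right)))
  intro d hd
  exact hC (Subgroup.mem_centralizer_iff.mpr (fun e he => (hd e he).symm))

theorem add_self_end (X : Module.End (ZMod 2) V) : X + X = 0 := by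
  rw [← two_smul (ZMod 2) X]
  have : (2 : ZMod 2) = 0 := rfl
  rw [this, zero_smul]

variable {ρ : Γ →* Module.End (ZMod 2) V} {Z : Subgroup Γ} [Z.Normal] {D : Subgroup Γ}

theorem Setup.odd_Z [Nontrivial V] (H : Setup ρ Z D) {z : Γ} (hz : z ∈ Z) (h : z * z = 1) :
    z = 1 := by
  by_contra h1
  have hi := H.sub_one_inj hz h1
  have h2 : (ρ z - 1) * (ρ z - 1) = 0 := by
    rw [sub_mul, mul_sub, mul_sub, ← map_mul, h, map_one, one_mul, mul_one, one_mul]
    have := add_self_end (1 - ρ z)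
    rw [← this]
    abel
  obtain ⟨v, hv⟩ := exists_ne (0 : V)
  apply hv
  apply hi
  apply hi
  simpa using LinearMap.congr_fun h2 v

theorem Setup.odd_D [Nontrivial V] (H : Setup ρ Z D) {d : Γ} (hd : d ∈ D) (h : d * d ∈ Z) :
    d ∈ Z := by
  refine H.center d (fun f hf => ?_)
  have hz := H.comm d hd f hf
  have h1 : d * f * d⁻¹ * f⁻¹ = 1 := by
    refine H.odd_Z hz ?_
    have c1 := H.cent d hd _ hz
    have c2 := H.cent f hf _ h
    calc d * f * d⁻¹ * f⁻¹ * (d * f * d⁻¹ * f⁻¹)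
        = ((d * f * d⁻¹ * f⁻¹) * d) * f * d⁻¹ * f⁻¹ := by group
      _ = (d * (d * f * d⁻¹ * f⁻¹)) * f * d⁻¹ * f⁻¹ := by rw [c1]
      _ = (d * d * f) * d⁻¹ * d⁻¹ * f⁻¹ := by group
      _ = 1 := by rw [← c2]; group
  rw [mul_inv_eq_one, mul_inv_eq_iff_eq_mul] at h1
  exact h1

theorem Setup.exists_field [Nontrivial V] (H : Setup ρ Z D) :
    ∃ (K : Type) (_ : Field K) (_ : Finite K) (φ : K →+* Module.End (ZMod 2) V),
      Function.Injective φ ∧
      ∀ X, X ∈ Submodule.span (ZMod 2) (ρ '' (Z : Set Γ)) ↔ ∃ k, φ k = X := by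
  have hmul : ∀ X ∈ Submodule.span (ZMod 2) (ρ '' (Z : Set Γ)),
      ∀ Y ∈ Submodule.span (ZMod 2) (ρ '' (Z : Set Γ)),
      X * Y ∈ Submodule.span (ZMod 2) (ρ '' (Z : Set Γ)) ∧ X * Y = Y * X := by
    intro X hX Y hY
    induction hX, hY using Submodule.span_induction₂ with
    | mem_mem x y hx hy =>
      obtain ⟨x, hx, rfl⟩ := hx
      obtain ⟨y, hy, rfl⟩ := hy
      rw [← map_mul, ← map_mul, H.cent x (H.le hx) y hy]
      exact ⟨Submodule.subset_span ⟨_, Z.mul_mem hy hx, rfl⟩, rfl⟩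
    | zero_left y _ => simp
    | zero_right x _ => simp
    | add_left x y z _ _ _ h1 h2 =>
      rw [add_mul, mul_add, ← h1.2, ← h2.2]
      exact ⟨Submodule.add_mem _ h1.1 h2.1, rfl⟩
    | add_right x y z _ _ _ h1 h2 =>
      rw [add_mul, mul_add, ← h1.2, ← h2.2]
      exact ⟨Submodule.add_mem _ h1.1 h2.1, rfl⟩
    | smul_left r x y _ _ h1 =>
      rw [smul_mul_assoc, mul_smul_comm, ← h1.2]
      exact ⟨Submodule.smul_mem _ _ h1.1, rfl⟩
    | smul_right r x y _ _ h1 =>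
      rw [smul_mul_assoc, mul_smul_comm, ← h1.2]
      exact ⟨Submodule.smul_mem _ _ h1.1, rfl⟩
  let K : Subalgebra (ZMod 2) (Module.End (ZMod 2) V) :=
    (Submodule.span (ZMod 2) (ρ '' (Z : Set Γ))).toSubalgebra
      (Submodule.subset_span ⟨1, Z.one_mem, map_one ρ⟩) (fun X Y hX hY => (hmul X hX Y hY).1)
  have : Finite (Module.End (ZMod 2) V) :=
    Finite.of_injective (fun X : Module.End (ZMod 2) V => (X : V → V)) DFunLike.coe_injective
  let : CommRing K :=
    { (inferInstance : Ring K) with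
      mul_comm := fun X Y => Subtype.ext (hmul X.1 X.2 Y.1 Y.2).2 }
  have : NoZeroDivisors K := ⟨fun {X Y} h => by
    rcases H.qp X.1 X.2 with h1 | h1
    · exact Or.inl (Subtype.ext h1)
    · refine Or.inr (Subtype.ext ?_)
      ext v
      apply h1
      simpa using LinearMap.congr_fun (congrArg Subtype.val h) v⟩
  have : IsDomain K := NoZeroDivisors.to_isDomain K
  let : Field K := (Finite.isField_of_domain K).toField
  refine ⟨K, inferInstance, inferInstance,
    { toFun := Subtype.val, map_one' := rfl, map_mul' := fun _ _ => rfl, map_zero' := rfl,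
      map_add' := fun _ _ => rfl }, Subtype.val_injective, fun X => ⟨fun h => ⟨⟨X, h⟩, rfl⟩, ?_⟩⟩
  rintro ⟨k, rfl⟩
  exact k.2

theorem card_bound (K : Type) [Field K] [Finite K] (φ : K →+* Module.End (ZMod 2) V)
    (ι : Type) [Finite ι] (T : ι → Module.End (ZMod 2) V) (hcomm : ∀ i k, T i * φ k = φ k * T i)
    (hind : ∀ (s : Finset ι) (κ : ι → K), ∑ i ∈ s, φ (κ i) * T i = 0 → ∀ i ∈ s, κ i = 0) :
    ∃ n : ℕ, Nat.card V = Nat.card K ^ n ∧ Nat.card ι ≤ n ^ 2 := by
  let : Module K V := Module.compHom V φ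
  have hs : ∀ (k : K) (v : V), k • v = φ k v := fun _ _ => rfl
  let T' : ι → V →ₗ[K] V := fun i =>
    { toFun := T i
      map_add' := (T i).map_add
      map_smul' := fun k v => by
        simp only [hs, RingHom.id_apply]
        exact LinearMap.congr_fun (hcomm i k) v }
  have hli : LinearIndependent K T' := by
    rw [linearIndependent_iff']
    intro s κ h
    refine hind s κ ?_
    ext v
    have := LinearMap.congr_fun h v
    simpa [T', hs, LinearMap.sum_apply] using this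
  have := Fintype.ofFinite ι
  refine ⟨Module.finrank K V, Module.natCard_eq_pow_finrank, ?_⟩
  have h1 := hli.fintype_card_le_finrank
  rw [Module.finrank_linearMap] at h1
  rw [Nat.card_eq_fintype_card, sq]
  exact h1

theorem Setup.field_facts [Nontrivial V] (H : Setup ρ Z D) :
    (∃ z ∈ Z, ∀ w ∈ Z, ∃ i : ℤ, w = z ^ i) ∧
    ∃ k n : ℕ, 2 ≤ k ∧ Nat.card Z ≤ k ∧ Nat.card V = k ^ n ∧
      Nat.card (D.map (QuotientGroup.mk' Z)) ≤ n ^ 2 := by
  obtain ⟨K, _, _, φ, hφ, hK⟩ := H.exists_field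
  choose f hf using fun z : Z => (hK (ρ z)).mp (Submodule.subset_span ⟨z, z.2, rfl⟩)
  let f' : Z →* K :=
    { toFun := f
      map_one' := hφ (by rw [hf]; simp)
      map_mul' := fun a b => hφ (by rw [map_mul, hf, hf, hf]; simp) }
  have hf' : Function.Injective f' := by
    intro a b h
    have h1 : φ (f a) = φ (f b) := congrArg φ h
    rw [hf, hf] at h1
    exact Subtype.ext (H.inj h1)
  refine ⟨?_, ?_⟩
  · obtain ⟨z, hz⟩ := (isCyclic_of_injective_ringHom f' hf').exists_generator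
    refine ⟨z, z.2, fun w hw => ?_⟩
    obtain ⟨i, hi⟩ := hz ⟨w, hw⟩
    exact ⟨i, by simpa using (congrArg Subtype.val hi).symm⟩
  · choose σ hσ using fun x : D.map (QuotientGroup.mk' Z) => x.2
    have hσ2 : ∀ x, ((σ x : Γ) : Γ ⧸ Z) = x.1 := fun x => (hσ x).2
    have hcomm : ∀ i k, ρ (σ i) * φ k = φ k * ρ (σ i) := by
      intro i k
      have h1 := (hK (φ k)).mpr ⟨k, rfl⟩
      generalize φ k = X at h1
      induction h1 using Submodule.span_induction with
      | mem x hx =>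
        obtain ⟨x, hx, rfl⟩ := hx
        rw [← map_mul, ← map_mul, H.cent _ (hσ i).1 x hx]
      | zero => simp
      | add x y _ _ hx hy => rw [mul_add, add_mul, hx, hy]
      | smul c x _ hx => rw [smul_mul_assoc, mul_smul_comm, hx]
    have hmem : ∀ i k, φ k * ρ (σ i) ∈ KS ρ Z {((σ i : Γ) : Γ ⧸ Z)} := by
      intro i k
      have h1 := (hK (φ k)).mpr ⟨k, rfl⟩
      generalize φ k = X at h1
      induction h1 using Submodule.span_induction with
      | mem x hx =>
        obtain ⟨x, hx, rfl⟩ := hx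
        rw [← map_mul]
        refine mem_KS ?_
        rw [QuotientGroup.mk_mul, (QuotientGroup.eq_one_iff x).mpr hx, one_mul]
        simp
      | zero => simp
      | add x y _ _ hx hy => rw [add_mul]; exact Submodule.add_mem _ hx hy
      | smul c x _ hx => rw [smul_mul_assoc]; exact Submodule.smul_mem _ _ hx
    obtain ⟨n, h1, h2⟩ := card_bound K φ _ (fun i => ρ (σ i)) hcomm (by
      intro s κ h i hi
      rw [← Finset.add_sum_erase _ _ hi] at h
      have h3 : φ (κ i) * ρ (σ i) = 0 := by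
        refine H.sep (hσ i).1 ((s.erase i).image Subtype.val) ?_ ?_ _ (hmem i _) ?_
        · intro y hy
          obtain ⟨j, _, hj⟩ := Finset.mem_image.mp hy
          refine H.mem_of_mk_eq ((hσ2 j).trans hj) ?_
          simpa using (hσ j).1
        · intro hy
          obtain ⟨j, hj, hj'⟩ := Finset.mem_image.mp hy
          rw [hσ2] at hj'
          exact Finset.ne_of_mem_erase hj (Subtype.ext hj')
        · rw [eq_neg_of_add_eq_zero_left h]
          refine Submodule.neg_mem _ (Submodule.sum_mem _ (fun j hj => KS_mono ?_ (hmem j _)))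
          rw [Finset.singleton_subset_iff, hσ2]
          exact Finset.mem_image_of_mem _ hj
      apply hφ
      have := congrArg (fun T => T * ρ (σ i)⁻¹) h3
      simpa only [mul_assoc, ← map_mul, mul_inv_cancel, map_one, mul_one, zero_mul, map_zero]
        using this)
    exact ⟨Nat.card K, n, Finite.one_lt_card, Nat.card_le_card_of_injective f' hf', h1, h2⟩

theorem II_mul_le (q q' : Γ) : II Z D (q * q') ≤ II Z D q * II Z D q' := by
  unfold II
  rw [← Set.ncard_prod]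
  refine le_trans (Set.ncard_le_ncard ?_ (Set.toFinite _))
    (Set.ncard_image_le (f := fun p : (Γ ⧸ Z) × (Γ ⧸ Z) => p.1 * p.2) (Set.toFinite _))
  rintro _ ⟨e, he, rfl⟩
  refine ⟨(((e * q * e⁻¹ : Γ) : Γ ⧸ Z), ((e * q' * e⁻¹ : Γ) : Γ ⧸ Z)),
    ⟨⟨e, he, rfl⟩, ⟨e, he, rfl⟩⟩, ?_⟩
  simp only [← QuotientGroup.mk_mul]
  congr 1
  group

theorem II_inv_le (q : Γ) : II Z D q⁻¹ ≤ II Z D q := by
  unfold II
  refine le_trans (Set.ncard_le_ncard ?_ (Set.toFinite _))
    (Set.ncard_image_le (f := fun p : Γ ⧸ Z => p⁻¹) (Set.toFinite _))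
  rintro _ ⟨e, he, rfl⟩
  refine ⟨_, ⟨e, he, rfl⟩, ?_⟩
  simp only [← QuotientGroup.mk_inv]
  congr 1
  group

theorem Setup.II_conj_le (H : Setup ρ Z D) (x q : Γ) : II Z D (x * q * x⁻¹) ≤ II Z D q := by
  unfold II
  refine le_trans (Set.ncard_le_ncard ?_ (Set.toFinite _))
    (Set.ncard_image_le (f := fun p : Γ ⧸ Z => (x : Γ ⧸ Z) * p * (x : Γ ⧸ Z)⁻¹) (Set.toFinite _))
  rintro _ ⟨e, he, rfl⟩
  refine ⟨_, ⟨_, H.conj_mem he x, rfl⟩, ?_⟩
  simp only [← QuotientGroup.mk_inv, ← QuotientGroup.mk_mul]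
  congr 1
  group

theorem II_one_le : II Z D 1 ≤ 1 := by
  unfold II
  rw [Set.ncard_le_one (Set.toFinite _)]
  rintro _ ⟨e, _, rfl⟩ _ ⟨e', _, rfl⟩
  simp

theorem II_pow_le (q : Γ) (j : ℕ) : II Z D (q ^ j) ≤ II Z D q ^ j := by
  induction j with
  | zero => simpa using II_one_le
  | succ j ih =>
    rw [pow_succ, pow_succ]
    exact (II_mul_le _ _).trans (Nat.mul_le_mul_right _ ih)

theorem Setup.II_comm_le (H : Setup ρ Z D) (x q : Γ) :
    II Z D (x * q * x⁻¹ * q⁻¹) ≤ II Z D q ^ 2 := by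
  rw [sq]
  exact (II_mul_le _ _).trans (Nat.mul_le_mul (H.II_conj_le x q) (II_inv_le q))

theorem II_le_card (q : Γ) : II Z D q ≤ Nat.card (D.map (QuotientGroup.mk' Z)) := by
  unfold II
  rw [← SetLike.coe_sort_coe, Nat.card_coe_set_eq]
  refine le_trans (Set.ncard_le_ncard ?_ (Set.toFinite _))
    (Set.ncard_image_le (f := fun p : Γ ⧸ Z => p * (q : Γ ⧸ Z) * p⁻¹) (Set.toFinite _))
  rintro _ ⟨e, he, rfl⟩
  exact ⟨e, ⟨e, he, rfl⟩, by simp⟩

/-- An elementary abelian group acting faithfully on an abelian group of odd order with small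
inverted parts is small. -/
theorem card_le_of_inverted {Q A : Type} [Group Q] [Finite Q] [Group A] [Finite A]
    (B : Subgroup Q) [hB : B.Normal] (hc : ∀ a ∈ B, ∀ b ∈ B, a * b = b * a)
    (ho : ∀ a ∈ B, a * a = 1 → a = 1) (hA : ∀ u : A, u * u = 1) (φ : A →* Q)
    (hf : ∀ v : A, (∀ d ∈ B, φ v * d * (φ v)⁻¹ = d) → v = 1) (J : ℕ)
    (hJ : ∀ u : A, {d | d ∈ B ∧ φ u * d * (φ u)⁻¹ = d⁻¹}.ncard ≤ J) : Nat.card A ≤ J ^ J := by
  have hinv : ∀ u : A, u⁻¹ = u := fun u => inv_eq_of_mul_eq_one_right (hA u)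
  have hAc : ∀ u v : A, u * v = v * u := fun u v => by
    rw [← hinv (u * v), mul_inv_rev, hinv, hinv]
  have hcc : ∀ (u v : A) (d : Q), φ u * (φ v * d * (φ v)⁻¹) * (φ u)⁻¹ =
      φ (u * v) * d * (φ (u * v))⁻¹ := fun u v d => by rw [map_mul]; group
  have hminus : ∀ (u : A), ∀ d ∈ B, φ u * (d * (φ u * d * (φ u)⁻¹)⁻¹) * (φ u)⁻¹ =
      (d * (φ u * d * (φ u)⁻¹)⁻¹)⁻¹ := by
    intro u d _
    have h1 := hcc u u d
    rw [hA, map_one, one_mul, inv_one, mul_one] at h1
    calc φ u * (d * (φ u * d * (φ u)⁻¹)⁻¹) * (φ u)⁻¹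
        = φ u * d * (φ u)⁻¹ * (φ u * (φ u * d * (φ u)⁻¹) * (φ u)⁻¹)⁻¹ := by group
      _ = _ := by rw [h1]; group
  have hself : ∀ d ∈ B, d = d⁻¹ → d = 1 := fun d hd h =>
    ho d hd (by nth_rewrite 1 [h]; exact inv_mul_cancel d)
  obtain ⟨u, hu⟩ := Finite.exists_max
    (fun u : A => {d | d ∈ B ∧ φ u * d * (φ u)⁻¹ = d⁻¹}.ncard)
  have key : ∀ v : A, (∀ d ∈ B, φ u * d * (φ u)⁻¹ = d⁻¹ → φ v * d * (φ v)⁻¹ = d) → v = 1 := by
    intro v hv
    have h1 : {d | d ∈ B ∧ φ u * d * (φ u)⁻¹ = d⁻¹} =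
        {d | d ∈ B ∧ φ (u * v) * d * (φ (u * v))⁻¹ = d⁻¹} := by
      refine Set.eq_of_subset_of_ncard_le ?_ (hu _) (Set.toFinite _)
      rintro d ⟨hd, hd'⟩
      exact ⟨hd, by rw [← hcc, hv d hd hd', hd']⟩
    have h2 : ∀ d ∈ B, φ v * d * (φ v)⁻¹ = d⁻¹ → d = 1 := by
      intro d hd hd'
      have hm : d * (φ u * d * (φ u)⁻¹)⁻¹ ∈ B := B.mul_mem hd (B.inv_mem (hB.conj_mem d hd _))
      have h3 := hv _ hm (hminus u d hd)
      have h4 : φ v * (d * (φ u * d * (φ u)⁻¹)⁻¹) * (φ v)⁻¹ = (d * (φ u * d * (φ u)⁻¹)⁻¹)⁻¹ := by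
        have h5 : φ v * (φ u * d * (φ u)⁻¹) * (φ v)⁻¹ = (φ u * d * (φ u)⁻¹)⁻¹ := by
          rw [hcc, hAc, ← hcc, hd']
          group
        calc φ v * (d * (φ u * d * (φ u)⁻¹)⁻¹) * (φ v)⁻¹
            = φ v * d * (φ v)⁻¹ * (φ v * (φ u * d * (φ u)⁻¹) * (φ v)⁻¹)⁻¹ := by group
          _ = d⁻¹ * (φ u * d * (φ u)⁻¹) := by rw [h5, hd', inv_inv]
          _ = _ := by rw [hc _ (B.inv_mem hd) _ (hB.conj_mem d hd _)]; group
      have h6 := hself _ hm (h3.symm.trans h4)
      have h7 : φ u * d * (φ u)⁻¹ = d := (mul_inv_eq_one.mp h6).symm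
      have h8 : d ∈ {d | d ∈ B ∧ φ (u * v) * d * (φ (u * v))⁻¹ = d⁻¹} := by
        refine ⟨hd, ?_⟩
        rw [hAc, ← hcc, h7, hd']
      rw [← h1] at h8
      exact hself d hd (h7.symm.trans h8.2)
    refine hf v (fun d hd => ?_)
    have hm : d * (φ v * d * (φ v)⁻¹)⁻¹ ∈ B := B.mul_mem hd (B.inv_mem (hB.conj_mem d hd _))
    exact (mul_inv_eq_one.mp (h2 _ hm (hminus v d hd))).symm
  let S : Set Q := {d | d ∈ B ∧ φ u * d * (φ u)⁻¹ = d⁻¹}
  let ψ : A → S → S := fun v d => ⟨φ v * d * (φ v)⁻¹, hB.conj_mem _ d.2.1 _, by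
    rw [hcc, hAc, ← hcc, d.2.2]; group⟩
  have hψ : Function.Injective ψ := by
    intro v w h
    have : v⁻¹ * w = 1 := by
      refine key _ (fun d hd hd' => ?_)
      have h1 : φ v * d * (φ v)⁻¹ = φ w * d * (φ w)⁻¹ :=
        congrArg Subtype.val (congrFun h ⟨d, hd, hd'⟩)
      rw [← hcc, ← h1, map_inv]
      group
    exact inv_mul_eq_one.mp this
  have h1 := Nat.card_le_card_of_injective ψ hψ
  rw [Nat.card_fun, Nat.card_coe_set_eq] at h1
  have h2 : S.ncard ≤ J := hJ u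
  have h3 : 0 < S.ncard := (Set.ncard_pos (Set.toFinite _)).mpr ⟨1, B.one_mem, by simp⟩
  exact h1.trans ((Nat.pow_le_pow_left h2 _).trans (Nat.pow_le_pow_right (by omega) h2))

theorem Setup.card_A [Nontrivial V] (H : Setup ρ Z D) (g : Γ) (A : Subgroup Γ)
    (hA : ∀ u ∈ A, u * u = 1) (hA' : ∀ u ∈ A, ∃ x : Γ, u = x * g * x⁻¹ * g⁻¹) (M : ℕ)
    (hM : II Z D g ≤ M) : Nat.card A ≤ (M ^ 2) ^ (M ^ 2) := by
  have := H.Dn
  have : (D.map (QuotientGroup.mk' Z)).Normal :=
    Subgroup.Normal.map H.Dn _ (QuotientGroup.mk'_surjective Z)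
  have hcomm : ∀ a ∈ D.map (QuotientGroup.mk' Z), ∀ b ∈ D.map (QuotientGroup.mk' Z),
      a * b = b * a := by
    rintro _ ⟨a, ha, rfl⟩ _ ⟨b, hb, rfl⟩
    exact H.mk_comm ha hb
  have hodd : ∀ a ∈ D.map (QuotientGroup.mk' Z), a * a = 1 → a = 1 := by
    rintro _ ⟨a, ha, rfl⟩ h
    rw [← map_mul] at h
    exact (QuotientGroup.eq_one_iff a).mpr (H.odd_D ha ((QuotientGroup.eq_one_iff _).mp h))
  obtain ⟨z, hz, hgen⟩ := H.field_facts.1
  have hAZ : ∀ u ∈ A, ∀ w ∈ Z, u * w = w * u := by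
    intro u hu w hw
    obtain ⟨x, rfl⟩ := hA' u hu
    have k : ∀ y : Γ, ∃ i : ℤ, ∀ w ∈ Z, y * w * y⁻¹ = w ^ i := by
      intro y
      obtain ⟨i, hi⟩ := hgen _ (Subgroup.Normal.conj_mem ‹_› z hz y)
      refine ⟨i, fun w hw => ?_⟩
      obtain ⟨j, rfl⟩ := hgen w hw
      rw [← conj_zpow, hi, ← zpow_mul, ← zpow_mul, mul_comm]
    obtain ⟨i, hi⟩ := k x
    obtain ⟨j, hj⟩ := k g
    have hw' : x⁻¹ * g⁻¹ * w * (x⁻¹ * g⁻¹)⁻¹ ∈ Z := Subgroup.Normal.conj_mem ‹_› w hw _
    generalize hw2 : x⁻¹ * g⁻¹ * w * (x⁻¹ * g⁻¹)⁻¹ = w' at hw'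
    have e1 : x * (g * w' * g⁻¹) * x⁻¹ = g * (x * w' * x⁻¹) * g⁻¹ := by
      rw [hj w' hw', hi _ (Z.zpow_mem hw' j), hi w' hw', hj _ (Z.zpow_mem hw' i), ← zpow_mul,
        ← zpow_mul, mul_comm]
    calc x * g * x⁻¹ * g⁻¹ * w = x * (g * w' * g⁻¹) * x⁻¹ * (x * g * x⁻¹ * g⁻¹) := by
          rw [← hw2]; group
      _ = _ := by rw [e1, ← hw2]; group
  refine card_le_of_inverted (D.map (QuotientGroup.mk' Z)) hcomm hodd
    (fun u => Subtype.ext (hA u u.2)) ((QuotientGroup.mk' Z).comp A.subtype) ?_ _ ?_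
  · intro v hv
    have hvv := hA v v.2
    refine Subtype.ext (H.odd_Z (H.center v (fun d hd => ?_)) hvv)
    have h1 : (v : Γ) * d * (v : Γ)⁻¹ * d⁻¹ ∈ Z := by
      rw [← QuotientGroup.eq_one_iff]
      have := hv _ ⟨d, hd, rfl⟩
      simp only [MonoidHom.comp_apply, Subgroup.coe_subtype, QuotientGroup.mk'_apply] at this
      simp only [QuotientGroup.mk_mul, QuotientGroup.mk_inv, this, mul_inv_cancel]
    have h2 := hAZ v v.2 _ h1
    have h3 : (v : Γ) * d * (v : Γ)⁻¹ * d⁻¹ = 1 := by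
      refine H.odd_Z h1 ?_
      calc (v : Γ) * d * (v : Γ)⁻¹ * d⁻¹ * ((v : Γ) * d * (v : Γ)⁻¹ * d⁻¹)
          = (((v : Γ) * d * (v : Γ)⁻¹ * d⁻¹) * v) * d * (v : Γ)⁻¹ * d⁻¹ := by group
        _ = ((v : Γ) * v) * d * ((v : Γ) * v)⁻¹ * d⁻¹ := by rw [← h2]; group
        _ = 1 := by rw [hvv]; group
    rw [mul_inv_eq_one, mul_inv_eq_iff_eq_mul] at h3
    exact h3
  · intro u
    obtain ⟨x, hx⟩ := hA' u u.2
    have h1 : II Z D (u : Γ) ≤ M ^ 2 := by
      rw [hx]
      exact (H.II_comm_le x g).trans (Nat.pow_le_pow_left hM 2)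
    refine le_trans ?_ h1
    unfold II
    refine Set.ncard_le_ncard_of_injOn (fun d => d * ((u : Γ) : Γ ⧸ Z) * d⁻¹) ?_ ?_
      (Set.toFinite _)
    · rintro _ ⟨⟨d, hd, rfl⟩, -⟩
      exact ⟨d, hd, by simp⟩
    · rintro a ⟨ha, ha'⟩ b ⟨hb, hb'⟩ h
      simp only [MonoidHom.comp_apply, Subgroup.coe_subtype, QuotientGroup.mk'_apply] at ha' hb' h
      generalize ((u : Γ) : Γ ⧸ Z) = w at ha' hb' h
      have e1 : a * w * a⁻¹ = a * a * w := by
        calc a * w * a⁻¹ = a * (w * a * w⁻¹)⁻¹ * w := by group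
          _ = _ := by rw [ha', inv_inv]
      have e2 : b * w * b⁻¹ = b * b * w := by
        calc b * w * b⁻¹ = b * (w * b * w⁻¹)⁻¹ * w := by group
          _ = _ := by rw [hb', inv_inv]
      rw [e1, e2, mul_left_inj] at h
      have hm := Subgroup.mul_mem _ (Subgroup.inv_mem _ ha) hb
      refine inv_mul_eq_one.mp (hodd _ hm ?_)
      have c := hcomm _ (Subgroup.inv_mem _ ha) _ hb
      calc a⁻¹ * b * (a⁻¹ * b) = a⁻¹ * (b * a⁻¹) * b := by group
        _ = a⁻¹ * a⁻¹ * (b * b) := by rw [← c]; group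
        _ = 1 := by rw [← h]; group

theorem index_centralizer_le (N : Subgroup Γ) (hN : N.Normal) {a : Γ} (ha : a ∈ N) :
    (Subgroup.centralizer ({a} : Set Γ)).index ≤ Nat.card N := by
  let f : Γ ⧸ Subgroup.centralizer ({a} : Set Γ) → N := fun x =>
    ⟨x.out * a * x.out⁻¹, hN.conj_mem a ha _⟩
  refine Nat.card_le_card_of_injective f (fun x y h => ?_)
  have h1 : x.out * a * x.out⁻¹ = y.out * a * y.out⁻¹ := congrArg Subtype.val h
  rw [← QuotientGroup.out_eq' x, ← QuotientGroup.out_eq' y, QuotientGroup.eq,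
    Subgroup.mem_centralizer_singleton_iff]
  calc x.out⁻¹ * y.out * a = x.out⁻¹ * (y.out * a * y.out⁻¹) * y.out := by group
    _ = _ := by rw [← h1]; group

theorem index_centralizer_chain (N : Subgroup Γ) (hN : N.Normal) (r : ℕ) :
    ∀ H : Subgroup Γ, H ≤ N → Nat.card N ≤ 2 ^ r * Nat.card H →
      (Subgroup.centralizer (N : Set Γ)).index ≤
        (Subgroup.centralizer (H : Set Γ)).index * Nat.card N ^ r := by
  induction r with
  | zero =>
    intro H hH hc
    rw [Subgroup.eq_of_le_of_card_ge hH (by simpa using hc)]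
    simp
  | succ r ih =>
    intro H hH hc
    by_cases hNH : N ≤ H
    · rw [le_antisymm hH hNH]
      exact Nat.le_mul_of_pos_right _ (pow_pos Nat.card_pos _)
    · obtain ⟨d, hd, hdH⟩ := SetLike.not_le_iff_exists.mp hNH
      have hle : H ⊔ Subgroup.zpowers d ≤ N := sup_le hH (Subgroup.zpowers_le_of_mem hd)
      have h1 : 2 * Nat.card H ≤ Nat.card (H ⊔ Subgroup.zpowers d : Subgroup Γ) := by
        obtain ⟨k, hk⟩ := Subgroup.card_dvd_of_le (le_sup_left : H ≤ H ⊔ Subgroup.zpowers d)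
        have hpos : 0 < Nat.card (H ⊔ Subgroup.zpowers d : Subgroup Γ) := Nat.card_pos
        have hk1 : k ≠ 1 := by
          rintro rfl
          have := Subgroup.eq_of_le_of_card_ge (le_sup_left : H ≤ H ⊔ Subgroup.zpowers d)
            (by omega)
          exact hdH (this ▸ Subgroup.mem_sup_right (Subgroup.mem_zpowers d))
        have hk0 : k ≠ 0 := by
          rintro rfl
          omega
        rw [hk, mul_comm]
        exact Nat.mul_le_mul_left _ (by omega)
      have h2 := ih _ hle (hc.trans (by rw [pow_succ, mul_assoc]; exact Nat.mul_le_mul_left _ h1))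
      have h3 : Subgroup.centralizer (H : Set Γ) ⊓ Subgroup.centralizer ({d} : Set Γ) ≤
          Subgroup.centralizer ((H ⊔ Subgroup.zpowers d : Subgroup Γ) : Set Γ) := by
        intro x hx
        have h4 : H ⊔ Subgroup.zpowers d ≤ Subgroup.centralizer ({x} : Set Γ) := by
          refine sup_le (fun h hh => ?_) (Subgroup.zpowers_le_of_mem ?_)
          · exact Subgroup.mem_centralizer_singleton_iff.mpr
              (Subgroup.mem_centralizer_iff.mp hx.1 h hh)
          · exact Subgroup.mem_centralizer_singleton_iff.mpr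
              (Subgroup.mem_centralizer_singleton_iff.mp hx.2).symm
        exact Subgroup.mem_centralizer_iff.mpr
          (fun h hh => Subgroup.mem_centralizer_singleton_iff.mp (h4 hh))
      have h5 := (Subgroup.index_antitone h3).trans Subgroup.index_inf_le
      have h6 := index_centralizer_le N hN hd
      calc _ ≤ _ := h2
        _ ≤ (Subgroup.centralizer (H : Set Γ)).index * Nat.card N * Nat.card N ^ r :=
          Nat.mul_le_mul_right _ (h5.trans (Nat.mul_le_mul_left _ h6))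
        _ = _ := by ring

theorem Setup.card_le [Nontrivial V] (H : Setup ρ Z D) (r : ℕ)
    (hr : Nat.card (D.map (QuotientGroup.mk' Z)) ≤ 2 ^ r) :
    Nat.card Γ ≤ Nat.card Z ^ 2 * (2 ^ r * Nat.card Z) ^ r := by
  have h1 : Nat.card D ≤ 2 ^ r * Nat.card Z := by
    have e1 := Subgroup.card_mul_index (Z.subgroupOf D)
    have e2 := Subgroup.relIndex_ker (K := D) (QuotientGroup.mk' Z)
    rw [QuotientGroup.ker_mk'] at e2
    rw [Nat.card_congr (Subgroup.subgroupOfEquivOfLe H.le).toEquiv] at e1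
    rw [← e1, mul_comm]
    exact Nat.mul_le_mul_right _ (e2.le.trans hr)
  have h2 := index_centralizer_chain D H.Dn r Z H.le h1
  obtain ⟨z, hz, hgen⟩ := H.field_facts.1
  have h3 : Subgroup.centralizer ({z} : Set Γ) ≤ Subgroup.centralizer (Z : Set Γ) := by
    intro x hx
    refine Subgroup.mem_centralizer_iff.mpr (fun w hw => ?_)
    obtain ⟨i, rfl⟩ := hgen w hw
    have : Commute x z := Subgroup.mem_centralizer_singleton_iff.mp hx
    exact (this.zpow_right i).symm
  have h4 := (Subgroup.index_antitone h3).trans (index_centralizer_le Z ‹_› hz)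
  have h5 : Subgroup.centralizer (D : Set Γ) ≤ Z := fun x hx =>
    H.center x (fun e he => (Subgroup.mem_centralizer_iff.mp hx e he).symm)
  have h6 := Subgroup.index_antitone h5
  rw [← Subgroup.card_mul_index Z, sq, mul_assoc]
  exact Nat.mul_le_mul_left _ (h6.trans (h2.trans (Nat.mul_le_mul h4 (Nat.pow_le_pow_left h1 _))))

theorem cube_le_pow (s : ℕ) (hs : 10 ≤ s) : s ^ 3 ≤ 2 ^ s := by
  induction s, hs using Nat.le_induction with
  | base => norm_num
  | succ s hs ih =>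
    have : (s + 1) ^ 3 ≤ 2 * s ^ 3 := by nlinarith [mul_le_mul hs hs (by norm_num) (by omega)]
    rw [pow_succ 2]
    omega

theorem numeric (c : ℕ) : ∃ n₀ : ℕ, ∀ n, n₀ ≤ n → ∃ r : ℕ, n ^ 2 ≤ 2 ^ r ∧
    (2 + r + r * r) * c < n := by
  refine ⟨2 ^ (6 * c + 10), fun n hn => ?_⟩
  have hn0 : n ≠ 0 := by
    have : 0 < 2 ^ (6 * c + 10) := by positivity
    omega
  have h1 : 2 ^ Nat.log 2 n ≤ n := Nat.pow_log_le_self 2 hn0
  have h2 : n < 2 ^ (Nat.log 2 n + 1) := Nat.lt_pow_succ_log_self (by norm_num) n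
  have h3 : 6 * c + 10 ≤ Nat.log 2 n := Nat.le_log_of_pow_le (by norm_num) hn
  generalize Nat.log 2 n = s at h1 h2 h3
  refine ⟨(s + 1) * 2, ?_, ?_⟩
  · rw [pow_mul]
    exact Nat.pow_le_pow_left h2.le 2
  · have h4 := cube_le_pow s (by omega)
    have h5 : 2 + (s + 1) * 2 + (s + 1) * 2 * ((s + 1) * 2) ≤ 6 * s ^ 2 := by
      have : 10 ≤ s := by omega
      nlinarith
    have h6 : 6 * s ^ 2 * c < s ^ 3 := by
      have : 0 < s ^ 2 := pow_pos (by omega) 2
      nlinarith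
    calc _ ≤ 6 * s ^ 2 * c := Nat.mul_le_mul_right _ h5
      _ < n := by omega

theorem cover (X : Γ → Module.End (ZMod 2) V) (hX : ∀ t, Nat.card Γ < 2 ^ rk (X t)) :
    ∃ v : V, ∀ t, X t v ≠ 0 := by
  by_contra hcon
  push Not at hcon
  have := Fintype.ofFinite Γ
  have := Fintype.ofFinite V
  have h1 : ∀ t, (Finset.univ.filter (fun v => X t v = 0)).card * 2 ^ rk (X t) =
      Fintype.card V := by
    intro t
    have e1 : (Finset.univ.filter (fun v => X t v = 0)).card = Nat.card (LinearMap.ker (X t)) := by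
      rw [Nat.card_eq_fintype_card, Fintype.card_subtype]
      congr 1
    rw [e1, ← Nat.card_eq_fintype_card,
      Module.natCard_eq_pow_finrank (K := ZMod 2) (V := LinearMap.ker (X t)),
      Module.natCard_eq_pow_finrank (K := ZMod 2) (V := V), Nat.card_zmod, ← pow_add, add_comm]
    congr 1
    exact LinearMap.finrank_range_add_finrank_ker (X t)
  have h2 : Fintype.card V ≤ ∑ t, (Finset.univ.filter (fun v => X t v = 0)).card := by
    refine le_trans (Finset.card_le_card ?_) Finset.card_biUnion_le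
    intro v _
    obtain ⟨t, ht⟩ := hcon v
    exact Finset.mem_biUnion.mpr ⟨t, Finset.mem_univ _, by simp [ht]⟩
  have h3 : (∑ t, (Finset.univ.filter (fun v => X t v = 0)).card) * Nat.card Γ <
      ∑ _t : Γ, Fintype.card V := by
    rw [Finset.sum_mul]
    refine Finset.sum_lt_sum_of_nonempty Finset.univ_nonempty (fun t _ => ?_)
    rw [← h1 t]
    refine Nat.mul_lt_mul_of_pos_left (hX t) (Finset.card_pos.mpr ⟨0, by simp⟩)
  rw [Finset.sum_const, Finset.card_univ, smul_eq_mul, Nat.card_eq_fintype_card, mul_comm] at h3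
  exact absurd (Nat.mul_le_mul_left _ h2) (not_le.mpr h3)

end Pool.Agent.P.MP_ac4bd0_al.No.CoreAux
end

-- part Pool.Agent.P.MP_ac4bd0_al.No.Core
section

set_option autoImplicit false
set_option linter.unusedSectionVars false

namespace Pool.Agent.P.MP_ac4bd0_al.No

namespace CoreAux

open Classical

variable {Γ V : Type} [Group Γ] [Finite Γ] [AddCommGroup V] [Module (ZMod 2) V] [Finite V]
variable {ρ : Γ →* Module.End (ZMod 2) V} {Z : Subgroup Γ} [Z.Normal] {D : Subgroup Γ}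

theorem II_pow_big {p : ℕ} (hp : p = 5 ∨ p = 7) {g : Γ} (hg : g ^ p = 1) {L : ℕ} (hL : 0 < L)
    (h : L ^ p < II Z D g) {i : ℕ} (hi0 : 0 < i) (hi : i < p) : L < II Z D (g ^ i) := by
  have h1 : ∃ j < p, i * j % p = 1 := by
    rcases hp with rfl | rfl <;> interval_cases i <;> decide
  obtain ⟨j, hj, hij⟩ := h1
  have h2 : g = (g ^ i) ^ j := by
    rw [← pow_mul, pow_eq_pow_mod _ hg, hij, pow_one]
  by_contra hcon
  have h3 := II_pow_le (Z := Z) (D := D) (g ^ i) j
  rw [← h2] at h3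
  have h4 : II Z D (g ^ i) ^ j ≤ L ^ p :=
    (Nat.pow_le_pow_left (not_lt.mp hcon) j).trans (Nat.pow_le_pow_right hL hj.le)
  omega

theorem sum_list (f : ℕ → Γ) (n : ℕ) :
    (((List.range n).map f).map ρ).sum = ∑ i ∈ Finset.range n, ρ (f i) := by
  induction n with
  | zero => simp
  | succ n ih => rw [List.range_succ, Finset.sum_range_succ, ← ih]; simp

end CoreAux

open CoreAux in
/-- The quasi-primitive case. -/
theorem core (p : ℕ) (hp : p = 5 ∨ p = 7) : ∃ c : ℕ, ∀ (Γ V : Type) [Group Γ] [Finite Γ]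
    [Group.IsSolvable Γ] [AddCommGroup V] [Module (ZMod 2) V] [Finite V] [Nontrivial V]
    (ρ : Γ →* Module.End (ZMod 2) V), Function.Injective ρ →
    (∀ M : Subgroup Γ, M.Normal → (∀ x ∈ M, ∀ y ∈ M, x * y = y * x) →
      ∀ X ∈ Submodule.span (ZMod 2) (ρ '' (M : Set Γ)), X = 0 ∨ Function.Injective X) →
    ∀ (g : Γ) (A : Subgroup Γ), g ^ p = 1 → (∀ u ∈ A, u * u = 1) →
      (∀ u ∈ A, ∃ x : Γ, u = x * g * x⁻¹ * g⁻¹) → c < Nat.card A →
      ∃ w : V, w ≠ 0 ∧ ρ g w = w ∧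
        ∀ t : Γ, ρ t w = w → t * g * t⁻¹ ≠ g ^ 2 ∧ t * g * t⁻¹ ≠ (g ^ 2)⁻¹ := by
  classical
  obtain ⟨m, rfl⟩ : ∃ m, p = m + 1 := ⟨p - 1, by omega⟩
  obtain ⟨L, hL0, hL1, hL2⟩ : ∃ L, 0 < L ∧ bnd m 1 ≤ L ∧ bnd (m + (m + 1)) 1 ≤ L :=
    ⟨bnd m 1 + bnd (m + (m + 1)) 1 + 1, by omega, by omega, by omega⟩
  obtain ⟨c, hc1, hc2⟩ : ∃ c, cst m 1 ≤ c ∧ cst (m + (m + 1)) 1 ≤ c :=
    ⟨cst m 1 + cst (m + (m + 1)) 1, by omega, by omega⟩
  obtain ⟨n₀, hn₀⟩ := numeric c
  refine ⟨(((L ^ 2) ^ (m + 1) + n₀ ^ 2) ^ 2) ^ (((L ^ 2) ^ (m + 1) + n₀ ^ 2) ^ 2), ?_⟩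
  intro Γ V _ _ _ _ _ _ _ ρ hρ hqp g A hg hA hA' hcA
  obtain ⟨Z, D, hZ, H⟩ := exists_setup ρ hρ hqp
  have hI : (L ^ 2) ^ (m + 1) + n₀ ^ 2 < II Z D g := by
    by_contra h
    exact absurd (H.card_A g A hA hA' _ (not_lt.mp h)) (not_le.mpr hcA)
  have hLL : L ≤ L ^ 2 := by nlinarith
  have hpow : ∀ i, 0 < i → i < m + 1 → L ^ 2 < II Z D (g ^ i) := fun i h0 h1 =>
    II_pow_big hp hg (by positivity) (by omega) h0 h1
  obtain ⟨k, n, hk, hZk, hV, hn⟩ := H.field_facts.2
  have hn1 : n₀ ≤ n := by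
    have := II_le_card (Z := Z) (D := D) g
    exact (Nat.pow_le_pow_iff_left (by norm_num : 2 ≠ 0)).mp (by omega)
  obtain ⟨r, hr1, hr2⟩ := hn₀ n hn1
  have hΓ : Nat.card Γ ≤ k ^ (2 + r + r * r) := by
    refine (H.card_le r (hn.trans hr1)).trans ?_
    calc Nat.card Z ^ 2 * (2 ^ r * Nat.card Z) ^ r ≤ k ^ 2 * (k ^ r * k) ^ r := by gcongr
      _ = _ := by ring
  have hbig : ∀ X : Module.End (ZMod 2) V, Module.finrank (ZMod 2) V ≤ c * rk X →
      Nat.card Γ < 2 ^ rk X := by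
    intro X hX
    have h1 : Nat.card Γ ^ c < (2 ^ rk X) ^ c := by
      calc Nat.card Γ ^ c ≤ (k ^ (2 + r + r * r)) ^ c := Nat.pow_le_pow_left hΓ c
        _ < k ^ n := by rw [← pow_mul]; exact Nat.pow_lt_pow_right hk hr2
        _ = 2 ^ Module.finrank (ZMod 2) V := by
          rw [← hV, Module.natCard_eq_pow_finrank (K := ZMod 2) (V := V), Nat.card_zmod]
        _ ≤ (2 ^ rk X) ^ c := by
          rw [← pow_mul, mul_comm]
          exact Nat.pow_le_pow_right (by norm_num) hX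
    exact lt_of_pow_lt_pow_left₀ c (Nat.zero_le _) h1
  let N : Module.End (ZMod 2) V := ∑ i ∈ Finset.range (m + 1), ρ g ^ i
  have hN : N = 1 + (((List.range m).map (fun i => g ^ (i + 1))).map ρ).sum := by
    rw [sum_list]
    simp only [N, Finset.sum_range_succ', pow_zero, map_pow, add_comm]
  have hl1 : ∀ y ∈ (List.range m).map (fun i => g ^ (i + 1)), L < II Z D y := by
    intro y hy
    obtain ⟨i, hi, rfl⟩ := List.mem_map.mp hy
    exact hLL.trans_lt (hpow _ (by omega) (by simpa using hi))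
  have hNr : Nat.card Γ < 2 ^ rk N := by
    apply hbig
    have := H.rank_list ((List.range m).map (fun i => g ^ (i + 1))) (fun y hy => by
      simpa using hL1.trans_lt (hl1 y hy))
    rw [← hN] at this
    simp only [List.length_map, List.length_range] at this
    exact this.trans (Nat.mul_le_mul_right _ hc1)
  have hTr : ∀ t : Γ, (t * g * t⁻¹ = g ^ 2 ∨ t * g * t⁻¹ = (g ^ 2)⁻¹) →
      Nat.card Γ < 2 ^ rk (N - ρ t * N) := by
    intro t ht
    apply hbig
    have hl2 : ∀ i : ℕ, L < II Z D (t * g ^ i) := by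
      intro i
      by_contra hcon
      have h1 := H.II_comm_le g (t * g ^ i)
      have h2 : II Z D (t * g ^ i) ^ 2 ≤ L ^ 2 := Nat.pow_le_pow_left (not_lt.mp hcon) 2
      have h3 : g * (t * g ^ i) * g⁻¹ * (t * g ^ i)⁻¹ = g * (t * g * t⁻¹)⁻¹ := by group
      rw [h3] at h1
      rcases ht with ht | ht
      · have h4 := hpow 1 (by omega) (by omega)
        have h5 : g ^ 1 = (g * (t * g * t⁻¹)⁻¹)⁻¹ := by rw [ht]; group
        have h6 := II_inv_le (Z := Z) (D := D) (g * (t * g * t⁻¹)⁻¹)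
        rw [← h5] at h6
        omega
      · have h4 := hpow 3 (by omega) (by omega)
        have h5 : g ^ 3 = g * (t * g * t⁻¹)⁻¹ := by rw [ht]; group
        rw [← h5] at h1
        omega
    have := H.rank_list ((List.range m).map (fun i => g ^ (i + 1)) ++
        (List.range (m + 1)).map (fun i => t * g ^ i)) (fun y hy => by
      simp only [List.length_append, List.length_map, List.length_range]
      refine hL2.trans_lt ?_
      rcases List.mem_append.mp hy with hy | hy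
      · exact hl1 y hy
      · obtain ⟨i, _, rfl⟩ := List.mem_map.mp hy
        exact hl2 i)
    have e : ρ t * N = (((List.range (m + 1)).map (fun i => t * g ^ i)).map ρ).sum := by
      rw [sum_list]
      simp only [N, Finset.mul_sum, map_mul, map_pow]
    rw [List.map_append, List.sum_append, ← add_assoc, ← hN, ← e] at this
    simp only [List.length_append, List.length_map, List.length_range] at this
    rw [sub_eq_add_neg, neg_eq_of_add_eq_zero_right (add_self_end (ρ t * N))]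
    exact this.trans (Nat.mul_le_mul_right _ hc2)
  obtain ⟨v, hv⟩ := cover (Γ := Γ) (fun t => if t * g * t⁻¹ = g ^ 2 ∨ t * g * t⁻¹ = (g ^ 2)⁻¹ then
    N - ρ t * N else N) (fun t => by
      split_ifs with h
      · exact hTr t h
      · exact hNr)
  refine ⟨N v, ?_, ?_, ?_⟩
  · intro h0
    apply hv 1
    split_ifs
    · simp
    · exact h0
  · have h1 := mul_geom_sum (ρ g) (m + 1)
    rw [← map_pow, hg, map_one, sub_self, sub_mul, one_mul, sub_eq_zero] at h1
    exact LinearMap.congr_fun h1 v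
  · intro t ht
    rw [← not_or]
    intro h
    apply hv t
    rw [if_pos h]
    simp [ht]

end Pool.Agent.P.MP_ac4bd0_al.No
end

-- part Pool.Agent.P.MP_ac4bd0_al.No.Block1
section

set_option autoImplicit false
set_option linter.unusedSectionVars false

namespace Pool.Agent.P.MP_ac4bd0_al.No

abbrev F2 := ZMod 2

/-- The span of the image of a subgroup as a subalgebra. -/
def Kalg {Γ V : Type} [Group Γ] [AddCommGroup V] [Module F2 V] (ρ : Γ →* Module.End F2 V)
    (Z : Subgroup Γ) : Subalgebra F2 (Module.End F2 V) :=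
  (Submodule.span F2 (ρ '' (Z : Set Γ))).toSubalgebra
    (Submodule.subset_span ⟨1, Z.one_mem, map_one ρ⟩)
    (by
      intro x y hx hy
      have := Submodule.mul_mem_mul hx hy
      rw [Submodule.span_mul_span] at this
      refine Submodule.span_mono ?_ this
      rintro _ ⟨_, ⟨a, ha, rfl⟩, _, ⟨b, hb, rfl⟩, rfl⟩
      exact ⟨a * b, Z.mul_mem ha hb, map_mul ρ a b⟩)

theorem mem_Kalg {Γ V : Type} [Group Γ] [AddCommGroup V] [Module F2 V]
    {ρ : Γ →* Module.End F2 V} {Z : Subgroup Γ} {X : Module.End F2 V} :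
    X ∈ Kalg ρ Z ↔ X ∈ Submodule.span F2 (ρ '' (Z : Set Γ)) := Iff.rfl

theorem core' (p : ℕ) (hp : p = 5 ∨ p = 7) : ∃ c : ℕ, ∀ (Γ V : Type) [Group Γ] [Finite Γ]
    [Group.IsSolvable Γ] [AddCommGroup V] [Module F2 V] [Finite V] [Nontrivial V]
    (ρ : Γ →* Module.End F2 V),
    (∀ M : Subgroup Γ, M.Normal → (∀ x ∈ M, ∀ y ∈ M, ρ x * ρ y = ρ y * ρ x) →
      ∀ X ∈ Submodule.span F2 (ρ '' (M : Set Γ)), X = 0 ∨ Function.Injective X) →
    ∀ (g : Γ) (A : Subgroup Γ), g ^ p = 1 → (∀ u ∈ A, u * u = 1) →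
      (∀ u ∈ A, ∃ x : Γ, u = x * g * x⁻¹ * g⁻¹) → c < (ρ '' (A : Set Γ)).ncard →
      ∃ w : V, w ≠ 0 ∧ ρ g w = w ∧
        ∀ t : Γ, ρ t w = w → t * g * t⁻¹ ≠ g ^ 2 ∧ t * g * t⁻¹ ≠ (g ^ 2)⁻¹ := by
  obtain ⟨c, hc⟩ := core p hp
  refine ⟨c, ?_⟩
  intro Γ V _ _ _ _ _ _ _ ρ hqp g A hg h2 hA hcard
  let π := QuotientGroup.mk' ρ.ker
  let ρ' : Γ ⧸ ρ.ker →* Module.End F2 V := QuotientGroup.lift ρ.ker ρ le_rfl
  have hρ : ∀ x, ρ' (π x) = ρ x := fun x => rfl
  have hinj : Function.Injective ρ' := by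
    intro a b hab
    obtain ⟨a, rfl⟩ := QuotientGroup.mk'_surjective _ a
    obtain ⟨b, rfl⟩ := QuotientGroup.mk'_surjective _ b
    apply QuotientGroup.eq.mpr
    have h1 : ρ a = ρ b := hab
    rw [MonoidHom.mem_ker, map_mul, ← h1, ← map_mul, inv_mul_cancel, map_one]
  obtain ⟨w, hw0, hw1, hw2⟩ := hc (Γ ⧸ ρ.ker) V ρ' hinj (by
      intro M hM hMc X hX
      refine hqp (M.comap π) inferInstance ?_ X (Submodule.span_mono ?_ hX)
      · intro x hx y hy
        rw [← hρ, ← hρ, ← map_mul, hMc _ hx _ hy, map_mul]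
      · rintro _ ⟨a, ha, rfl⟩
        obtain ⟨a, rfl⟩ := QuotientGroup.mk'_surjective _ a
        exact ⟨a, ha, rfl⟩) (π g) (A.map π) (by rw [← map_pow, hg, map_one]) (by
      rintro _ ⟨u, hu, rfl⟩
      rw [← map_mul, h2 u hu, map_one]) (by
      rintro _ ⟨u, hu, rfl⟩
      obtain ⟨x, hx⟩ := hA u hu
      exact ⟨π x, by rw [hx]; simp only [map_mul, map_inv]⟩) (by
      refine hcard.trans_le ?_
      have e : ρ '' (A : Set Γ) = ρ' '' (A.map π : Set (Γ ⧸ ρ.ker)) := by
        rw [Subgroup.coe_map, Set.image_image]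
        rfl
      rw [e, ← SetLike.coe_sort_coe, Nat.card_coe_set_eq]
      exact Set.ncard_image_le)
  refine ⟨w, hw0, hw1, fun t ht => ?_⟩
  obtain ⟨h3, h4⟩ := hw2 (π t) ht
  constructor
  · intro h5
    apply h3
    simpa only [map_mul, map_inv, map_pow] using congrArg π h5
  · intro h5
    apply h4
    simpa only [map_mul, map_inv, map_pow] using congrArg π h5

variable {H W : Type} [Group H] [Finite H] [AddCommGroup W] [Module F2 W] [Finite W]

/-- Translate of a subspace. -/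
def tr (ρ : H →* Module.End F2 W) (s : H) (B : Submodule F2 W) : Submodule F2 W := B.map (ρ s)

variable {ρ : H →* Module.End F2 W}

theorem tr_mul (s t : H) (B : Submodule F2 W) : tr ρ (s * t) B = tr ρ s (tr ρ t B) := by
  unfold tr
  rw [map_mul, Module.End.mul_eq_comp, Submodule.map_comp]

theorem tr_one (B : Submodule F2 W) : tr ρ 1 B = B := by
  unfold tr
  rw [map_one, Module.End.one_eq_id, Submodule.map_id]

theorem tr_inv_tr (s : H) (B : Submodule F2 W) : tr ρ s⁻¹ (tr ρ s B) = B := by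
  rw [← tr_mul, inv_mul_cancel, tr_one]

theorem tr_tr_inv (s : H) (B : Submodule F2 W) : tr ρ s (tr ρ s⁻¹ B) = B := by
  rw [← tr_mul, mul_inv_cancel, tr_one]

theorem tr_mono (s : H) {B B' : Submodule F2 W} (h : B ≤ B') : tr ρ s B ≤ tr ρ s B' :=
  Submodule.map_mono h

theorem mem_tr {B : Submodule F2 W} {w : W} (s : H) (hw : w ∈ B) : ρ s w ∈ tr ρ s B :=
  Submodule.mem_map_of_mem hw

theorem rho_inj (s : H) : Function.Injective (ρ s) := by
  intro a b h
  have := congrArg (ρ s⁻¹) h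
  rwa [← Module.End.mul_apply, ← Module.End.mul_apply, ← map_mul, inv_mul_cancel, map_one] at this

theorem tr_eq_of_le {s : H} {B : Submodule F2 W} (h : B ≤ tr ρ s B) : tr ρ s B = B :=
  (Submodule.eq_of_le_of_finrank_le h (Submodule.finrank_map_le _ _)).symm

/-- Stabiliser of a subspace. -/
def stB (ρ : H →* Module.End F2 W) (B : Submodule F2 W) : Subgroup H where
  carrier := {s | tr ρ s B = B}
  one_mem' := tr_one B
  mul_mem' := by
    intro a b ha hb
    have ha' : tr ρ a B = B := ha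
    have hb' : tr ρ b B = B := hb
    show tr ρ (a * b) B = B
    rw [tr_mul, hb', ha']
  inv_mem' := by
    intro a ha
    have ha' : tr ρ a B = B := ha
    show tr ρ a⁻¹ B = B
    conv_lhs => rw [← ha']
    exact tr_inv_tr a B

theorem mem_stB {B : Submodule F2 W} {s : H} : s ∈ stB ρ B ↔ tr ρ s B = B := Iff.rfl

theorem mem_stB_tr {B : Submodule F2 W} {s x : H} :
    x ∈ stB ρ (tr ρ s B) ↔ s⁻¹ * x * s ∈ stB ρ B := by
  rw [mem_stB, mem_stB, tr_mul, tr_mul]
  constructor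
  · intro h
    rw [h, tr_inv_tr]
  · intro h
    rw [← tr_tr_inv (ρ := ρ) s (tr ρ x _), h]

theorem stB_maps {B : Submodule F2 W} {s : H} (hs : s ∈ stB ρ B) {w : W} (hw : w ∈ B) :
    ρ s w ∈ B := by
  have := mem_tr (ρ := ρ) s hw
  rwa [hs] at this

/-- The action of the stabiliser on the subspace. -/
def res (ρ : H →* Module.End F2 W) (B : Submodule F2 W) : stB ρ B →* Module.End F2 B where
  toFun s := (ρ s).restrict (fun _ hw => stB_maps s.2 hw)
  map_one' := by
    ext w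
    simp
  map_mul' s t := by
    ext w
    simp

theorem res_apply {B : Submodule F2 W} (s : stB ρ B) (w : B) : (res ρ B s w : W) = ρ s w := rfl

/-- The sum of the other translates. -/
def others (ρ : H →* Module.End F2 W) (B : Submodule F2 W) : Submodule F2 W :=
  ⨆ (s : H) (_ : tr ρ s B ≠ B), tr ρ s B

theorem le_others {B : Submodule F2 W} {s : H} (hs : tr ρ s B ≠ B) : tr ρ s B ≤ others ρ B :=
  le_iSup₂_of_le (f := fun (s : H) (_ : tr ρ s B ≠ B) => tr ρ s B) s hs le_rfl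

theorem others_le {B O : Submodule F2 W} (h : ∀ s, tr ρ s B ≠ B → tr ρ s B ≤ O) :
    others ρ B ≤ O := iSup₂_le h

/-- Blocks of imprimitivity. -/
def IsBlk (ρ : H →* Module.End F2 W) (B : Submodule F2 W) : Prop :=
  B ≠ ⊥ ∧ Disjoint B (others ρ B)

theorem IsBlk.tr {B : Submodule F2 W} (h : IsBlk ρ B) (x : H) : IsBlk ρ (tr ρ x B) := by
  constructor
  · intro h0
    apply h.1
    rw [← tr_inv_tr (ρ := ρ) x B, h0]
    exact Submodule.map_bot _
  · have h1 : others ρ (No.tr ρ x B) ≤ No.tr ρ x (others ρ B) := by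
      refine others_le (fun s hs => ?_)
      have e : No.tr ρ s (No.tr ρ x B) = No.tr ρ x (No.tr ρ (x⁻¹ * s * x) B) := by
        rw [← tr_mul, ← tr_mul]
        congr 1
        group
      rw [e]
      exact tr_mono x (le_others (fun h2 => hs (mem_stB_tr.mpr h2)))
    refine Disjoint.mono_right h1 ?_
    rw [disjoint_iff]
    unfold No.tr
    rw [← Submodule.map_inf _ (rho_inj x), disjoint_iff.mp h.2, Submodule.map_bot]

theorem IsBlk.mem_stB {B : Submodule F2 W} (h : IsBlk ρ B) {w : W} (hw : w ∈ B) (h0 : w ≠ 0)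
    {t : H} (ht : ρ t w = w) : t ∈ stB ρ B := by
  by_contra h1
  refine h0 (Submodule.disjoint_def.mp h.2 w hw (le_others h1 ?_))
  rw [← ht]
  exact mem_tr t hw

theorem IsBlk.map {B : Submodule F2 W} (h : IsBlk ρ B) {U : Submodule F2 B}
    (hU : IsBlk (res ρ B) U) : IsBlk ρ (U.map B.subtype) := by
  constructor
  · intro h0
    apply hU.1
    rw [eq_bot_iff]
    intro v hv
    have := Submodule.mem_map_of_mem (f := B.subtype) hv
    rw [h0, Submodule.mem_bot] at this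
    exact Subtype.ext this
  · have e : ∀ s : stB ρ B, No.tr ρ s (U.map B.subtype) = (No.tr (res ρ B) s U).map B.subtype := by
      intro s
      unfold No.tr
      rw [← Submodule.map_comp, ← Submodule.map_comp]
      rfl
    have h1 : others ρ (U.map B.subtype) ≤ (others (res ρ B) U).map B.subtype ⊔ others ρ B := by
      refine others_le (fun s hs => ?_)
      by_cases h2 : s ∈ stB ρ B
      · refine le_sup_of_le_left ?_
        have := e ⟨s, h2⟩
        simp only at this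
        rw [this] at hs ⊢
        exact Submodule.map_mono (le_others (fun h3 => hs (by rw [h3])))
      · exact le_sup_of_le_right ((tr_mono s (Submodule.map_subtype_le _ _)).trans (le_others h2))
    refine Disjoint.mono_right h1 (Submodule.disjoint_def.mpr ?_)
    rintro _ ⟨v, hv, rfl⟩ hw
    obtain ⟨_, ⟨x, hx, rfl⟩, y, hy, hxy⟩ := Submodule.mem_sup.mp hw
    have h2 : y = 0 := by
      refine Submodule.disjoint_def.mp h.2 y ?_ hy
      rw [eq_sub_of_add_eq' hxy]
      exact B.sub_mem v.2 x.2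
    rw [h2, add_zero] at hxy
    have h3 : x = v := Subtype.ext hxy
    rw [h3] at hx
    rw [Submodule.disjoint_def.mp hU.2 v hv hx, map_zero]

theorem exists_subblock [Nontrivial W] (M : Subgroup H) [hM : M.Normal]
    (hc : ∀ x ∈ M, ∀ y ∈ M, ρ x * ρ y = ρ y * ρ x) :
    ∃ U, IsBlk ρ U ∧ ∀ X ∈ Submodule.span F2 (ρ '' (M : Set H)),
      (∀ v ∈ U, X v = 0) ∨ ∀ v ∈ U, X v = 0 → v = 0 := by
  classical
  let R := Kalg ρ M
  have hR1 : ∀ X ∈ R, ∀ y ∈ M, X * ρ y = ρ y * X := by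
    intro X hX y hy
    rw [mem_Kalg] at hX
    induction hX using Submodule.span_induction with
    | mem x hx =>
      obtain ⟨z, hz, rfl⟩ := hx
      exact hc z hz y hy
    | zero => simp
    | add x y _ _ hx hy => rw [add_mul, mul_add, hx, hy]
    | smul a x _ hx => rw [smul_mul_assoc, mul_smul_comm, hx]
  have hR2 : ∀ X ∈ R, ∀ Y ∈ R, X * Y = Y * X := by
    intro X hX Y hY
    rw [mem_Kalg] at hY
    induction hY using Submodule.span_induction with
    | mem x hx =>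
      obtain ⟨z, hz, rfl⟩ := hx
      exact hR1 X hX z hz
    | zero => simp
    | add x y _ _ hx hy => rw [add_mul, mul_add, hx, hy]
    | smul a x _ hx => rw [smul_mul_assoc, mul_smul_comm, hx]
  have hR3 : ∀ s : H, ∀ X ∈ R, ρ s * X * ρ s⁻¹ ∈ R := by
    intro s X hX
    rw [mem_Kalg] at hX ⊢
    induction hX using Submodule.span_induction with
    | mem x hx =>
      obtain ⟨z, hz, rfl⟩ := hx
      rw [← map_mul, ← map_mul]
      exact Submodule.subset_span ⟨_, hM.conj_mem z hz s, rfl⟩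
    | zero => simp
    | add x y _ _ hx hy =>
      rw [mul_add, add_mul]
      exact Submodule.add_mem _ hx hy
    | smul a x _ hx =>
      rw [mul_smul_comm, smul_mul_assoc]
      exact Submodule.smul_mem _ _ hx
  have : Finite (Submodule F2 W) :=
    Finite.of_injective (fun U : Submodule F2 W => (U : Set W)) SetLike.coe_injective
  obtain ⟨U, ⟨hU0, I, hI, hU⟩, hmin⟩ := (wellFounded_lt (α := Submodule F2 W)).has_min
    {U | U ≠ ⊥ ∧ ∃ I : Set (Module.End F2 W), (∀ X ∈ I, X ∈ R) ∧ ∀ v, v ∈ U ↔ ∀ X ∈ I, X v = 0}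
    ⟨⊤, top_ne_bot, ∅, by simp, by simp⟩
  have hdich : ∀ X ∈ R, (∀ v ∈ U, X v = 0) ∨ ∀ v ∈ U, X v = 0 → v = 0 := by
    intro X hX
    by_cases h0 : U ⊓ LinearMap.ker X = ⊥
    · right
      intro v hv hXv
      have : v ∈ U ⊓ LinearMap.ker X := ⟨hv, hXv⟩
      rwa [h0, Submodule.mem_bot] at this
    · left
      have h1 : U ⊓ LinearMap.ker X = U := by
        by_contra h1
        refine hmin _ ⟨h0, insert X I, ?_, ?_⟩ (lt_of_le_of_ne inf_le_left h1)
        · rintro Y (rfl | hY)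
          · exact hX
          · exact hI Y hY
        · intro v
          rw [Submodule.mem_inf, hU, LinearMap.mem_ker, Set.forall_mem_insert, and_comm]
      intro v hv
      rw [← h1] at hv
      exact hv.2
  have hmaps : ∀ X ∈ R, ∀ v ∈ U, X v ∈ U := by
    intro X hX v hv
    rw [hU] at hv ⊢
    intro Y hY
    rw [← Module.End.mul_apply, hR2 Y (hI Y hY) X hX, Module.End.mul_apply, hv Y hY, map_zero]
  refine ⟨U, ⟨hU0, ?_⟩, hdich⟩
  have := Fintype.ofFinite H
  have key : ∃ X ∈ R, (∀ v ∈ U, X v = 0 → v = 0) ∧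
      (Finset.univ.filter (fun s => tr ρ s U ≠ U)).sup (fun s => tr ρ s U) ≤ LinearMap.ker X := by
    refine Finset.sup_induction (p := fun O => ∃ X ∈ R, (∀ v ∈ U, X v = 0 → v = 0) ∧
      O ≤ LinearMap.ker X) ⟨1, R.one_mem, fun v _ h => h, bot_le⟩ ?_ ?_
    · rintro O₁ ⟨X₁, h₁, h₁', h₁''⟩ O₂ ⟨X₂, h₂, h₂', h₂''⟩
      refine ⟨X₁ * X₂, R.mul_mem h₁ h₂, fun v hv h => h₂' v hv (h₁' _ (hmaps X₂ h₂ v hv) h),
        sup_le ?_ ?_⟩
      · intro v hv
        have h3 : X₁ v = 0 := h₁'' hv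
        rw [LinearMap.mem_ker, hR2 X₁ h₁ X₂ h₂, Module.End.mul_apply, h3, map_zero]
      · intro v hv
        have h3 : X₂ v = 0 := h₂'' hv
        rw [LinearMap.mem_ker, Module.End.mul_apply, h3, map_zero]
    · intro s hs
      have hs' : tr ρ s U ≠ U := (Finset.mem_filter.mp hs).2
      have h1 : ∃ Y ∈ I, ¬ ∀ v ∈ U, (ρ s * Y * ρ s⁻¹) v = 0 := by
        by_contra h1
        push Not at h1
        refine hs' (tr_eq_of_le (fun v hv => ⟨ρ s⁻¹ v, (hU _).mpr (fun Y hY => ?_), ?_⟩))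
        · apply rho_inj (ρ := ρ) s
          rw [map_zero]
          exact h1 Y hY v hv
        · rw [← Module.End.mul_apply, ← map_mul, mul_inv_cancel, map_one]
          rfl
      obtain ⟨Y, hY, h2⟩ := h1
      refine ⟨_, hR3 s Y (hI Y hY), (hdich _ (hR3 s Y (hI Y hY))).resolve_left h2, ?_⟩
      rintro _ ⟨v, hv, rfl⟩
      rw [LinearMap.mem_ker, ← Module.End.mul_apply, mul_assoc, ← map_mul, inv_mul_cancel, map_one,
        mul_one, Module.End.mul_apply, (hU v).mp hv Y hY, map_zero]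
  obtain ⟨X, -, h1, h2⟩ := key
  refine Submodule.disjoint_def.mpr (fun v hv hv' => h1 v hv (h2 (others_le ?_ hv')))
  intro s hs
  exact Finset.le_sup (f := fun s => tr ρ s U) (Finset.mem_filter.mpr ⟨Finset.mem_univ _, hs⟩)

/-- Minimal blocks. -/
def MinBlk (ρ : H →* Module.End F2 W) (B : Submodule F2 W) : Prop :=
  IsBlk ρ B ∧ ∀ B', IsBlk ρ B' → B' ≤ B → B' = B

theorem exists_minBlk [Nontrivial W] : ∃ B, MinBlk ρ B := by
  have : Finite (Submodule F2 W) :=
    Finite.of_injective (fun U : Submodule F2 W => (U : Set W)) SetLike.coe_injective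
  obtain ⟨B, hB, hmin⟩ := (wellFounded_lt (α := Submodule F2 W)).has_min {B | IsBlk ρ B}
    ⟨⊤, top_ne_bot, by
      have : others ρ ⊤ ≤ ⊥ := others_le (fun s hs => absurd (tr_eq_of_le (by
        rw [← tr_tr_inv (ρ := ρ) s ⊤]
        exact tr_mono s (by rw [tr_tr_inv]; exact le_top))) hs)
      rw [le_bot_iff.mp this]
      exact disjoint_bot_right⟩
  refine ⟨B, hB, fun B' hB' hle => ?_⟩
  by_contra hne
  exact hmin B' hB' (lt_of_le_of_ne hle hne)

theorem MinBlk.tr {B : Submodule F2 W} (h : MinBlk ρ B) (x : H) : MinBlk ρ (tr ρ x B) := by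
  refine ⟨h.1.tr x, fun B' hB' hle => ?_⟩
  have := h.2 _ (hB'.tr x⁻¹) (by
    have := tr_mono (ρ := ρ) x⁻¹ hle
    rwa [tr_inv_tr] at this)
  rw [← this, tr_tr_inv]

theorem MinBlk.qp {B : Submodule F2 W} (h : MinBlk ρ B) (M : Subgroup (stB ρ B)) (hM : M.Normal)
    (hc : ∀ x ∈ M, ∀ y ∈ M, res ρ B x * res ρ B y = res ρ B y * res ρ B x) :
    ∀ X ∈ Submodule.span F2 (res ρ B '' (M : Set (stB ρ B))), X = 0 ∨ Function.Injective X := by
  have : Nontrivial B := Submodule.nontrivial_iff_ne_bot.mpr h.1.1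
  obtain ⟨U, hU, hd⟩ := exists_subblock M hc
  have h1 := h.2 _ (h.1.map hU) (Submodule.map_subtype_le _ _)
  have h2 : ∀ v : B, v ∈ U := by
    intro v
    have : (v : W) ∈ U.map B.subtype := by rw [h1]; exact v.2
    obtain ⟨v', hv', h3⟩ := this
    rwa [← Subtype.ext h3]
  intro X hX
  rcases hd X hX with h3 | h3
  · left
    exact LinearMap.ext (fun v => h3 v (h2 v))
  · right
    exact (injective_iff_map_eq_zero X).mpr (fun v => h3 v (h2 v))

end Pool.Agent.P.MP_ac4bd0_al.No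
end

-- part Pool.Agent.P.MP_ac4bd0_al.No.Block
section

set_option autoImplicit false
set_option linter.unusedSectionVars false

namespace Pool.Agent.P.MP_ac4bd0_al.No

variable {H W : Type} [Group H] [Finite H] [AddCommGroup W] [Module F2 W] [Finite W]
  {ρ : H →* Module.End F2 W}

theorem pow_val_add {n : ℕ} [NeZero n] {a : H} (ha : a ^ n = 1) (i j : ZMod n) :
    a ^ (i + j).val = a ^ i.val * a ^ j.val := by
  rw [ZMod.val_add, ← pow_eq_pow_mod _ ha, pow_add]

theorem case_regular [Group.IsSolvable H] (hS : ∀ w : W, ISR (stab ρ w)) {B : Submodule F2 W}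
    (hB : IsBlk ρ B) {a b : H} (ha : a ^ 5 = 1) (hb : b ^ 7 = 1) (hab : a * b = b * a)
    (ha' : a ∉ stB ρ B) (hb' : b ∉ stB ρ B) : False := by
  classical
  let e : ZMod 5 × ZMod 7 → H := fun x => a ^ x.1.val * b ^ x.2.val
  have he : ∀ x y, e (x + y) = e x * e y := by
    intro x y
    simp only [e, Prod.fst_add, Prod.snd_add, pow_val_add ha, pow_val_add hb]
    have h1 : Commute (a ^ y.1.val) (b ^ x.2.val) := Commute.pow_pow hab _ _
    rw [mul_assoc, mul_assoc, ← mul_assoc (a ^ y.1.val), h1.eq, mul_assoc]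
  have he0 : e 0 = 1 := by simp [e]
  have hea : e (1, 0) = a := by
    have : (1 : ZMod 5).val = 1 := rfl
    simp [e, this]
  have heb : e (0, 1) = b := by
    have : (1 : ZMod 7).val = 1 := rfl
    simp [e, this]
  have hek : ∀ (k : ℕ) x, e (k • x) = e x ^ k := by
    intro k x
    induction k with
    | zero => simp [he0]
    | succ k ih => rw [succ_nsmul, he, ih, pow_succ]
  have hinj : ∀ x y, tr ρ (e x) B = tr ρ (e y) B → x = y := by
    intro x y hxy
    by_contra hne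
    have h1 : e (x - y) ∈ stB ρ B := by
      have h2 : e (x - y) = (e y)⁻¹ * e x := by
        rw [eq_inv_mul_iff_mul_eq, ← he, add_sub_cancel]
      rw [h2, mem_stB, tr_mul, hxy, tr_inv_tr]
    have h3 : ∀ d : ZMod 5 × ZMod 7, d ≠ 0 → ∃ k : Fin 35, k.val • d = (1, 0) ∨
        k.val • d = (0, 1) := by decide
    obtain ⟨k, hk⟩ := h3 (x - y) (sub_ne_zero.mpr hne)
    have h4 := (stB ρ B).pow_mem h1 k.val
    rw [← hek] at h4
    rcases hk with hk | hk
    · rw [hk, hea] at h4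
      exact ha' h4
    · rw [hk, heb] at h4
      exact hb' h4
  obtain ⟨w₀, hw₀, hw0⟩ := (Submodule.ne_bot_iff B).mp hB.1
  obtain ⟨w, hw⟩ : ∃ w, w = ∑ x, ρ (e x) w₀ := ⟨_, rfl⟩
  have hperm : ∀ t ∈ stab ρ w, ∀ y, ∃ x, tr ρ t (tr ρ (e x) B) = tr ρ (e y) B := by
    intro t ht y
    by_contra hcon
    push Not at hcon
    have h1 : ∀ s, tr ρ s B ≠ tr ρ (e y) B → ρ s w₀ ∈ others ρ (tr ρ (e y) B) := by
      intro s hs
      have h2 : tr ρ s B = tr ρ (s * (e y)⁻¹) (tr ρ (e y) B) := by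
        rw [← tr_mul, inv_mul_cancel_right]
      exact le_others (h2 ▸ hs) (h2 ▸ mem_tr s hw₀)
    have h3 : w ∈ others ρ (tr ρ (e y) B) := by
      rw [← mem_stab.mp ht, hw, map_sum]
      refine Submodule.sum_mem _ (fun x _ => ?_)
      rw [← Module.End.mul_apply, ← map_mul]
      exact h1 _ (by rw [tr_mul]; exact hcon x)
    have h4 : ρ (e y) w₀ ∈ others ρ (tr ρ (e y) B) := by
      rw [hw, ← Finset.add_sum_erase _ _ (Finset.mem_univ y)] at h3
      refine (Submodule.add_mem_iff_left _ (Submodule.sum_mem _ (fun x hx => h1 _ ?_))).mp h3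
      exact fun h5 => (Finset.mem_erase.mp hx).1 (hinj _ _ h5)
    have h5 := Submodule.disjoint_def.mp (hB.tr (e y)).2 _ (mem_tr _ hw₀) h4
    exact hw0 (rho_inj (ρ := ρ) (e y) (by rw [h5, map_zero]))
  have hperm' : ∀ (t : stab ρ w) x, ∃ y, tr ρ (e y) B = tr ρ t (tr ρ (e x) B) := by
    intro t x
    obtain ⟨y, hy⟩ := hperm _ ((stab ρ w).inv_mem t.2) x
    exact ⟨y, by rw [← hy, tr_tr_inv]⟩
  choose f hf using hperm'
  letI : MulAction (stab ρ w) (ZMod 5 × ZMod 7) :=
    { smul := f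
      one_smul := fun x => hinj _ _ (by
        show tr ρ (e (f 1 x)) B = _
        rw [hf]
        exact tr_one _)
      mul_smul := fun s t x => hinj _ _ (by
        show tr ρ (e (f (s * t) x)) B = tr ρ (e (f s (f t x))) B
        rw [hf, hf, hf, ← tr_mul (s : H)]
        rfl) }
  have hmem : ∀ y, e y ∈ stab ρ w := by
    intro y
    rw [mem_stab, hw, map_sum, ← Equiv.sum_comp (Equiv.addLeft y) (fun x => ρ (e x) w₀)]
    refine Finset.sum_congr rfl (fun x _ => ?_)
    rw [← Module.End.mul_apply, ← map_mul, ← he]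
    rfl
  have hact : ∀ y x, MulAction.toPermHom (stab ρ w) (ZMod 5 × ZMod 7) ⟨e y, hmem y⟩ x = x + y := by
    intro y x
    apply hinj
    show tr ρ (e (f _ x)) B = _
    rw [hf, ← tr_mul, add_comm, he]
  exact lemmaP (hS w) _ _ _ (hact (1, 0)) (hact (0, 1))

variable {F : Type} [Field F] {α β : F}

theorem Cfg.τ_zero (C : Cfg F α β H) : C.τ 0 = 1 := by
  have := C.τ_add 0 0
  rw [add_zero] at this
  exact mul_eq_left.mp this.symm

theorem Cfg.τ_sub (C : Cfg F α β H) (s t : F) : C.τ (s - t) = C.τ s * (C.τ t)⁻¹ := by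
  rw [eq_mul_inv_iff_mul_eq, ← C.τ_add, sub_add_cancel]

theorem τ_mem (C : Cfg F α β H) (h3 : (3 : F) = 0) (hα : α ≠ 1) (hβ : β ≠ 1) (S : Subgroup H)
    (h : ∀ q, (C.τ q)⁻¹ * C.a * C.τ q ∈ S ∨ (C.τ q)⁻¹ * C.b * C.τ q ∈ S) : ∀ q, C.τ q ∈ S := by
  have key : ∀ (g : H) (γ : F), (∀ s, g * C.τ s = C.τ (γ * s) * g) → ∀ q q',
      (C.τ q)⁻¹ * g * C.τ q ∈ S → (C.τ q')⁻¹ * g * C.τ q' ∈ S → C.τ ((γ - 1) * (q - q')) ∈ S := by
    intro g γ hg q q' h1 h2
    have e : ∀ q, (C.τ q)⁻¹ * g * C.τ q = C.τ ((γ - 1) * q) * g := by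
      intro q
      rw [mul_assoc, hg, inv_mul_eq_iff_eq_mul, ← mul_assoc, ← C.τ_add]
      congr 2
      ring
    rw [e] at h1 h2
    have := S.mul_mem h1 (S.inv_mem h2)
    rw [mul_sub, C.τ_sub]
    simpa [mul_assoc] using this
  have h1 : ∀ q, C.τ ((α - 1) * q) ∈ S ∨ C.τ ((β - 1) * q) ∈ S := by
    intro q
    have e1 : q - 0 = q := sub_zero q
    have e2 : 0 - -q = q := by ring
    have e3 : -q - q = q := by linear_combination (-q) * h3
    rcases h 0 with h0 | h0 <;> rcases h q with h1 | h1 <;> rcases h (-q) with h2 | h2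
    · exact Or.inl (e1 ▸ key _ _ C.a_τ _ _ h1 h0)
    · exact Or.inl (e1 ▸ key _ _ C.a_τ _ _ h1 h0)
    · exact Or.inl (e2 ▸ key _ _ C.a_τ _ _ h0 h2)
    · exact Or.inr (e3 ▸ key _ _ C.b_τ _ _ h2 h1)
    · exact Or.inl (e3 ▸ key _ _ C.a_τ _ _ h2 h1)
    · exact Or.inr (e2 ▸ key _ _ C.b_τ _ _ h0 h2)
    · exact Or.inr (e1 ▸ key _ _ C.b_τ _ _ h1 h0)
    · exact Or.inr (e1 ▸ key _ _ C.b_τ _ _ h1 h0)
  intro q
  by_contra hq
  have hα' : α - 1 ≠ 0 := sub_ne_zero.mpr hα
  have hβ' : β - 1 ≠ 0 := sub_ne_zero.mpr hβ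
  have h4 : C.τ ((α - 1) * (q / (α - 1))) ∉ S := by rwa [mul_div_cancel₀ _ hα']
  have h5 : C.τ ((β - 1) * (q / (β - 1))) ∉ S := by rwa [mul_div_cancel₀ _ hβ']
  have h6 := (h1 _).resolve_left h4
  have h7 := (h1 _).resolve_right h5
  rcases h1 (q / (α - 1) + q / (β - 1)) with h8 | h8
  · rw [mul_add, C.τ_add] at h8
    exact h4 ((S.mul_mem_cancel_right h7).mp h8)
  · rw [mul_add, C.τ_add] at h8
    exact h5 ((S.mul_mem_cancel_left h6).mp h8)

theorem uc_mem (C : Cfg F α β H) (K : Subgroup H) [hK : K.Normal] (h : ∀ q, C.τ q ∈ K) :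
    (∀ q q', C.u q * C.u q' ∈ K) ∧ ∀ q, C.c q ∈ K := by
  have hinv : ∀ q, (C.u q)⁻¹ = C.u q := fun q => inv_eq_of_mul_eq_one_right (C.u_sq q)
  have h1 : ∀ q q', C.u q * C.u q' ∈ K := by
    intro q q'
    have e := C.τ_u (q - q') q'
    rw [add_sub_cancel] at e
    have e2 : C.u q * C.u q' = C.τ (q - q') * (C.u q' * (C.τ (q - q'))⁻¹ * (C.u q')⁻¹) := by
      rw [← mul_assoc, ← mul_assoc, e, hinv, mul_inv_cancel_right]
    rw [e2]
    exact K.mul_mem (h _) (hK.conj_mem _ (K.inv_mem (h _)) _)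
  refine ⟨h1, fun q => ?_⟩
  have hne : q + 1 ≠ q := by simp
  have e : C.u q * C.u (q + 1) * C.c q = (C.c q)⁻¹ * (C.u q * C.u (q + 1)) := by
    rw [mul_assoc, C.u_c' _ _ hne, ← mul_assoc, C.u_c, mul_assoc]
  have e2 : C.c q = C.u q * C.u (q + 1) * (C.c q * (C.u q * C.u (q + 1))⁻¹ * (C.c q)⁻¹) := by
    rw [← mul_assoc, ← mul_assoc, e, mul_inv_cancel_right, ← mul_inv_rev, eq_inv_iff_mul_eq_one,
      ← C.c_pow q, pow_succ', sq]
  rw [e2]
  exact K.mul_mem (h1 _ _) (hK.conj_mem _ (K.inv_mem (h1 _ _)) _)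

/-- The commutators of an elementary abelian 2-group with an element normalising it. -/
def commSub {G : Type} [Group G] (E : Subgroup G) (g : G) (h2 : ∀ x ∈ E, ∀ y ∈ E, x * y = y * x)
    (hg : ∀ x ∈ E, g * x * g⁻¹ ∈ E) : Subgroup G where
  carrier := {y | ∃ x ∈ E, y = x * g * x⁻¹ * g⁻¹}
  one_mem' := ⟨1, E.one_mem, by simp⟩
  mul_mem' := by
    rintro _ _ ⟨x, hx, rfl⟩ ⟨y, hy, rfl⟩
    refine ⟨x * y, E.mul_mem hx hy, ?_⟩
    have h1 := h2 _ (hg _ (E.inv_mem hx)) _ hy
    have h3 := h2 _ (E.inv_mem hx) _ (E.inv_mem hy)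
    calc x * g * x⁻¹ * g⁻¹ * (y * g * y⁻¹ * g⁻¹) = x * (g * x⁻¹ * g⁻¹ * y) * g * y⁻¹ * g⁻¹ := by
          group
      _ = x * y * g * (x⁻¹ * y⁻¹) * g⁻¹ := by rw [h1]; group
      _ = _ := by rw [h3]; group
  inv_mem' := by
    rintro _ ⟨x, hx, rfl⟩
    refine ⟨x⁻¹, E.inv_mem hx, ?_⟩
    have h1 := h2 _ (hg _ hx) _ (E.inv_mem hx)
    calc (x * g * x⁻¹ * g⁻¹)⁻¹ = g * x * g⁻¹ * x⁻¹ := by group
      _ = _ := by rw [h1]; group

theorem case_prim (p : ℕ) (hp : p = 5 ∨ p = 7) : ∃ c : ℕ, ∀ (F : Type) [Field F] [Finite F]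
    (α β γ : F), γ ^ p = 1 → γ ≠ 1 → c < Nat.card F →
    ∀ (H W : Type) [Group H] [Finite H] [Group.IsSolvable H] [AddCommGroup W]
      [Module F2 W] [Finite W] (ρ : H →* Module.End F2 W) (C : Cfg F α β H) (g : H)
      (B : Submodule F2 W), MinBlk ρ B → g ^ p = 1 → (∀ q, g * C.u q = C.u (γ * q) * g) →
      g ∈ stB ρ B → (∀ q q', C.u q * C.u q' ∈ stB ρ B) → (∀ q, C.c q ∈ stB ρ B) →
      (∀ q, ∃ w ∈ B, ρ (C.c q) w ≠ w) → (∀ w : W, ISR (stab ρ w)) → False := by
  obtain ⟨c, hc⟩ := core' p hp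
  refine ⟨c + 1, ?_⟩
  intro F _ _ α β γ hγ hγ1 hF H W _ _ _ _ _ _ ρ C g B hB hg hgu hgB huB hcB hcw hS
  have : Nontrivial B := Submodule.nontrivial_iff_ne_bot.mpr hB.1.1
  have hinv : ∀ q, (C.u q)⁻¹ = C.u q := fun q => inv_eq_of_mul_eq_one_right (C.u_sq q)
  let E₀ : Subgroup H := Subgroup.closure (Set.range C.u)
  have hE1 : ∀ x ∈ E₀, ∀ y ∈ E₀, x * y = y * x := by
    have h1 : E₀ ≤ Subgroup.centralizer (Set.range C.u) := by
      refine (Subgroup.closure_le _).mpr ?_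
      rintro _ ⟨q, rfl⟩ _ ⟨q', rfl⟩
      exact C.u_comm _ _
    have h2 : E₀ ≤ Subgroup.centralizer (E₀ : Set H) := by
      refine (Subgroup.closure_le _).mpr ?_
      intro x hx y hy
      exact (h1 hy x hx).symm
    intro x hx y hy
    exact h2 hy x hx
  have hE2 : ∀ x ∈ E₀, x * x = 1 := by
    intro x hx
    induction hx using Subgroup.closure_induction with
    | mem x hx =>
      obtain ⟨q, rfl⟩ := hx
      exact C.u_sq q
    | one => simp
    | mul x y hx hy h1 h2 =>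
      rw [mul_assoc, ← mul_assoc y, hE1 y hy x hx, mul_assoc, h2, mul_one, h1]
    | inv x _ h1 => rw [← mul_inv_rev, h1, inv_one]
  have hE3 : ∀ x ∈ E₀, g * x * g⁻¹ ∈ E₀ := by
    have h1 : E₀ ≤ E₀.comap (MulAut.conj g).toMonoidHom := by
      refine (Subgroup.closure_le _).mpr ?_
      rintro _ ⟨q, rfl⟩
      show g * C.u q * g⁻¹ ∈ E₀
      rw [hgu, mul_inv_cancel_right]
      exact Subgroup.subset_closure ⟨_, rfl⟩
    exact fun x hx => h1 hx
  let g' : stB ρ B := ⟨g, hgB⟩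
  let E : Subgroup (stB ρ B) := E₀.subgroupOf (stB ρ B)
  have hE1' : ∀ x ∈ E, ∀ y ∈ E, x * y = y * x := fun x hx y hy => Subtype.ext (hE1 _ hx _ hy)
  have hE3' : ∀ x ∈ E, g' * x * g'⁻¹ ∈ E := fun x hx => hE3 _ hx
  have hγ0 : γ ≠ 0 := by
    rintro rfl
    rcases hp with rfl | rfl <;> simp at hγ
  have hγ2 : γ * γ ≠ 1 := by
    intro h1
    apply hγ1
    rcases hp with rfl | rfl
    · rw [← hγ]
      linear_combination (-(γ ^ 3 + γ)) * h1
    · rw [← hγ]
      linear_combination (-(γ ^ 5 + γ ^ 3 + γ)) * h1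
  obtain ⟨w, hw0, hw1, hw2⟩ := hc (stB ρ B) B (res ρ B) hB.qp g' (commSub E g' hE1' hE3')
    (Subtype.ext hg) (by
      rintro _ ⟨x, hx, rfl⟩
      apply Subtype.ext
      apply hE2
      have := E.mul_mem hx (hE3' _ (E.inv_mem hx))
      simp only [← mul_assoc] at this
      exact this) (by
      rintro _ ⟨x, -, rfl⟩
      exact ⟨x, rfl⟩) (by
      have h1 : ({q | q ≠ 0} : Set F).ncard + 1 = Nat.card F := by
        have := Set.ncard_add_ncard_compl ({0} : Set F)
        rw [Set.ncard_singleton, add_comm] at this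
        exact this
      refine lt_of_lt_of_le (by omega : c < ({q | q ≠ 0} : Set F).ncard) ?_
      refine Set.ncard_le_ncard_of_injOn (fun q => res ρ B ⟨_, huB q (γ * q)⟩) ?_ ?_
      · intro q _
        refine ⟨_, ⟨⟨_, huB q 0⟩, E₀.mul_mem (Subgroup.subset_closure ⟨_, rfl⟩)
          (Subgroup.subset_closure ⟨_, rfl⟩), ?_⟩, rfl⟩
        apply Subtype.ext
        show C.u q * C.u (γ * q) = C.u q * C.u 0 * g * (C.u q * C.u 0)⁻¹ * g⁻¹
        have e0 := hgu 0
        rw [mul_zero] at e0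
        rw [C.u_comm q 0, mul_inv_rev, hinv, hinv, C.u_comm 0 q]
        calc C.u q * C.u (γ * q) = C.u q * (C.u 0 * C.u 0) * C.u (γ * q) * g * g⁻¹ := by
              rw [C.u_sq]; group
          _ = C.u q * C.u 0 * C.u (γ * q) * (C.u 0 * g) * g⁻¹ := by
              rw [mul_assoc (C.u q * C.u 0), ← mul_assoc (C.u (γ * q)), C.u_comm (γ * q) 0]
              group
          _ = C.u q * C.u 0 * (C.u (γ * q) * g) * C.u 0 * g⁻¹ := by rw [← e0]; group
          _ = _ := by rw [← hgu]; group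
      · intro q hq q' hq' hqq
        by_contra hne
        have hq0 : q ≠ 0 := hq
        have hq0' : q' ≠ 0 := hq'
        have hqγ : q ≠ γ * q := fun h => hγ1 (by
          have : (γ - 1) * q = 0 := by linear_combination -h
          exact sub_eq_zero.mp ((mul_eq_zero.mp this).resolve_right hq0))
        obtain ⟨r, hr1, hr2⟩ : ∃ r, C.u q * C.u (γ * q) * C.c r = (C.c r)⁻¹ * (C.u q * C.u (γ * q)) ∧
            C.u q' * C.u (γ * q') * C.c r = C.c r * (C.u q' * C.u (γ * q')) := by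
          by_cases h1 : γ * q' = q
          · refine ⟨γ * q, ?_, ?_⟩
            · rw [C.u_comm q, mul_assoc, C.u_c' _ _ hqγ, ← mul_assoc, C.u_c, mul_assoc]
            · have h2 : q' ≠ γ * q := fun h => hγ2 (by
                rw [← h1] at h
                have : (γ * γ - 1) * q' = 0 := by linear_combination -h
                exact sub_eq_zero.mp ((mul_eq_zero.mp this).resolve_right hq0'))
              rw [h1, mul_assoc, C.u_c' _ _ hqγ, ← mul_assoc, C.u_c' _ _ h2, mul_assoc]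
          · refine ⟨q, ?_, ?_⟩
            · rw [mul_assoc, C.u_c' _ _ hqγ.symm, ← mul_assoc, C.u_c, mul_assoc]
            · rw [mul_assoc, C.u_c' _ _ h1, ← mul_assoc, C.u_c' _ _ (Ne.symm hne), mul_assoc]
        obtain ⟨x, hx⟩ : ∃ x, x = C.u q * C.u (γ * q) := ⟨_, rfl⟩
        obtain ⟨x', hx'⟩ : ∃ x, x = C.u q' * C.u (γ * q') := ⟨_, rfl⟩
        have hxx : ∀ v ∈ B, ρ x v = ρ x' v := by
          intro v hv
          rw [hx, hx']
          exact congrArg (fun Y : Module.End F2 B => (Y ⟨v, hv⟩ : W)) hqq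
        have hxB : x ∈ stB ρ B := hx ▸ huB _ _
        rw [← hx] at hr1
        rw [← hx'] at hr2
        obtain ⟨v, hv, hv'⟩ := hcw r
        have hv1 : ρ x⁻¹ v ∈ B := stB_maps ((stB ρ B).inv_mem hxB) hv
        have e1 : ρ x (ρ x⁻¹ v) = v := by
          rw [← Module.End.mul_apply, ← map_mul, mul_inv_cancel, map_one]
          rfl
        have e2 : ρ (C.c r)⁻¹ v = ρ (C.c r) v := by
          calc ρ (C.c r)⁻¹ v = ρ ((C.c r)⁻¹ * x) (ρ x⁻¹ v) := by
                rw [map_mul, Module.End.mul_apply, e1]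
            _ = ρ x' (ρ (C.c r) (ρ x⁻¹ v)) := by
                rw [← hr1, map_mul, Module.End.mul_apply, hxx _ (stB_maps (hcB r) hv1)]
            _ = _ := by
                rw [← Module.End.mul_apply, ← map_mul, hr2, map_mul, Module.End.mul_apply,
                  ← hxx _ hv1, e1]
        have e3 : C.c r * C.c r ∈ stab ρ v := by
          rw [mem_stab, map_mul, Module.End.mul_apply, ← e2, ← Module.End.mul_apply, ← map_mul,
            mul_inv_cancel, map_one]
          rfl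
        have e4 : C.c r = (C.c r * C.c r)⁻¹ := by
          rw [eq_inv_iff_mul_eq_one, ← C.c_pow r, pow_succ', sq]
        apply hv'
        rw [← mem_stab, e4]
        exact (stab ρ v).inv_mem e3)
  have hgw : g ∈ stab ρ (w : W) := congrArg Subtype.val hw1
  obtain ⟨t, ht⟩ := (hS w).use (stab ρ (w : W)).subtype ⟨g, hgw⟩ p 2
    (by rcases hp with rfl | rfl <;> norm_num) hg (by rcases hp with rfl | rfl <;> norm_num)
  have htB : (t : H) ∈ stB ρ B := hB.1.mem_stB w.2 (fun h => hw0 (Subtype.ext h)) t.2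
  obtain ⟨h1, h2⟩ := hw2 ⟨t, htB⟩ (Subtype.ext t.2)
  rcases ht with ht | ht
  · exact h1 (Subtype.ext ht)
  · exact h2 (Subtype.ext ht)

/-- Step 3: the module theorem. -/
theorem modthm : ∃ c : ℕ, ∀ (F : Type) [Field F] [Finite F] (α β : F), (3 : F) = 0 →
    α ^ 5 = 1 → α ≠ 1 → β ^ 7 = 1 → β ≠ 1 → c < Nat.card F →
    ∀ (H W : Type) [Group H] [Finite H] [Group.IsSolvable H] [AddCommGroup W]
      [Module (ZMod 2) W] [Finite W] [Nontrivial W] (ρ : H →* Module.End (ZMod 2) W)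
      (C : Cfg F α β H), (∀ w : W, w ≠ 0 → ∃ s : H, ρ (C.c 0) (ρ s w) ≠ ρ s w) →
      (∀ w : W, ISR (stab ρ w)) → False := by
  obtain ⟨c5, h5⟩ := case_prim 5 (Or.inl rfl)
  obtain ⟨c7, h7⟩ := case_prim 7 (Or.inr rfl)
  refine ⟨c5 + c7, ?_⟩
  intro F _ _ α β h3 hα hα1 hβ hβ1 hF H W _ _ _ _ _ _ _ ρ C hc hS
  obtain ⟨B, hB⟩ := exists_minBlk (ρ := ρ)
  have hab : ∀ s, C.a ∈ stB ρ (tr ρ s B) ∨ C.b ∈ stB ρ (tr ρ s B) := by
    intro s
    by_contra h
    exact case_regular hS (hB.tr s).1 C.a_pow C.b_pow C.ab (not_or.mp h).1 (not_or.mp h).2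
  have hK : ∀ x, x ∈ (stB ρ B).normalCore ↔ ∀ s, x ∈ stB ρ (tr ρ s B) := by
    intro x
    constructor
    · intro h s
      rw [mem_stB_tr]
      simpa using h s⁻¹
    · intro h s
      simpa using mem_stB_tr.mp (h s⁻¹)
  have hτ : ∀ q, C.τ q ∈ (stB ρ B).normalCore := by
    intro q
    rw [hK]
    intro s
    refine τ_mem C h3 hα1 hβ1 _ (fun q => ?_) q
    rw [← mem_stB_tr, ← mem_stB_tr, ← tr_mul]
    exact hab _
  obtain ⟨hu, hcK⟩ := uc_mem C _ hτ
  obtain ⟨w₀, hw₀, hw0⟩ := (Submodule.ne_bot_iff B).mp hB.1.1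
  obtain ⟨s, hs⟩ := hc w₀ hw0
  have hcw : ∀ q, ∃ w ∈ tr ρ s B, ρ (C.c q) w ≠ w := by
    intro q
    refine ⟨ρ (C.τ q) (ρ s w₀), stB_maps ((hK _).mp (hτ q) s) (mem_tr s hw₀), fun h => hs ?_⟩
    have e := C.τ_c q 0
    rw [zero_add] at e
    apply rho_inj (ρ := ρ) (C.τ q)
    rw [← Module.End.mul_apply, ← map_mul, e, map_mul, Module.End.mul_apply, h]
  rcases hab s with h | h
  · exact h5 F α β α hα hα1 (by omega) H W ρ C C.a _ (hB.tr s) C.a_pow C.a_u h
      (fun q q' => (hK _).mp (hu q q') s) (fun q => (hK _).mp (hcK q) s) hcw hS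
  · exact h7 F α β β hβ hβ1 (by omega) H W ρ C C.b _ (hB.tr s) C.b_pow C.b_u h
      (fun q q' => (hK _).mp (hu q q') s) (fun q => (hK _).mp (hcK q) s) hcw hS

end Pool.Agent.P.MP_ac4bd0_al.No
end

-- part Pool.Agent.P.MP_ac4bd0_al.No.XGroup
section

set_option autoImplicit false

namespace Pool.Agent.P.MP_ac4bd0_al.No

/-- Affine maps of a field whose slopes lie in a given group of units. -/
@[ext]
structure Af (F : Type) [Field F] (U : Subgroup Fˣ) where
  a : U
  b : F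

namespace Af

variable {F : Type} [Field F] {U : Subgroup Fˣ}

instance : Mul (Af F U) := ⟨fun X Y => ⟨X.a * Y.a, ((X.a : Fˣ) : F) * Y.b + X.b⟩⟩
instance : One (Af F U) := ⟨⟨1, 0⟩⟩
instance : Inv (Af F U) := ⟨fun X => ⟨X.a⁻¹, -((((X.a : Fˣ) : F))⁻¹ * X.b)⟩⟩

@[simp] theorem mul_a (X Y : Af F U) : (X * Y).a = X.a * Y.a := rfl
@[simp] theorem mul_b (X Y : Af F U) : (X * Y).b = ((X.a : Fˣ) : F) * Y.b + X.b := rfl
@[simp] theorem one_a : (1 : Af F U).a = 1 := rfl
@[simp] theorem one_b : (1 : Af F U).b = 0 := rfl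
@[simp] theorem inv_a (X : Af F U) : (X⁻¹).a = X.a⁻¹ := rfl
@[simp] theorem inv_b (X : Af F U) : (X⁻¹).b = -((((X.a : Fˣ) : F))⁻¹ * X.b) := rfl

instance : Group (Af F U) :=
  Group.ofLeftAxioms
    (fun X Y Z => by ext <;> simp [mul_assoc, mul_add, add_assoc])
    (fun X => by ext <;> simp)
    (fun X => by ext <;> simp)

instance [Finite F] : Finite (Af F U) :=
  Finite.of_injective (fun X : Af F U => (X.a, X.b)) (fun X Y h => by
    simp only [Prod.mk.injEq] at h
    exact Af.ext h.1 h.2)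

instance : MulAction (Af F U) F where
  smul X x := ((X.a : Fˣ) : F) * x + X.b
  one_smul x := by
    show (((1 : Af F U).a : Fˣ) : F) * x + (1 : Af F U).b = x
    simp
  mul_smul X Y x := by
    show (((X * Y).a : Fˣ) : F) * x + (X * Y).b =
      ((X.a : Fˣ) : F) * (((Y.a : Fˣ) : F) * x + Y.b) + X.b
    simp only [mul_a, mul_b, Subgroup.coe_mul, Units.val_mul]
    ring

theorem smul_def (X : Af F U) (x : F) : X • x = ((X.a : Fˣ) : F) * x + X.b := rfl

/-- The linear part. -/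
def lin : Af F U →* U where
  toFun X := X.a
  map_one' := rfl
  map_mul' _ _ := rfl

/-- Translations. -/
def tr : Multiplicative F →* Af F U where
  toFun t := ⟨1, t.toAdd⟩
  map_one' := rfl
  map_mul' s t := by ext <;> simp [add_comm]

/-- Dilations. -/
def dil : U →* Af F U where
  toFun a := ⟨a, 0⟩
  map_one' := rfl
  map_mul' s t := by ext <;> simp

theorem solvable : Group.IsSolvable (Af F U) := by
  refine Group.isSolvable_of_ker_le_range tr lin ?_
  intro X hX
  refine ⟨Multiplicative.ofAdd X.b, ?_⟩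
  have : X.a = 1 := hX
  ext <;> simp [tr, this]

theorem pow_eq_one (n p : ℕ) (hU : ∀ a : U, a ^ n = 1) (hp : (p : F) = 0) (X : Af F U) :
    X ^ (n * p) = 1 := by
  have h1 : (X ^ n).a = 1 := by
    rw [show (X ^ n).a = X.a ^ n from map_pow lin X n, hU]
  have h2 : X ^ n = tr (Multiplicative.ofAdd (X ^ n).b) := Af.ext h1 rfl
  rw [pow_mul, h2, ← map_pow, ← ofAdd_nsmul, nsmul_eq_mul, hp, zero_mul, ofAdd_zero, map_one]

end Af

theorem wr_pow_eq_one {S Ω A : Type} [Group S] [MulAction S Ω] [Group A] (n m : ℕ)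
    (hS : ∀ s : S, s ^ n = 1) (hA : ∀ a : A, a ^ m = 1) (X : Wr S Ω A) : X ^ (n * m) = 1 := by
  have h1 : (X ^ n).s = 1 := by rw [Wr.pow_s, hS]
  have h2 : X ^ n = Wr.base (X ^ n).f := Wr.ext h1 rfl
  have h3 : (X ^ n).f ^ m = 1 := funext fun x => hA _
  rw [pow_mul, h2, ← map_pow, h3, map_one]

/-- Inclusion of the top group. -/
def wrTop {S Ω A : Type} [Group S] [MulAction S Ω] [Group A] : S →* Wr S Ω A where
  toFun s := ⟨s, fun _ => 1⟩
  map_one' := rfl
  map_mul' s t := by ext <;> simp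

/-- Inclusion of one coordinate of the base group. -/
def wrAt {S Ω A : Type} [Group S] [MulAction S Ω] [Group A] [DecidableEq Ω] (q : Ω) :
    A →* Wr S Ω A :=
  Wr.base.comp (MonoidHom.mulSingle (fun _ : Ω => A) q)

theorem wrAt_injective {S Ω A : Type} [Group S] [MulAction S Ω] [Group A] [DecidableEq Ω]
    (q : Ω) : Function.Injective (wrAt q : A →* Wr S Ω A) := by
  intro x y h
  have := congrFun (congrArg Wr.f h) q
  simpa [wrAt, Wr.base] using this

theorem wrTop_wrAt {S Ω A : Type} [Group S] [MulAction S Ω] [Group A] [DecidableEq Ω]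
    (s : S) (q : Ω) (x : A) :
    (wrTop s * wrAt q x : Wr S Ω A) = wrAt (s • q) x * wrTop s := by
  ext y
  · simp [wrTop, wrAt, Wr.base]
  · simp [wrTop, wrAt, Wr.base, Pi.mulSingle_apply]

theorem wrAt_comm {S Ω A : Type} [Group S] [MulAction S Ω] [Group A] [DecidableEq Ω]
    {q q' : Ω} (h : q ≠ q') (x y : A) :
    (wrAt q x * wrAt q' y : Wr S Ω A) = wrAt q' y * wrAt q x := by
  simp only [wrAt, MonoidHom.comp_apply, ← map_mul]
  congr 1
  exact (Pi.mulSingle_commute (f := fun _ : Ω => A) h x y).eq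

/-- The small factor: a finite solvable group of exponent dividing 12 with an element of order
3 inverted by an involution and with an involution in its normal closure. -/
theorem exists_small : ∃ (A : Type) (_ : Group A) (_ : Finite A), Group.IsSolvable A ∧
    (∀ x : A, x ^ 12 = 1) ∧ ∃ c u v : A, c ^ 3 = 1 ∧ u * u = 1 ∧ u * c = c⁻¹ * u ∧
      v ∈ Subgroup.normalClosure ({c} : Set A) ∧ v ≠ 1 ∧ v * v = 1 := by
  have : Fact (Nat.Prime 3) := ⟨by norm_num⟩
  have hS : Group.IsSolvable (Af (ZMod 3) ⊤) := Af.solvable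
  let A := Wr (Af (ZMod 3) ⊤) (ZMod 3) (Multiplicative (ZMod 2))
  have h2 : ∀ z : Multiplicative (ZMod 2), z ^ 2 = 1 := by decide
  let c : A := wrTop (Af.tr (Multiplicative.ofAdd 1))
  let u : A := wrTop (Af.dil ⟨-1, Subgroup.mem_top _⟩)
  let z : Multiplicative (ZMod 2) := Multiplicative.ofAdd 1
  let w : A := wrAt 0 z
  have hc : c ∈ Subgroup.normalClosure ({c} : Set A) :=
    Subgroup.subset_normalClosure (Set.mem_singleton _)
  have hv : c * (w * c⁻¹ * w⁻¹) = wrAt 1 z * wrAt 0 z⁻¹ := by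
    have := wrTop_wrAt (Af.tr (U := ⊤) (Multiplicative.ofAdd (1 : ZMod 3))) (0 : ZMod 3) z
    have e : (Af.tr (U := ⊤) (Multiplicative.ofAdd (1 : ZMod 3))) • (0 : ZMod 3) = 1 := by
      simp [Af.smul_def, Af.tr]
    rw [e] at this
    have this' : c * w = wrAt 1 z * c := this
    have e2 : (wrAt 0 z⁻¹ : A) = w⁻¹ := map_inv (wrAt (0 : ZMod 3) : _ →* A) z
    rw [← mul_assoc, ← mul_assoc, this', e2, mul_inv_cancel_right]
  refine ⟨A, inferInstance, inferInstance, Wr.solvable _ _ _, ?_, c, u, c * (w * c⁻¹ * w⁻¹), ?_, ?_,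
    ?_, ?_, ?_, ?_⟩
  · refine wr_pow_eq_one (2 * 3) 2 (Af.pow_eq_one 2 3 ?_ ?_) h2
    · intro a
      apply Subtype.ext
      exact ZMod.units_pow_card_sub_one_eq_one 3 a.1
    · exact ZMod.natCast_self 3
  · rw [← map_pow, ← map_pow, ← ofAdd_nsmul, nsmul_eq_mul, ZMod.natCast_self 3]
    simp
  · rw [← map_mul, ← map_mul]
    have : (⟨-1, Subgroup.mem_top _⟩ * ⟨-1, Subgroup.mem_top _⟩ : (⊤ : Subgroup (ZMod 3)ˣ)) = 1 := by
      apply Subtype.ext
      simp
    rw [this, map_one, map_one]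
  · rw [← map_inv, ← map_mul, ← map_mul]
    congr 1
    ext <;> simp [Af.tr, Af.dil]
  · exact Subgroup.mul_mem _ hc
      (Subgroup.normalClosure_normal.conj_mem _ (Subgroup.inv_mem _ hc) w)
  · rw [hv]
    intro h
    have h3 : (Pi.mulSingle (M := fun _ : ZMod 3 => Multiplicative (ZMod 2)) 1 z) 1 *
        (Pi.mulSingle (M := fun _ : ZMod 3 => Multiplicative (ZMod 2)) 0 z⁻¹) ((1 : ZMod 3)) = 1 := by
      simp only [wrAt, MonoidHom.comp_apply, ← map_mul] at h
      exact congrFun (congrArg Wr.f h) 1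
    have h10 : (1 : ZMod 3) ≠ 0 := one_ne_zero
    rw [Pi.mulSingle_eq_same, Pi.mulSingle_eq_of_ne h10, mul_one] at h3
    revert h3
    decide
  · rw [hv]
    simp only [wrAt, MonoidHom.comp_apply, ← map_mul]
    rw [← pow_two]
    have : (MonoidHom.mulSingle (fun _ : ZMod 3 => Multiplicative (ZMod 2)) 1 z *
        MonoidHom.mulSingle (fun _ : ZMod 3 => Multiplicative (ZMod 2)) 0 z⁻¹) ^ 2 = 1 :=
      funext fun x => h2 _
    rw [this, map_one]

theorem exists_field (c : ℕ) : ∃ (F : Type) (_ : Field F) (_ : Finite F) (α β : Fˣ),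
    (3 : F) = 0 ∧ orderOf α = 5 ∧ orderOf β = 7 ∧ c < Nat.card F := by
  have : Fact (Nat.Prime 3) := ⟨by norm_num⟩
  have : Fact (Nat.Prime 5) := ⟨by norm_num⟩
  have : Fact (Nat.Prime 7) := ⟨by norm_num⟩
  let F := GaloisField 3 (12 * (c + 1))
  have hcard : Nat.card F = 3 ^ (12 * (c + 1)) := GaloisField.card 3 _ (by omega)
  have hu : Nat.card Fˣ = 3 ^ (12 * (c + 1)) - 1 := by rw [Nat.card_units, hcard]
  have h35 : 35 ∣ Nat.card Fˣ := by
    rw [hu, pow_mul]
    have := Nat.sub_dvd_pow_sub_pow (3 ^ 12) 1 (c + 1)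
    rw [one_pow] at this
    exact Dvd.dvd.trans (by norm_num) this
  obtain ⟨α, hα⟩ := exists_prime_orderOf_dvd_card' (G := Fˣ) 5 (Dvd.dvd.trans (by norm_num) h35)
  obtain ⟨β, hβ⟩ := exists_prime_orderOf_dvd_card' (G := Fˣ) 7 (Dvd.dvd.trans (by norm_num) h35)
  refine ⟨F, inferInstance, inferInstance, α, β, ?_, hα, hβ, ?_⟩
  · exact_mod_cast CharP.cast_eq_zero F 3
  · rw [hcard]
    have := Nat.lt_pow_self (n := 12 * (c + 1)) (show 1 < 3 by norm_num)
    omega

/-- The test group. -/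
theorem exists_X (c : ℕ) : ∃ (F : Type) (_ : Field F) (_ : Finite F) (α β : F), (3 : F) = 0 ∧
    α ^ 5 = 1 ∧ α ≠ 1 ∧ β ^ 7 = 1 ∧ β ≠ 1 ∧ c < Nat.card F ∧
    ∃ (X : Type) (_ : Group X) (_ : Finite X), Group.IsSolvable X ∧
      (∀ p : ℕ, p.Prime → p ∣ Nat.card X → p ∈ ({2, 3, 5, 7} : Set ℕ)) ∧
      ∃ (C : Cfg F α β X) (v : X), v ∈ Subgroup.normalClosure ({C.c 0} : Set X) ∧ v ≠ 1 ∧
        v * v = 1 := by
  classical
  obtain ⟨F, _, _, α, β, h3, hα, hβ, hc⟩ := exists_field c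
  obtain ⟨A, _, _, hA, hA12, c₀, u₀, v₀, hc₀, hu₀, huc, hv, hv1, hv2⟩ := exists_small
  have hα5 : α ^ 5 = 1 := by rw [← hα, pow_orderOf_eq_one]
  have hβ7 : β ^ 7 = 1 := by rw [← hβ, pow_orderOf_eq_one]
  let U : Subgroup Fˣ := rootsOfUnity 35 F
  have hαU : α ∈ U := by
    rw [mem_rootsOfUnity, show 35 = 5 * 7 by norm_num, pow_mul, hα5, one_pow]
  have hβU : β ∈ U := by
    rw [mem_rootsOfUnity, show 35 = 7 * 5 by norm_num, pow_mul, hβ7, one_pow]
  have hS : Group.IsSolvable (Af F U) := Af.solvable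
  let X := Wr (Af F U) F A
  have hX : ∀ x : X, x ^ (35 * 3 * 12) = 1 :=
    wr_pow_eq_one _ _ (Af.pow_eq_one 35 3 (fun a => Subtype.ext a.2) (by exact_mod_cast h3)) hA12
  have htr : ∀ s q : F, (Af.tr (U := U) (Multiplicative.ofAdd s)) • q = q + s := by
    intro s q
    simp [Af.smul_def, Af.tr]
  have hdil : ∀ (a : U) (q : F), (Af.dil a) • q = ((a : Fˣ) : F) * q := by
    intro s q
    simp [Af.smul_def, Af.dil]
  have hdt : ∀ (a : U) (s : F), Af.dil a * Af.tr (Multiplicative.ofAdd s) =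
      Af.tr (Multiplicative.ofAdd (((a : Fˣ) : F) * s)) * Af.dil a := by
    intro a s
    ext <;> simp [Af.dil, Af.tr]
  let C : Cfg F (α : F) (β : F) X :=
    { c := fun q => wrAt q c₀
      u := fun q => wrAt q u₀
      τ := fun s => wrTop (Af.tr (Multiplicative.ofAdd s))
      a := wrTop (Af.dil ⟨α, hαU⟩)
      b := wrTop (Af.dil ⟨β, hβU⟩)
      a_pow := by
        rw [← map_pow, ← map_pow, show (⟨α, hαU⟩ : U) ^ 5 = 1 from Subtype.ext hα5, map_one,
          map_one]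
      b_pow := by
        rw [← map_pow, ← map_pow, show (⟨β, hβU⟩ : U) ^ 7 = 1 from Subtype.ext hβ7, map_one,
          map_one]
      ab := by rw [← map_mul, ← map_mul, mul_comm, map_mul, map_mul]
      τ_add := fun s s' => by rw [ofAdd_add, map_mul, map_mul]
      a_τ := fun s => by rw [← map_mul, hdt, map_mul]
      b_τ := fun s => by rw [← map_mul, hdt, map_mul]
      τ_c := fun s q => by rw [wrTop_wrAt, htr]
      τ_u := fun s q => by rw [wrTop_wrAt, htr]
      a_u := fun q => by rw [wrTop_wrAt, hdil]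
      b_u := fun q => by rw [wrTop_wrAt, hdil]
      u_sq := fun q => by rw [← map_mul, hu₀, map_one]
      u_comm := fun q q' => by
        by_cases h : q = q'
        · rw [h]
        · exact wrAt_comm h _ _
      c_pow := fun q => by rw [← map_pow, hc₀, map_one]
      u_c := fun q => by rw [← map_mul, huc, map_mul, map_inv]
      u_c' := fun q q' h => wrAt_comm h _ _ }
  refine ⟨F, inferInstance, inferInstance, α, β, h3, ?_, ?_, ?_, ?_, hc, X, inferInstance,
    inferInstance, Wr.solvable _ _ _, ?_, C, wrAt 0 v₀, ?_, ?_, ?_⟩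
  · rw [← Units.val_pow_eq_pow_val, hα5, Units.val_one]
  · intro h
    rw [Units.val_eq_one.mp h, orderOf_one] at hα
    omega
  · rw [← Units.val_pow_eq_pow_val, hβ7, Units.val_one]
  · intro h
    rw [Units.val_eq_one.mp h, orderOf_one] at hβ
    omega
  · intro p hp hpX
    have := Fact.mk hp
    obtain ⟨x, hx⟩ := exists_prime_orderOf_dvd_card' p hpX
    have h1 : p ∣ 2 ^ 2 * (3 ^ 2 * (5 * 7)) := by
      rw [← hx]
      exact orderOf_dvd_of_pow_eq_one (hX x)
    simp only [Set.mem_insert_iff, Set.mem_singleton_iff]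
    rcases (Nat.Prime.dvd_mul hp).mp h1 with h | h
    · exact Or.inl ((Nat.prime_dvd_prime_iff_eq hp (by norm_num)).mp (hp.dvd_of_dvd_pow h))
    rcases (Nat.Prime.dvd_mul hp).mp h with h | h
    · exact Or.inr (Or.inl
        ((Nat.prime_dvd_prime_iff_eq hp (by norm_num)).mp (hp.dvd_of_dvd_pow h)))
    rcases (Nat.Prime.dvd_mul hp).mp h with h | h
    · exact Or.inr (Or.inr (Or.inl ((Nat.prime_dvd_prime_iff_eq hp (by norm_num)).mp h)))
    · exact Or.inr (Or.inr (Or.inr ((Nat.prime_dvd_prime_iff_eq hp (by norm_num)).mp h)))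
  · have h1 : Subgroup.normalClosure ({c₀} : Set A) ≤
        (Subgroup.normalClosure ({C.c 0} : Set X)).comap (wrAt 0) := by
      apply Subgroup.normalClosure_le_normal
      intro x hx
      rw [Set.mem_singleton_iff] at hx
      subst hx
      exact Subgroup.subset_normalClosure (Set.mem_singleton _)
    exact h1 hv
  · intro h
    exact hv1 (wrAt_injective (S := Af F U) (0 : F) (by rw [h, map_one]))
  · rw [← map_mul, hv2, map_one]

end Pool.Agent.P.MP_ac4bd0_al.No
end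

-- part Pool.Agent.P.MP_ac4bd0_al.No.Final
section

set_option autoImplicit false

namespace Pool.Agent.P.MP_ac4bd0_al.No

theorem final : ∃ (X : Type) (_ : Group X) (_ : Finite X), Group.IsSolvable X ∧
    (∀ p : ℕ, p.Prime → p ∣ Nat.card X → p ∈ ({2, 3, 5, 7} : Set ℕ)) ∧
    ∀ (G : Type) [Group G] [Finite G], Group.IsSolvable G →
      (∀ u : (MonoidAlgebra ℤ G)ˣ, u ∈ Subgroup.center (MonoidAlgebra ℤ G)ˣ ↔
        ∃ z ∈ Subgroup.center G, (u : MonoidAlgebra ℤ G) = MonoidAlgebra.of ℤ G z ∨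
          (u : MonoidAlgebra ℤ G) = -MonoidAlgebra.of ℤ G z) →
      ¬ ∃ f : X →* G, Function.Injective f := by
  obtain ⟨c, hc⟩ := modthm
  obtain ⟨F, _, _, α, β, h3, hα, hα1, hβ, hβ1, hF, X, _, _, hX, hπ, C, v, hv, hv1, hv2⟩ :=
    exists_X c
  refine ⟨X, inferInstance, inferInstance, hX, hπ, ?_⟩
  rintro G _ _ hG hcut ⟨f, hf⟩
  have hisr : ISR G := isr_of_cut G (fun u hu => (hcut u).mp hu)
  have hv' : f v ∈ Subgroup.normalClosure ({f (C.c 0)} : Set G) := by
    have h1 : Subgroup.normalClosure ({C.c 0} : Set X) ≤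
        (Subgroup.normalClosure ({f (C.c 0)} : Set G)).comap f := by
      apply Subgroup.normalClosure_le_normal
      intro x hx
      rw [Set.mem_singleton_iff] at hx
      subst hx
      exact Subgroup.subset_normalClosure (Set.mem_singleton _)
    exact h1 hv
  obtain ⟨H, W, _, _, _, _, _, _, _, ρ, π, h1, h2⟩ := reduce G hisr (f (C.c 0)) (f v)
    (by rw [← map_pow, C.c_pow, map_one]) hv'
    (fun h => hv1 (hf (by rw [h, map_one]))) (by rw [← map_mul, hv2, map_one])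
  exact hc F α β h3 hα hα1 hβ hβ1 hF H W ρ (C.map (π.comp f)) h1 h2

end Pool.Agent.P.MP_ac4bd0_al.No
end
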